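import Mathlib
import Pool.Agent.Helper12.K3.Tor2

/-!
The lemniscate `|1 - X²| = 1`.
-/

namespace Pool.Agent.Helper11.K3H

open Complex Set Filter Topology Pool.Agent.Helper11 Pool.Agent.Helper12.K3

/-- `1 + i cos s` -/
noncomputable def dd (s : ℝ) : ℂ := 1 + (Real.cos s : ℂ) * I

/-- `1 - i cos s` -/
noncomputable def dc (s : ℝ) : ℂ := 1 - (Real.cos s : ℂ) * I

lemma dd_ne (s : ℝ) : dd s ≠ 0 := by
  intro h
  have := congrArg Complex.re h
  simp [dd] at this

lemma dc_ne (s : ℝ) : dc s ≠ 0 := by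
  intro h
  have := congrArg Complex.re h
  simp [dc] at this

lemma dd_mul_dc (s : ℝ) : dd s * dc s = ((1 + Real.cos s ^ 2 : ℝ) : ℂ) := by
  unfold dd dc
  push_cast
  linear_combination (-(Complex.cos s) ^ 2) * I_sq

lemma one_add_cos_pos (s : ℝ) : 0 < 1 + Real.cos s ^ 2 := by positivity

/-- `√2` -/
noncomputable def r2 : ℝ := Real.sqrt 2

lemma r2_sq : r2 ^ 2 = 2 := Real.sq_sqrt (by norm_num)

lemma r2_pos : 0 < r2 := Real.sqrt_pos.2 (by norm_num)

lemma r2_sq' : (r2 : ℂ) ^ 2 = 2 := by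
  have := r2_sq
  exact_mod_cast congrArg (fun x : ℝ => (x : ℂ)) this

/-- the first coordinate -/
noncomputable def XL (s : ℝ) : ℂ := (r2 : ℂ) * (Real.sin s : ℂ) / dd s

/-- the angle -/
noncomputable def aL (s : ℝ) : ℝ := Real.pi - 4 * Real.arctan (Real.cos s)

lemma csq (s : ℝ) : (Real.cos s : ℂ) ^ 2 + (Real.sin s : ℂ) ^ 2 = 1 := by
  have := Real.cos_sq_add_sin_sq s
  exact_mod_cast this

lemma one_sub_XL_sq (s : ℝ) : 1 - XL s ^ 2 = -(dc s / dd s) ^ 2 := by
  have h := dd_ne s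
  unfold XL
  rw [div_pow, div_pow]
  field_simp
  unfold dd dc
  have h1 := csq s
  have h2 := r2_sq'
  have h3 := I_sq
  linear_combination (-(Real.sin s : ℂ) ^ 2) * h2 + 2 * (Real.cos s : ℂ) ^ 2 * h3 - 2 * h1

lemma exp_arctan (c : ℝ) : exp ((Real.arctan c : ℝ) * I) ^ 2 * (1 - (c : ℂ) * I) =
    1 + (c : ℂ) * I := by
  have hs : 0 < Real.sqrt (1 + c ^ 2) := Real.sqrt_pos.2 (by positivity)
  have hs2 : ((Real.sqrt (1 + c ^ 2) : ℝ) : ℂ) ^ 2 = 1 + (c : ℂ) ^ 2 := by
    have := Real.sq_sqrt (show (0 : ℝ) ≤ 1 + c ^ 2 by positivity)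
    exact_mod_cast congrArg (fun x : ℝ => (x : ℂ)) this
  have h1 : exp ((Real.arctan c : ℝ) * I) * ((Real.sqrt (1 + c ^ 2) : ℝ) : ℂ) =
      1 + (c : ℂ) * I := by
    rw [Complex.exp_mul_I, ← Complex.ofReal_cos, ← Complex.ofReal_sin, Real.cos_arctan,
      Real.sin_arctan]
    have : ((Real.sqrt (1 + c ^ 2) : ℝ) : ℂ) ≠ 0 := by exact_mod_cast hs.ne'
    push_cast
    push_cast at this
    field_simp
  have h2 : exp ((Real.arctan c : ℝ) * I) ^ 2 * (1 + (c : ℂ) ^ 2) = (1 + (c : ℂ) * I) ^ 2 := by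
    rw [← hs2, ← mul_pow, h1]
  have h3 : (1 + (c : ℂ) * I) ≠ 0 := by
    intro h
    have := congrArg Complex.re h
    simp at this
  have h4 : (1 + (c : ℂ) ^ 2) = (1 - (c : ℂ) * I) * (1 + (c : ℂ) * I) := by
    linear_combination ((c : ℂ) ^ 2) * I_sq
  rw [h4, ← mul_assoc, sq (1 + (c : ℂ) * I)] at h2
  exact mul_right_cancel₀ h3 h2

lemma exp_aL (s : ℝ) : exp ((aL s : ℂ) * I) = 1 - XL s ^ 2 := by
  rw [one_sub_XL_sq]
  have h1 := exp_arctan (Real.cos s)
  set E := exp ((Real.arctan (Real.cos s) : ℝ) * I) with hE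
  have hE0 : E ≠ 0 := Complex.exp_ne_zero _
  have h2 : exp ((aL s : ℂ) * I) * E ^ 4 = -1 := by
    rw [hE, ← Complex.exp_nat_mul, ← Complex.exp_add, ← Complex.exp_pi_mul_I]
    congr 1
    unfold aL
    push_cast
    ring
  change E ^ 2 * dc s = dd s at h1
  have h3 := dd_ne s
  have h4 : (dc s / dd s) ^ 2 * E ^ 4 = 1 := by
    rw [div_pow, div_mul_eq_mul_div, div_eq_one_iff_eq (pow_ne_zero 2 h3), ← h1]
    ring
  have h5 : (exp ((aL s : ℂ) * I) + (dc s / dd s) ^ 2) * E ^ 4 = 0 := by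
    rw [add_mul, h2, h4]
    ring
  exact eq_neg_of_add_eq_zero_left ((mul_eq_zero.1 h5).resolve_right (pow_ne_zero 4 hE0))

lemma XL_deriv (s : ℝ) : HasDerivAt XL ((r2 : ℂ) * I * dc s / dd s ^ 2) s := by
  have h1 : HasDerivAt (fun s : ℝ => (r2 : ℂ) * (Real.sin s : ℂ)) ((r2 : ℂ) * (Real.cos s : ℂ)) s :=
    (hasDerivAt_csin s).const_mul _
  have h2 : HasDerivAt dd (-(Real.sin s : ℂ) * I) s :=
    ((hasDerivAt_ccos s).mul_const I).const_add 1
  refine (h1.div h2 (dd_ne s)).congr_deriv ?_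
  congr 1
  unfold dd dc
  linear_combination ((r2 : ℂ) * I) * csq s + ((r2 : ℂ) * (Real.cos s : ℂ)) * I_sq

lemma aL_deriv (s : ℝ) : HasDerivAt aL (4 * Real.sin s / (1 + Real.cos s ^ 2)) s := by
  have h1 := (Real.hasDerivAt_cos s).arctan
  have h2 := (h1.const_mul 4).const_sub Real.pi
  refine h2.congr_deriv ?_
  ring

/-- the logarithmic derivative -/
noncomputable def wL (s : ℝ) : ℂ :=
  ((2 * r2 / (1 + Real.cos s ^ 2) : ℝ) : ℂ) * (-(Real.cos s : ℂ) + I)

lemma wL_eq (s : ℝ) : -2 * ((r2 : ℂ) * I * dc s / dd s ^ 2) / (1 - XL s ^ 2) = wL s := by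
  have h1 := dd_ne s
  have h2 := dc_ne s
  have h3 := dd_mul_dc s
  have h4 : ((1 + Real.cos s ^ 2 : ℝ) : ℂ) ≠ 0 := by
    exact_mod_cast (one_add_cos_pos s).ne'
  rw [one_sub_XL_sq]
  unfold wL
  rw [Complex.ofReal_div, ← h3]
  field_simp
  unfold dd
  push_cast
  have h5 := I_sq
  linear_combination (2 * (r2 : ℂ) * Complex.cos s) * h5

lemma wL_re (s : ℝ) : (wL s).re = -(2 * r2 / (1 + Real.cos s ^ 2) * Real.cos s) := by
  unfold wL
  rw [Complex.re_ofReal_mul, Complex.add_re, Complex.neg_re, Complex.ofReal_re, Complex.I_re]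
  ring

lemma wL_im (s : ℝ) : (wL s).im = 2 * r2 / (1 + Real.cos s ^ 2) := by
  unfold wL
  rw [Complex.im_ofReal_mul, Complex.add_im, Complex.neg_im, Complex.ofReal_im, Complex.I_im]
  ring

lemma wL_im_pos (s : ℝ) : 0 < (wL s).im := by
  rw [wL_im]
  have := r2_pos
  have := one_add_cos_pos s
  positivity

lemma XL_zero : XL 0 = 0 := by
  unfold XL
  simp

lemma XL_two_pi : XL (2 * Real.pi) = 0 := by
  unfold XL
  rw [Real.sin_two_pi]
  simp

lemma XL_per (s : ℝ) : XL (s + 2 * Real.pi) = XL s := by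
  unfold XL dd
  rw [Real.sin_add_two_pi, Real.cos_add_two_pi]

lemma aL_per (s : ℝ) : aL (s + 2 * Real.pi) = aL s := by
  unfold aL
  rw [Real.cos_add_two_pi]

lemma aL_zero : aL 0 = 0 := by
  unfold aL
  rw [Real.cos_zero, Real.arctan_one]
  ring

lemma aL_half : aL (Real.pi / 2) = Real.pi := by
  unfold aL
  rw [Real.cos_pi_div_two, Real.arctan_zero]
  ring

lemma aL_nonneg (s : ℝ) : 0 ≤ aL s := by
  unfold aL
  have h := Real.arctan_mono (Real.cos_le_one s)
  rw [Real.arctan_one] at h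
  linarith

lemma aL_le (s : ℝ) : aL s ≤ 2 * Real.pi := by
  unfold aL
  have h := Real.arctan_mono (Real.neg_one_le_cos s)
  rw [Real.arctan_neg, Real.arctan_one] at h
  linarith

lemma dd_contDiff (n : ℕ) : ContDiff ℝ n dd :=
  contDiff_const.add ((Complex.ofRealCLM.contDiff.comp Real.contDiff_cos).mul contDiff_const)

lemma XL_contDiff (n : ℕ) : ContDiff ℝ n XL := by
  have h1 : ContDiff ℝ n fun s : ℝ => (r2 : ℂ) * (Real.sin s : ℂ) :=
    contDiff_const.mul (Complex.ofRealCLM.contDiff.comp Real.contDiff_sin)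
  have h2 : ContDiff ℝ n fun s : ℝ => (dd s)⁻¹ := (dd_contDiff n).inv dd_ne
  have e : XL = fun s : ℝ => (r2 : ℂ) * (Real.sin s : ℂ) * (dd s)⁻¹ := by
    funext s
    unfold XL
    rw [div_eq_mul_inv]
  rw [e]
  exact h1.mul h2

lemma aL_contDiff (n : ℕ) : ContDiff ℝ n aL :=
  contDiff_const.sub (contDiff_const.mul (Real.contDiff_arctan.comp Real.contDiff_cos))

lemma wL_continuous : Continuous wL := by
  unfold wL
  refine (Complex.continuous_ofReal.comp ?_).mul
    ((Complex.continuous_ofReal.comp Real.continuous_cos).neg.add continuous_const)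
  exact continuous_const.div (continuous_const.add (Real.continuous_cos.pow 2))
    fun s => (one_add_cos_pos s).ne'

/-- the real part of the first coordinate -/
lemma XL_re (s : ℝ) : (XL s).re = r2 * Real.sin s / (1 + Real.cos s ^ 2) := by
  have h3 := dd_mul_dc s
  have h1 := dd_ne s
  have h2 := dc_ne s
  have h4 : XL s = ((r2 * Real.sin s / (1 + Real.cos s ^ 2) : ℝ) : ℂ) * dc s := by
    rw [Complex.ofReal_div, ← h3]
    unfold XL
    push_cast
    field_simp
  rw [h4, Complex.re_ofReal_mul]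
  unfold dc
  rw [Complex.sub_re, Complex.one_re, Complex.re_ofReal_mul, Complex.I_re]
  ring

lemma norm_sub_le_of_re {z : ℂ} (h : 0 ≤ z.re) : ‖z - 1‖ ≤ ‖z + 1‖ := by
  rw [Complex.norm_def, Complex.norm_def]
  apply Real.sqrt_le_sqrt
  simp only [Complex.normSq_apply, Complex.sub_re, Complex.sub_im, Complex.add_re, Complex.add_im,
    Complex.one_re, Complex.one_im]
  nlinarith

lemma norm_le_sub_of_re {z : ℂ} (h : z.re ≤ 0) : ‖z + 1‖ ≤ ‖z - 1‖ := by
  rw [Complex.norm_def, Complex.norm_def]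
  apply Real.sqrt_le_sqrt
  simp only [Complex.normSq_apply, Complex.sub_re, Complex.sub_im, Complex.add_re, Complex.add_im,
    Complex.one_re, Complex.one_im]
  nlinarith

lemma XL_ne (s : ℝ) : 1 - XL s ^ 2 ≠ 0 := by
  rw [← exp_aL]
  exact Complex.exp_ne_zero _

/-- the sign of `log |q|` -/
lemma log_qq_sign (s : ℝ) : Real.log ‖qq (XL s)‖ * (4 * Real.sin s / (1 + Real.cos s ^ 2)) ≤ 0 := by
  obtain ⟨n1, n2⟩ := qq_aux (XL_ne s)
  have hp := one_add_cos_pos s
  have h1 : 0 < ‖XL s - 1‖ := norm_pos_iff.2 n1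
  have h2 : 0 < ‖XL s + 1‖ := norm_pos_iff.2 n2
  have hq : Real.log ‖qq (XL s)‖ = Real.log ‖XL s - 1‖ - Real.log ‖XL s + 1‖ := by
    unfold qq
    rw [norm_div, Real.log_div h1.ne' h2.ne']
  rw [hq]
  rcases le_total 0 (Real.sin s) with h | h
  · have hre : 0 ≤ (XL s).re := by
      rw [XL_re]
      have := r2_pos
      positivity
    have h3 := Real.log_le_log h1 (norm_sub_le_of_re hre)
    exact mul_nonpos_of_nonpos_of_nonneg (by linarith) (by positivity)
  · have hre : (XL s).re ≤ 0 := by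
      rw [XL_re]
      have := r2_pos
      exact div_nonpos_of_nonpos_of_nonneg (mul_nonpos_of_nonneg_of_nonpos this.le h) hp.le
    have h3 := Real.log_le_log h2 (norm_le_sub_of_re hre)
    exact mul_nonpos_of_nonneg_of_nonpos (by linarith)
      (div_nonpos_of_nonpos_of_nonneg (by linarith) hp.le)

lemma log_qq_half : Real.log ‖qq (XL (Real.pi / 2))‖ < 0 := by
  have h : XL (Real.pi / 2) = (r2 : ℂ) := by
    unfold XL dd
    rw [Real.sin_pi_div_two, Real.cos_pi_div_two]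
    simp
  have h2 : 1 < r2 := by
    have := r2_sq
    nlinarith [r2_pos]
  have h3 : qq (r2 : ℂ) = (((r2 - 1) / (r2 + 1) : ℝ) : ℂ) := by
    unfold qq
    push_cast
    rfl
  rw [h, h3, Complex.norm_real, Real.norm_of_nonneg (div_nonneg (by linarith) (by linarith))]
  apply Real.log_neg
  · exact div_pos (by linarith) (by linarith)
  · rw [div_lt_one (by linarith)]
    linarith

end Pool.Agent.Helper11.K3H
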