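import Mathlib
import Pool.Agent.Helper11.K3H.Path
import Pool.Agent.Helper12.K3.Est1

/-!
Kernels and the torus.
-/

namespace Pool.Agent.Helper11.K3H

open Complex Set Filter Topology MeasureTheory Pool.Agent.Helper11 Pool.Agent.Helper12.K3

/-- the good arguments -/
def Dm : Set ℂ := {η | 0 < (η ^ 2).re ∨ η = 0}

lemma zero_mem_Dm : (0 : ℂ) ∈ Dm := Or.inr rfl

lemma neg_mem_Dm {η : ℂ} (h : η ∈ Dm) : -η ∈ Dm := by
  rcases h with h | h
  · left
    rwa [neg_sq]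
  · right
    rw [h, neg_zero]

lemma smul_mem_Dm {η : ℂ} (h : η ∈ Dm) (c : ℝ) : (c : ℂ) * η ∈ Dm := by
  rcases eq_or_ne c 0 with hc | hc
  · right
    rw [hc]
    simp
  rcases h with h | h
  · left
    rw [mul_pow, ← Complex.ofReal_pow, Complex.re_ofReal_mul]
    exact mul_pos (by positivity) h
  · right
    rw [h, mul_zero]

/-- the function `(z - 1) / z` -/
noncomputable def uq (z : ℂ) : ℂ := (z - 1) / z

lemma uq_ne {z : ℂ} (h0 : z ≠ 0) (h1 : z ≠ 1) : uq z ≠ 0 :=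
  div_ne_zero (sub_ne_zero.2 h1) h0

/-- a coordinate function and its kernel -/
structure Ker (zf K : ℂ → ℂ) : Prop where
  an : ∀ η ∈ Dm, AnalyticAt ℂ zf η
  anK : ∀ η ∈ Dm, AnalyticAt ℂ K η
  ne0 : ∀ η ∈ Dm, zf η ≠ 0
  ne1 : ∀ η ∈ Dm, zf η ≠ 1
  der : ∀ η ∈ Dm, HasDerivAt zf (2 * I * K η * (zf η * (1 - zf η))) η
  ev : ∀ x : ℝ, ‖uq (zf (-(x : ℂ)))‖ = ‖uq (zf x)‖

namespace Ker

variable {zf K : ℂ → ℂ} (h : Ker zf K)

include h

lemma uq_ne {η : ℂ} (hη : η ∈ Dm) : uq (zf η) ≠ 0 := K3H.uq_ne (h.ne0 η hη) (h.ne1 η hη)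

lemma uq_an {η : ℂ} (hη : η ∈ Dm) : AnalyticAt ℂ (fun η => uq (zf η)) η :=
  ((h.an η hη).sub analyticAt_const).div (h.an η hη) (h.ne0 η hη)

lemma uq_deriv {g : ℝ → ℂ} {d : ℂ} {x : ℝ} (hg : HasDerivAt g d x) (hm : g x ∈ Dm) :
    HasDerivAt (fun x => uq (zf (g x))) (-(2 * I) * K (g x) * d * uq (zf (g x))) x := by
  have h0 := h.ne0 _ hm
  have h1 : HasDerivAt (fun x => zf (g x)) (2 * I * K (g x) * (zf (g x) * (1 - zf (g x))) * d) x :=
    HasDerivAt.comp (h₂ := zf) x (h.der _ hm) hg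
  have h2 := (h1.sub_const 1).div h1 h0
  refine h2.congr_deriv ?_
  unfold uq
  field_simp
  ring

end Ker

variable {Λ : ℝ} {e : ℝ}

/-- the complement -/
noncomputable def FL (Λ e s : ℝ) : ℂ := (Λ : ℂ) - (e * aL s : ℝ) * I

lemma FL_re (Λ e s : ℝ) : (FL Λ e s).re = Λ := by
  unfold FL
  rw [Complex.sub_re, Complex.ofReal_re, Complex.re_ofReal_mul, Complex.I_re]
  ring

lemma FL_im (Λ e s : ℝ) : (FL Λ e s).im = -(e * aL s) := by
  unfold FL
  rw [Complex.sub_im, Complex.ofReal_im, Complex.im_ofReal_mul, Complex.I_im]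
  ring

lemma FL_per (Λ e s : ℝ) : FL Λ e (s + 2 * Real.pi) = FL Λ e s := by
  unfold FL
  rw [aL_per]

lemma FL_zero (Λ e : ℝ) : FL Λ e 0 = (Λ : ℂ) := by
  unfold FL
  rw [aL_zero]
  simp

/-- the derivative of the angle -/
noncomputable def daL (s : ℝ) : ℝ := 4 * Real.sin s / (1 + Real.cos s ^ 2)

lemma daL_continuous : Continuous daL :=
  (continuous_const.mul Real.continuous_sin).div
    (continuous_const.add (Real.continuous_cos.pow 2)) fun s => (one_add_cos_pos s).ne'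

/-- the derivative of the complement -/
noncomputable def dFL (e s : ℝ) : ℂ := -((e * daL s : ℝ) * I)

lemma FL_deriv (Λ e s : ℝ) : HasDerivAt (FL Λ e) (dFL e s) s := by
  have h1 := (((aL_deriv s).const_mul e).ofReal_comp.mul_const I).const_sub (Λ : ℂ)
  exact h1

lemma dFL_continuous (e : ℝ) : Continuous (dFL e) :=
  ((Complex.continuous_ofReal.comp (continuous_const.mul daL_continuous)).mul
    continuous_const).neg

lemma FL_contDiff (Λ e : ℝ) (n : ℕ) : ContDiff ℝ n (FL Λ e) :=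
  contDiff_const.sub ((Complex.ofRealCLM.contDiff.comp (contDiff_const.mul (aL_contDiff n))).mul
    contDiff_const)

lemma FL_mem (hΛ : 0 < Λ) (e s : ℝ) : FL Λ e s ∈ slitPlane := by
  apply mem_slit_of_re
  rw [FL_re]
  exact hΛ

/-- the square root of the complement -/
noncomputable def pL (Λ e s : ℝ) : ℂ := rt (FL Λ e s)

lemma pL_sq (Λ e s : ℝ) : pL Λ e s ^ 2 = FL Λ e s := rt_sq _

lemma pL_contDiff (hΛ : 0 < Λ) (e : ℝ) (n : ℕ) : ContDiff ℝ n (pL Λ e) := by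
  rw [contDiff_iff_contDiffAt]
  intro s
  exact ContDiffAt.comp (g := rt) s (rt_contDiffAt (FL_mem hΛ e s) n) (FL_contDiff Λ e n).contDiffAt

lemma pL_per (Λ e s : ℝ) : pL Λ e (s + 2 * Real.pi) = pL Λ e s := by
  unfold pL
  rw [FL_per]

/-- the derivative of `pL` -/
noncomputable def dpL (Λ e s : ℝ) : ℂ := deriv (pL Λ e) s

lemma pL_deriv (hΛ : 0 < Λ) (e s : ℝ) : HasDerivAt (pL Λ e) (dpL Λ e s) s :=
  ((pL_contDiff hΛ e 1).differentiable (by norm_num) s).hasDerivAt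

lemma dpL_continuous (hΛ : 0 < Λ) (e : ℝ) : Continuous (dpL Λ e) :=
  (pL_contDiff hΛ e 1).continuous_deriv (by norm_num)

lemma two_pL_dpL (hΛ : 0 < Λ) (e s : ℝ) : 2 * pL Λ e s * dpL Λ e s = dFL e s := by
  have h1 := (pL_deriv hΛ e s).pow 2
  have h2 : (pL Λ e) ^ 2 = FL Λ e := by
    funext s
    exact pL_sq Λ e s
  rw [h2] at h1
  have h3 := h1.unique (FL_deriv Λ e s)
  rw [← h3]
  simp only [Nat.cast_ofNat, Nat.add_one_sub_one, pow_one]

lemma rt_mem_Dm {F : ℂ} (hF : 0 < F.re) (c : ℝ) : rt F * (c : ℂ) ∈ Dm := by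
  rw [mul_comm]
  refine smul_mem_Dm (Or.inl ?_) c
  rw [rt_sq]
  exact hF

lemma good (hΛ : 0 < Λ) (e s c : ℝ) : pL Λ e s * (c : ℂ) ∈ Dm :=
  rt_mem_Dm (by rw [FL_re]; exact hΛ) c

section

variable (z1 K1 z2 K2 : ℂ → ℂ)

/-- the functions -/
noncomputable def V0 (s : ℝ) : ℂ := qq (XL s)

noncomputable def V1 (Λ e s t : ℝ) : ℂ := uq (z1 (pL Λ e s * (Real.cos t : ℂ)))

noncomputable def V2 (Λ e s t : ℝ) : ℂ := uq (z2 (pL Λ e s * (Real.sin t : ℂ)))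

/-- the logarithmic derivatives -/
noncomputable def P1 (Λ e s t : ℝ) : ℂ :=
  -(2 * I) * K1 (pL Λ e s * (Real.cos t : ℂ)) * (dpL Λ e s * (Real.cos t : ℂ))

noncomputable def Q1 (Λ e s t : ℝ) : ℂ :=
  2 * I * K1 (pL Λ e s * (Real.cos t : ℂ)) * (pL Λ e s * (Real.sin t : ℂ))

noncomputable def P2 (Λ e s t : ℝ) : ℂ :=
  -(2 * I) * K2 (pL Λ e s * (Real.sin t : ℂ)) * (dpL Λ e s * (Real.sin t : ℂ))

noncomputable def Q2 (Λ e s t : ℝ) : ℂ :=
  -(2 * I) * K2 (pL Λ e s * (Real.sin t : ℂ)) * (pL Λ e s * (Real.cos t : ℂ))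

noncomputable def R1 (Λ e s t : ℝ) : ℂ :=
  2 * I * (deriv K1 (pL Λ e s * (Real.cos t : ℂ)) * (dpL Λ e s * (Real.cos t : ℂ)) *
    (pL Λ e s * (Real.sin t : ℂ)) +
    K1 (pL Λ e s * (Real.cos t : ℂ)) * (dpL Λ e s * (Real.sin t : ℂ)))

noncomputable def R2 (Λ e s t : ℝ) : ℂ :=
  -(2 * I) * (deriv K2 (pL Λ e s * (Real.sin t : ℂ)) * (dpL Λ e s * (Real.sin t : ℂ)) *
    (pL Λ e s * (Real.cos t : ℂ)) +
    K2 (pL Λ e s * (Real.sin t : ℂ)) * (dpL Λ e s * (Real.cos t : ℂ)))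

end

section

variable (hΛ : 0 < Λ) (e)

include hΛ

lemma lc_cos : Continuous fun p : ℝ × ℝ => pL Λ e p.1 * (Real.cos p.2 : ℂ) :=
  ((pL_contDiff hΛ e 1).continuous.comp continuous_fst).mul
    (Complex.continuous_ofReal.comp (Real.continuous_cos.comp continuous_snd))

lemma lc_sin : Continuous fun p : ℝ × ℝ => pL Λ e p.1 * (Real.sin p.2 : ℂ) :=
  ((pL_contDiff hΛ e 1).continuous.comp continuous_fst).mul
    (Complex.continuous_ofReal.comp (Real.continuous_sin.comp continuous_snd))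

lemma lcd_cos : Continuous fun p : ℝ × ℝ => dpL Λ e p.1 * (Real.cos p.2 : ℂ) :=
  ((dpL_continuous hΛ e).comp continuous_fst).mul
    (Complex.continuous_ofReal.comp (Real.continuous_cos.comp continuous_snd))

lemma lcd_sin : Continuous fun p : ℝ × ℝ => dpL Λ e p.1 * (Real.sin p.2 : ℂ) :=
  ((dpL_continuous hΛ e).comp continuous_fst).mul
    (Complex.continuous_ofReal.comp (Real.continuous_sin.comp continuous_snd))

variable {K : ℂ → ℂ} (hK : ∀ η ∈ Dm, AnalyticAt ℂ K η)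

include hK

lemma lcK_cos : Continuous fun p : ℝ × ℝ => K (pL Λ e p.1 * (Real.cos p.2 : ℂ)) := by
  rw [continuous_iff_continuousAt]
  intro p
  exact ContinuousAt.comp (g := K) (f := fun p : ℝ × ℝ => pL Λ e p.1 * (Real.cos p.2 : ℂ))
    (hK _ (good hΛ e p.1 _)).continuousAt (lc_cos e hΛ).continuousAt

lemma lcK_sin : Continuous fun p : ℝ × ℝ => K (pL Λ e p.1 * (Real.sin p.2 : ℂ)) := by
  rw [continuous_iff_continuousAt]
  intro p
  exact ContinuousAt.comp (g := K) (f := fun p : ℝ × ℝ => pL Λ e p.1 * (Real.sin p.2 : ℂ))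
    (hK _ (good hΛ e p.1 _)).continuousAt (lc_sin e hΛ).continuousAt

end

lemma eta_cos_s (hΛ : 0 < Λ) (e s t : ℝ) :
    HasDerivAt (fun s => pL Λ e s * (Real.cos t : ℂ)) (dpL Λ e s * (Real.cos t : ℂ)) s :=
  (pL_deriv hΛ e s).mul_const _

lemma eta_sin_s (hΛ : 0 < Λ) (e s t : ℝ) :
    HasDerivAt (fun s => pL Λ e s * (Real.sin t : ℂ)) (dpL Λ e s * (Real.sin t : ℂ)) s :=
  (pL_deriv hΛ e s).mul_const _

lemma eta_cos_t (Λ e s t : ℝ) :
    HasDerivAt (fun t : ℝ => pL Λ e s * (Real.cos t : ℂ)) (pL Λ e s * (-(Real.sin t : ℂ))) t :=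
  (hasDerivAt_ccos t).const_mul _

lemma eta_sin_t (Λ e s t : ℝ) :
    HasDerivAt (fun t : ℝ => pL Λ e s * (Real.sin t : ℂ)) (pL Λ e s * (Real.cos t : ℂ)) t :=
  (hasDerivAt_csin t).const_mul _

lemma K_comp {K : ℂ → ℂ} (hK : ∀ η ∈ Dm, AnalyticAt ℂ K η) {g : ℝ → ℂ} {d : ℂ} {x : ℝ}
    (hg : HasDerivAt g d x) (hm : g x ∈ Dm) :
    HasDerivAt (fun x => K (g x)) (deriv K (g x) * d) x :=
  HasDerivAt.comp (h₂ := K) x (hK _ hm).differentiableAt.hasDerivAt hg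

lemma perV (f : ℝ → ℝ → ℂ) (h0 : ∀ s t, f (s + 2 * Real.pi) t = f s t)
    (h1 : ∀ s t, f s (t + 2 * Real.pi) = f s t) (m : Fin 2) (θ : Fin 2 → ℝ) :
    f ((θ + Pi.single m (2 * Real.pi) : Fin 2 → ℝ) 0)
      ((θ + Pi.single m (2 * Real.pi) : Fin 2 → ℝ) 1) = f (θ 0) (θ 1) := by
  rw [add_single_ite, add_single_ite]
  split_ifs <;> simp only [h0, h1, add_zero]

lemma smooth_comp {f : ℂ → ℂ} (hf : ∀ η ∈ Dm, AnalyticAt ℂ f η) {g : (Fin 2 → ℝ) → ℂ}
    (hg : ContDiff ℝ 2 g) (hm : ∀ θ, g θ ∈ Dm) : ContDiff ℝ 2 fun θ => f (g θ) := by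
  rw [contDiff_iff_contDiffAt]
  intro θ
  exact ContDiffAt.comp (g := f) θ
    (((hf _ (hm θ)).contDiffAt (n := 2)).restrict_scalars ℝ) hg.contDiffAt

lemma sm_cos (hΛ : 0 < Λ) (e : ℝ) :
    ContDiff ℝ 2 fun θ : Fin 2 → ℝ => pL Λ e (θ 0) * (Real.cos (θ 1) : ℂ) :=
  ((pL_contDiff hΛ e 2).comp (contDiff_apply ℝ ℝ 0)).mul
    (Complex.ofRealCLM.contDiff.comp (Real.contDiff_cos.comp (contDiff_apply ℝ ℝ 1)))

lemma sm_sin (hΛ : 0 < Λ) (e : ℝ) :
    ContDiff ℝ 2 fun θ : Fin 2 → ℝ => pL Λ e (θ 0) * (Real.sin (θ 1) : ℂ) :=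
  ((pL_contDiff hΛ e 2).comp (contDiff_apply ℝ ℝ 0)).mul
    (Complex.ofRealCLM.contDiff.comp (Real.contDiff_sin.comp (contDiff_apply ℝ ℝ 1)))

lemma smXL : ContDiff ℝ 2 fun θ : Fin 2 → ℝ => XL (θ 0) :=
  (XL_contDiff 2).comp (contDiff_apply ℝ ℝ 0)

theorem dataL {z1 K1 z2 K2 : ℂ → ℂ} (h1 : Ker z1 K1) (h2 : Ker z2 K2) (hΛ : 0 < Λ) (e : ℝ) :
    Data2 V0 (V1 z1 Λ e) (V2 z2 Λ e) wL (P1 K1 Λ e) (P2 K2 Λ e) (Q1 K1 Λ e) (Q2 K2 Λ e)
      (R1 K1 Λ e) (R2 K2 Λ e) where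
  tu := by
    intro j
    fin_cases j
    · exact ⟨qq_contDiff smXL fun _ => XL_ne _,
        fun m θ => perV (fun s _ => V0 s) (fun s _ => congrArg qq (XL_per s)) (fun _ _ => rfl) m θ,
        fun θ => qq_ne (XL_ne _)⟩
    · refine ⟨smooth_comp (f := fun η => uq (z1 η)) (fun η hη => h1.uq_an hη) (sm_cos hΛ e)
        (fun θ => good hΛ e _ _), fun m θ => perV (V1 z1 Λ e) ?_ ?_ m θ,
        fun θ => h1.uq_ne (good hΛ e _ _)⟩
      · intro s t
        unfold V1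
        rw [pL_per]
      · intro s t
        unfold V1
        rw [Real.cos_add_two_pi]
    · refine ⟨smooth_comp (f := fun η => uq (z2 η)) (fun η hη => h2.uq_an hη) (sm_sin hΛ e)
        (fun θ => good hΛ e _ _), fun m θ => perV (V2 z2 Λ e) ?_ ?_ m θ,
        fun θ => h2.uq_ne (good hΛ e _ _)⟩
      · intro s t
        unfold V2
        rw [pL_per]
      · intro s t
        unfold V2
        rw [Real.sin_add_two_pi]
  d0 := fun s => by
    have h := qq_deriv (XL_deriv s) (XL_ne s)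
    rw [wL_eq] at h
    exact h
  d1s := fun s t => by
    refine (h1.uq_deriv (eta_cos_s hΛ e s t) (good hΛ e s _)).congr_deriv ?_
    rfl
  d1t := fun s t => by
    refine (h1.uq_deriv (eta_cos_t Λ e s t) (good hΛ e s _)).congr_deriv ?_
    unfold Q1 V1
    ring
  d2s := fun s t => by
    refine (h2.uq_deriv (eta_sin_s hΛ e s t) (good hΛ e s _)).congr_deriv ?_
    rfl
  d2t := fun s t => by
    refine (h2.uq_deriv (eta_sin_t Λ e s t) (good hΛ e s _)).congr_deriv ?_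
    rfl
  ca0 := wL_continuous
  ca1 := (continuous_const.mul (lcK_cos e hΛ h1.anK)).mul (lcd_cos e hΛ)
  ca2 := (continuous_const.mul (lcK_sin e hΛ h2.anK)).mul (lcd_sin e hΛ)
  cb1 := (continuous_const.mul (lcK_cos e hΛ h1.anK)).mul (lc_sin e hΛ)
  cb2 := (continuous_const.mul (lcK_sin e hΛ h2.anK)).mul (lc_cos e hΛ)
  b1s := fun s t => by
    have h := ((K_comp h1.anK (eta_cos_s hΛ e s t) (good hΛ e s _)).const_mul (2 * I)).mul
      (eta_sin_s hΛ e s t)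
    refine h.congr_deriv ?_
    unfold R1
    ring
  b2s := fun s t => by
    have h := ((K_comp h2.anK (eta_sin_s hΛ e s t) (good hΛ e s _)).const_mul (-(2 * I))).mul
      (eta_cos_s hΛ e s t)
    refine h.congr_deriv ?_
    unfold R2
    ring
  a1t := fun s t => by
    have h := ((K_comp h1.anK (eta_cos_t Λ e s t) (good hΛ e s _)).const_mul (-(2 * I))).mul
      ((hasDerivAt_ccos t).const_mul (dpL Λ e s))
    refine h.congr_deriv ?_
    unfold R1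
    ring
  a2t := fun s t => by
    have h := ((K_comp h2.anK (eta_sin_t Λ e s t) (good hΛ e s _)).const_mul (-(2 * I))).mul
      ((hasDerivAt_csin t).const_mul (dpL Λ e s))
    refine h.congr_deriv ?_
    unfold R2
    ring
  a1p := fun s t => by
    unfold P1
    rw [Real.cos_add_two_pi]
  a2p := fun s t => by
    unfold P2
    rw [Real.sin_add_two_pi]
  cm1 := continuous_const.mul
    ((((lcK_cos e hΛ (fun η hη => (h1.anK η hη).deriv)).mul (lcd_cos e hΛ)).mul (lc_sin e hΛ)).add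
    ((lcK_cos e hΛ h1.anK).mul (lcd_sin e hΛ)))
  cm2 := continuous_const.mul
    ((((lcK_sin e hΛ (fun η hη => (h2.anK η hη).deriv)).mul (lcd_sin e hΛ)).mul (lc_cos e hΛ)).add
    ((lcK_sin e hΛ h2.anK).mul (lcd_cos e hΛ)))

end Pool.Agent.Helper11.K3H
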