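import Mathlib
import Pool.Agent.Helper11.K3H.Ker

/-!
The period of the fibre.
-/

namespace Pool.Agent.Helper11.K3H

open Complex Set Filter Topology MeasureTheory Pool.Agent.Helper11 Pool.Agent.Helper12.K3

/-- the even part of a kernel -/
noncomputable def Kev (K : ℂ → ℂ) (η : ℂ) : ℂ := (K η + K (-η)) / 2

lemma Kev_neg (K : ℂ → ℂ) (η : ℂ) : Kev K (-η) = Kev K η := by
  unfold Kev
  rw [neg_neg, add_comm]

lemma Kev_an {K : ℂ → ℂ} (hK : ∀ η ∈ Dm, AnalyticAt ℂ K η) {η : ℂ} (hη : η ∈ Dm) :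
    AnalyticAt ℂ (Kev K) η := by
  have h1 := hK η hη
  have h2 : AnalyticAt ℂ (fun η => K (-η)) η :=
    AnalyticAt.comp (g := K) (f := fun η : ℂ => -η) (hK _ (neg_mem_Dm hη)) analyticAt_id.neg
  exact (h1.add h2).div_const

/-- the integrand -/
noncomputable def ff (K1 K2 : ℂ → ℂ) (F : ℂ) (t : ℝ) : ℂ :=
  2 * (Kev K1 (rt F * (Real.cos t : ℂ)) * Kev K2 (rt F * (Real.sin t : ℂ)))

/-- the period -/
noncomputable def hL (K1 K2 : ℂ → ℂ) (F : ℂ) : ℂ := ∫ t in (0 : ℝ)..(2 * Real.pi), ff K1 K2 F t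

/-! ### symmetries of integrals over the circle -/

lemma circ_sin (A B : ℝ → ℂ) :
    ∫ t in (0 : ℝ)..(2 * Real.pi), A (Real.cos t) * B (-Real.sin t) =
      ∫ t in (0 : ℝ)..(2 * Real.pi), A (Real.cos t) * B (Real.sin t) := by
  have h := intervalIntegral.integral_comp_sub_left (a := 0) (b := 2 * Real.pi)
    (fun t => A (Real.cos t) * B (Real.sin t)) (2 * Real.pi)
  rw [sub_zero, sub_self] at h
  rw [← h]
  refine intervalIntegral.integral_congr fun t _ => ?_
  simp only [Real.cos_two_pi_sub, Real.sin_two_pi_sub]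

lemma circ_both (A B : ℝ → ℂ) :
    ∫ t in (0 : ℝ)..(2 * Real.pi), A (-Real.cos t) * B (-Real.sin t) =
      ∫ t in (0 : ℝ)..(2 * Real.pi), A (Real.cos t) * B (Real.sin t) := by
  have hp : Function.Periodic (fun t => A (Real.cos t) * B (Real.sin t)) (2 * Real.pi) := by
    intro t
    simp only [Real.cos_add_two_pi, Real.sin_add_two_pi]
  have h := hp.intervalIntegral_add_eq Real.pi 0
  have h2 := intervalIntegral.integral_comp_add_right (a := 0) (b := 2 * Real.pi)
    (fun t => A (Real.cos t) * B (Real.sin t)) Real.pi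
  rw [zero_add] at h2 h
  rw [add_comm (2 * Real.pi) Real.pi, h] at h2
  rw [← h2]
  refine intervalIntegral.integral_congr fun t _ => ?_
  simp only [Real.cos_add_pi, Real.sin_add_pi]

lemma circ_cos (A B : ℝ → ℂ) :
    ∫ t in (0 : ℝ)..(2 * Real.pi), A (-Real.cos t) * B (Real.sin t) =
      ∫ t in (0 : ℝ)..(2 * Real.pi), A (Real.cos t) * B (Real.sin t) := by
  rw [← circ_both A B]
  exact (circ_sin (fun c => A (-c)) B).symm

lemma circ_odd_sin {A B : ℝ → ℂ} (hB : ∀ s, B (-s) = -B s) :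
    ∫ t in (0 : ℝ)..(2 * Real.pi), A (Real.cos t) * B (Real.sin t) = 0 := by
  have h := circ_sin A B
  simp only [hB, mul_neg] at h
  rw [intervalIntegral.integral_neg] at h
  have h2 : (2 : ℂ) * ∫ t in (0 : ℝ)..(2 * Real.pi), A (Real.cos t) * B (Real.sin t) = 0 := by
    linear_combination -h
  simpa using h2

lemma circ_odd_cos {A B : ℝ → ℂ} (hA : ∀ s, A (-s) = -A s) :
    ∫ t in (0 : ℝ)..(2 * Real.pi), A (Real.cos t) * B (Real.sin t) = 0 := by
  have h := circ_cos A B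
  simp only [hA, neg_mul] at h
  rw [intervalIntegral.integral_neg] at h
  have h2 : (2 : ℂ) * ∫ t in (0 : ℝ)..(2 * Real.pi), A (Real.cos t) * B (Real.sin t) = 0 := by
    linear_combination -h
  simpa using h2

/-! ### continuity -/

section cont

variable {K1 K2 : ℂ → ℂ} (h1 : ∀ η ∈ Dm, AnalyticAt ℂ K1 η) (h2 : ∀ η ∈ Dm, AnalyticAt ℂ K2 η)

lemma cont_comp {K : ℂ → ℂ} (h : ∀ η ∈ Dm, AnalyticAt ℂ K η) {X : Type*} [TopologicalSpace X]
    {g : X → ℂ} (hg : Continuous g) (hm : ∀ x, g x ∈ Dm) : Continuous fun x => K (g x) := by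
  rw [continuous_iff_continuousAt]
  intro x
  exact ContinuousAt.comp (g := K) (f := g) (h _ (hm x)).continuousAt hg.continuousAt

lemma cont_rt {X : Type*} [TopologicalSpace X] {F : X → ℂ} (hF : Continuous F)
    (hre : ∀ x, 0 < (F x).re) : Continuous fun x => rt (F x) := by
  rw [continuous_iff_continuousAt]
  intro x
  exact ContinuousAt.comp (g := rt) (f := F) (rt_analyticAt (mem_slit_of_re (hre x))).continuousAt
    hF.continuousAt

include h1 h2

lemma continuous_ff {X : Type*} [TopologicalSpace X] {F : X → ℂ} (hF : Continuous F)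
    (hre : ∀ x, 0 < (F x).re) : Continuous fun p : X × ℝ => ff K1 K2 (F p.1) p.2 := by
  have hr : Continuous fun p : X × ℝ => rt (F p.1) :=
    cont_rt (hF.comp continuous_fst) fun p => hre p.1
  have hc : Continuous fun p : X × ℝ => rt (F p.1) * (Real.cos p.2 : ℂ) :=
    hr.mul (Complex.continuous_ofReal.comp (Real.continuous_cos.comp continuous_snd))
  have hs : Continuous fun p : X × ℝ => rt (F p.1) * (Real.sin p.2 : ℂ) :=
    hr.mul (Complex.continuous_ofReal.comp (Real.continuous_sin.comp continuous_snd))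
  exact continuous_const.mul ((cont_comp (fun η hη => Kev_an h1 hη) hc
    (fun p => rt_mem_Dm (hre p.1) _)).mul (cont_comp (fun η hη => Kev_an h2 hη) hs
    (fun p => rt_mem_Dm (hre p.1) _)))

lemma continuous_ff' {F : ℂ} (hF : 0 < F.re) : Continuous (ff K1 K2 F) := by
  have h : Continuous fun p : ℝ × ℝ => ff K1 K2 ((fun _ : ℝ => F) p.1) p.2 :=
    continuous_ff h1 h2 (X := ℝ) (F := fun _ => F) continuous_const (fun _ => hF)
  have h2 : Continuous fun t : ℝ => ((0 : ℝ), t) := by fun_prop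
  have h3 := h.comp h2
  have h4 : ((fun p : ℝ × ℝ => ff K1 K2 ((fun _ : ℝ => F) p.1) p.2) ∘
      fun t : ℝ => ((0 : ℝ), t)) = ff K1 K2 F := by
    funext t
    rfl
  rw [h4] at h3
  exact h3

lemma continuous_hL {X : Type*} [TopologicalSpace X] [FirstCountableTopology X]
    [LocallyCompactSpace X] {F : X → ℂ} (hF : Continuous F) (hre : ∀ x, 0 < (F x).re) :
    Continuous fun x => hL K1 K2 (F x) :=
  intervalIntegral.continuous_parametric_intervalIntegral_of_continuous' (μ := volume)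
    (f := fun (x : X) (t : ℝ) => ff K1 K2 (F x) t) (continuous_ff h1 h2 hF hre) 0 (2 * Real.pi)

lemma ff_differentiableAt {F : ℂ} (hF : 0 < F.re) (t : ℝ) :
    DifferentiableAt ℂ (fun F => ff K1 K2 F t) F := by
  have hr := (rt_analyticAt (mem_slit_of_re hF)).differentiableAt
  have hc : DifferentiableAt ℂ (fun F => Kev K1 (rt F * (Real.cos t : ℂ))) F :=
    DifferentiableAt.comp (g := Kev K1) F (Kev_an h1 (rt_mem_Dm hF _)).differentiableAt
      (hr.mul_const _)
  have hs : DifferentiableAt ℂ (fun F => Kev K2 (rt F * (Real.sin t : ℂ))) F :=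
    DifferentiableAt.comp (g := Kev K2) F (Kev_an h2 (rt_mem_Dm hF _)).differentiableAt
      (hr.mul_const _)
  exact (hc.mul hs).const_mul 2

/-- the integral of the product of the kernels -/
lemma int_KK {p : ℂ} (hp : ∀ c : ℝ, p * (c : ℂ) ∈ Dm) :
    ∫ t in (0 : ℝ)..(2 * Real.pi), K1 (p * (Real.cos t : ℂ)) * K2 (p * (Real.sin t : ℂ)) =
      ∫ t in (0 : ℝ)..(2 * Real.pi), Kev K1 (p * (Real.cos t : ℂ)) *
        Kev K2 (p * (Real.sin t : ℂ)) := by
  set A : ℝ → ℂ := fun c => K1 (p * (c : ℂ)) with hA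
  set B : ℝ → ℂ := fun c => K2 (p * (c : ℂ)) with hB
  have e1 := circ_sin A B
  have e2 := circ_both A B
  have e3 := circ_cos A B
  have hpc : Continuous fun t : ℝ => p * (Real.cos t : ℂ) :=
    continuous_const.mul (Complex.continuous_ofReal.comp Real.continuous_cos)
  have hps : Continuous fun t : ℝ => p * (Real.sin t : ℂ) :=
    continuous_const.mul (Complex.continuous_ofReal.comp Real.continuous_sin)
  have cA : Continuous fun t : ℝ => A (Real.cos t) := cont_comp h1 hpc fun t => hp _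
  have cB : Continuous fun t : ℝ => B (Real.sin t) := cont_comp h2 hps fun t => hp _
  have cA' : Continuous fun t : ℝ => A (-Real.cos t) := by
    have : (fun t : ℝ => A (-Real.cos t)) = fun t => K1 (-(p * (Real.cos t : ℂ))) := by
      funext t
      simp [hA]
    rw [this]
    exact cont_comp h1 hpc.neg fun t => neg_mem_Dm (hp _)
  have cB' : Continuous fun t : ℝ => B (-Real.sin t) := by
    have : (fun t : ℝ => B (-Real.sin t)) = fun t => K2 (-(p * (Real.sin t : ℂ))) := by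
      funext t
      simp [hB]
    rw [this]
    exact cont_comp h2 hps.neg fun t => neg_mem_Dm (hp _)
  have i1 : IntervalIntegrable (fun t => A (Real.cos t) * B (Real.sin t)) volume 0 (2 * Real.pi) :=
    (cA.mul cB).intervalIntegrable _ _
  have i2 : IntervalIntegrable (fun t => A (Real.cos t) * B (-Real.sin t)) volume 0
    (2 * Real.pi) := (cA.mul cB').intervalIntegrable _ _
  have i3 : IntervalIntegrable (fun t => A (-Real.cos t) * B (Real.sin t)) volume 0
    (2 * Real.pi) := (cA'.mul cB).intervalIntegrable _ _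
  have i4 : IntervalIntegrable (fun t => A (-Real.cos t) * B (-Real.sin t)) volume 0
    (2 * Real.pi) := (cA'.mul cB').intervalIntegrable _ _
  have e4 : ∀ t : ℝ, Kev K1 (p * (Real.cos t : ℂ)) * Kev K2 (p * (Real.sin t : ℂ)) =
      (1 / 4) * (A (Real.cos t) * B (Real.sin t) + A (Real.cos t) * B (-Real.sin t) +
        A (-Real.cos t) * B (Real.sin t) + A (-Real.cos t) * B (-Real.sin t)) := by
    intro t
    simp only [hA, hB, Kev]
    push_cast
    rw [mul_neg, mul_neg]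
    ring
  simp only [e4]
  rw [intervalIntegral.integral_const_mul, intervalIntegral.integral_add ((i1.add i2).add i3) i4,
    intervalIntegral.integral_add (i1.add i2) i3, intervalIntegral.integral_add i1 i2, e1, e2, e3]
  ring

end cont

section reg

variable {z1 K1 z2 K2 : ℂ → ℂ} (h1 : Ker z1 K1) (h2 : Ker z2 K2) {Λ : ℝ} (hΛ : 0 < Λ) (e : ℝ)

include hΛ

omit h1 h2 in
lemma Jf_eq' (K1 K2 : ℂ → ℂ) (s t : ℝ) :
    Jf (P1 K1 Λ e) (P2 K2 Λ e) (Q1 K1 Λ e) (Q2 K2 Λ e) s t =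
      -(dFL e s * (2 * (K1 (pL Λ e s * (Real.cos t : ℂ)) * K2 (pL Λ e s * (Real.sin t : ℂ))))) := by
  unfold Jf P1 P2 Q1 Q2
  rw [← two_pL_dpL hΛ]
  have h1 := csq t
  have hI := I_sq
  generalize K1 (pL Λ e s * (Real.cos t : ℂ)) = k1
  generalize K2 (pL Λ e s * (Real.sin t : ℂ)) = k2
  linear_combination (4 * k1 * k2 * pL Λ e s * dpL Λ e s * ((Real.cos t : ℂ) ^ 2 +
    (Real.sin t : ℂ) ^ 2)) * hI - (4 * k1 * k2 * pL Λ e s * dpL Λ e s) * h1

include h1 h2

lemma int_Jf' (s : ℝ) :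
    -∫ t in (0 : ℝ)..(2 * Real.pi), Jf (P1 K1 Λ e) (P2 K2 Λ e) (Q1 K1 Λ e) (Q2 K2 Λ e) s t =
      dFL e s * hL K1 K2 (FL Λ e s) := by
  simp only [Jf_eq' hΛ e K1 K2]
  rw [intervalIntegral.integral_neg, neg_neg, intervalIntegral.integral_const_mul,
    intervalIntegral.integral_const_mul, int_KK h1.anK h2.anK (good hΛ e s)]
  unfold hL ff
  rw [intervalIntegral.integral_const_mul]
  rfl

omit h1 h2 in
lemma pL_zero : pL Λ e 0 = ((Real.sqrt Λ : ℝ) : ℂ) := by
  unfold pL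
  rw [FL_zero, rt_ofReal hΛ.le]

lemma Kf_int_zero :
    ∫ t in (0 : ℝ)..(2 * Real.pi), Kf (V1 z1 Λ e) (V2 z2 Λ e) (Q1 K1 Λ e) (Q2 K2 Λ e) 0 t = 0 := by
  have D := dataL h1 h2 hΛ e
  have c1 : Continuous fun t => (Real.log ‖V1 z1 Λ e 0 t‖ : ℂ) * Q2 K2 Λ e 0 t :=
    (Data2.cfix (f := fun s t => (Real.log ‖V1 z1 Λ e s t‖ : ℂ)) D.cc1 0).mul
    (Data2.cfix D.cb2 0)
  have c2 : Continuous fun t => (Real.log ‖V2 z2 Λ e 0 t‖ : ℂ) * Q1 K1 Λ e 0 t :=
    (Data2.cfix (f := fun s t => (Real.log ‖V2 z2 Λ e s t‖ : ℂ)) D.cc2 0).mul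
    (Data2.cfix D.cb1 0)
  unfold Kf
  rw [intervalIntegral.integral_sub (c1.intervalIntegrable _ _) (c2.intervalIntegrable _ _)]
  have hp := pL_zero (Λ := Λ) hΛ e
  set q : ℝ := Real.sqrt Λ
  have e1 : ∫ t in (0 : ℝ)..(2 * Real.pi), (Real.log ‖V1 z1 Λ e 0 t‖ : ℂ) * Q2 K2 Λ e 0 t = 0 := by
    have h := circ_odd_cos
      (A := fun c : ℝ => (Real.log ‖uq (z1 ((q * c : ℝ) : ℂ))‖ : ℂ) * ((q * c : ℝ) : ℂ))
      (B := fun c : ℝ => -(2 * I) * K2 ((q * c : ℝ) : ℂ)) (fun c => by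
        simp only [mul_neg]
        rw [Complex.ofReal_neg, h1.ev]
        ring)
    rw [← h]
    refine intervalIntegral.integral_congr fun t _ => ?_
    simp only [V1, Q2, hp]
    push_cast
    ring
  have e2 : ∫ t in (0 : ℝ)..(2 * Real.pi), (Real.log ‖V2 z2 Λ e 0 t‖ : ℂ) * Q1 K1 Λ e 0 t = 0 := by
    have h := circ_odd_sin
      (A := fun c : ℝ => 2 * I * K1 ((q * c : ℝ) : ℂ))
      (B := fun c : ℝ => (Real.log ‖uq (z2 ((q * c : ℝ) : ℂ))‖ : ℂ) * ((q * c : ℝ) : ℂ))
      (fun c => by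
        simp only [mul_neg]
        rw [Complex.ofReal_neg, h2.ev]
        ring)
    rw [← h]
    refine intervalIntegral.integral_congr fun t _ => ?_
    simp only [V2, Q1, hp]
    push_cast
    ring
  rw [e1, e2, sub_zero]

omit hΛ h1 h2 in
/-- the primitive -/
noncomputable def Gp (K1 K2 : ℂ → ℂ) (Λ e s : ℝ) : ℂ :=
  ∫ σ in (0 : ℝ)..s, dFL e σ * hL K1 K2 (FL Λ e σ)

lemma gL_continuous : Continuous fun σ => dFL e σ * hL K1 K2 (FL Λ e σ) :=
  (dFL_continuous e).mul (continuous_hL h1.anK h2.anK (FL_contDiff Λ e 0).continuous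
    fun s => by rw [FL_re]; exact hΛ)

lemma Gp_deriv (s : ℝ) : HasDerivAt (Gp K1 K2 Λ e) (dFL e s * hL K1 K2 (FL Λ e s)) s :=
  intervalIntegral.integral_hasDerivAt_right ((gL_continuous h1 h2 hΛ e).intervalIntegrable _ _)
    ((gL_continuous h1 h2 hΛ e).stronglyMeasurableAtFilter _ _)
    (gL_continuous h1 h2 hΛ e).continuousAt

/-- the regulator as a one-dimensional integral -/
theorem regL : regTorus (tri V0 (V1 z1 Λ e) (V2 z2 Λ e)) =
    -(∫ s in (0 : ℝ)..(2 * Real.pi), wL s * Gp K1 K2 Λ e s).re := by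
  refine (dataL h1 h2 hΛ e).reg_eq (Gp K1 K2 Λ e) ?_ ?_ ?_ ?_ ?_
  · intro s
    rw [int_Jf' h1 h2 hΛ]
    exact Gp_deriv h1 h2 hΛ e s
  · unfold V0
    rw [XL_zero]
    simp [qq]
  · unfold V0
    rw [XL_two_pi]
    simp [qq]
  · unfold Gp
    rw [intervalIntegral.integral_same, Complex.zero_im]
  · rw [Kf_int_zero h1 h2 hΛ, Complex.zero_im]

end reg

end Pool.Agent.Helper11.K3H
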