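import Mathlib
import Pool.Agent.Helper12.K3.Hfun2

/-!
Sectors: the argument of `kp`.
-/

namespace Pool.Agent.Helper11.K3H

open Complex Set Filter Topology Pool.Agent.Helper12.K3

lemma mul_cos_le_sin {y : ℝ} (h0 : 0 ≤ y) (h1 : y ≤ Real.pi) : y * Real.cos y ≤ Real.sin y := by
  rcases lt_or_ge y (Real.pi / 2) with h | h
  · have h2 := Real.le_tan h0 h
    have hc : 0 < Real.cos y := Real.cos_pos_of_mem_Ioo ⟨by linarith [Real.pi_pos], h⟩
    rw [Real.tan_eq_sin_div_cos, le_div_iff₀ hc] at h2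
    exact h2
  · have hc : Real.cos y ≤ 0 := Real.cos_nonpos_of_pi_div_two_le_of_le h (by linarith)
    have hs : 0 ≤ Real.sin y := Real.sin_nonneg_of_nonneg_of_le_pi h0 h1
    nlinarith

/-- the elementary inequality -/
lemma key_ineq (x : ℝ) {y : ℝ} (h0 : 0 ≤ y) (h1 : y ≤ Real.pi) :
    y * Real.cos y - x * Real.sin y ≤ y * Real.exp (-x) := by
  have hs : 0 ≤ Real.sin y := Real.sin_nonneg_of_nonneg_of_le_pi h0 h1
  have hc := mul_cos_le_sin h0 h1
  have hE := Real.add_one_le_exp (-x)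
  have hE0 := Real.exp_pos (-x)
  have hs' : Real.sin y ≤ y := Real.sin_le h0
  have hc1 := Real.cos_le_one y
  rcases lt_or_ge x 0 with hx | hx
  · have e1 : y * (-x + 1) ≤ y * Real.exp (-x) := mul_le_mul_of_nonneg_left hE h0
    have e2 : 0 ≤ y * (1 - Real.cos y) := mul_nonneg h0 (by linarith)
    have e3 : 0 ≤ (-x) * (y - Real.sin y) := mul_nonneg (by linarith) (by linarith)
    nlinarith
  · rcases le_or_gt (Real.cos y) 0 with h | h
    · have e1 : y * Real.cos y ≤ 0 := mul_nonpos_of_nonneg_of_nonpos h0 h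
      have e2 : 0 ≤ x * Real.sin y := mul_nonneg hx hs
      have e3 : 0 ≤ y * Real.exp (-x) := mul_nonneg h0 hE0.le
      linarith
    · have e1 : x * (y * Real.cos y) ≤ x * Real.sin y := mul_le_mul_of_nonneg_left hc hx
      have e2 : y * Real.cos y * (1 - x) ≤ y * Real.exp (-x) := by
        rcases le_or_gt 1 x with h2 | h2
        · have : y * Real.cos y * (1 - x) ≤ 0 :=
            mul_nonpos_of_nonneg_of_nonpos (mul_nonneg h0 h.le) (by linarith)
          have e3 : 0 ≤ y * Real.exp (-x) := mul_nonneg h0 hE0.le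
          linarith
        · have e4 : y * Real.cos y * (1 - x) ≤ y * (1 - x) := by
            have : y * Real.cos y ≤ y * 1 := mul_le_mul_of_nonneg_left hc1 h0
            nlinarith
          have e5 : y * (1 - x) ≤ y * Real.exp (-x) := mul_le_mul_of_nonneg_left (by linarith) h0
          linarith
      linarith

lemma key_ineq_strict {x y : ℝ} (hx : 0 < x) (h0 : 0 < y) (h1 : y ≤ Real.pi) :
    y * Real.cos y - x * Real.sin y < y * Real.exp (-x) := by
  have hs : 0 ≤ Real.sin y := Real.sin_nonneg_of_nonneg_of_le_pi h0.le h1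
  have hc := mul_cos_le_sin h0.le h1
  have hE := Real.add_one_lt_exp (x := -x) (by linarith)
  have hE0 := Real.exp_pos (-x)
  have hc1 := Real.cos_le_one y
  rcases le_or_gt (Real.cos y) 0 with h | h
  · have e1 : y * Real.cos y ≤ 0 := mul_nonpos_of_nonneg_of_nonpos h0.le h
    have e2 : 0 ≤ x * Real.sin y := mul_nonneg hx.le hs
    have e3 : 0 < y * Real.exp (-x) := mul_pos h0 hE0
    linarith
  · have e1 : x * (y * Real.cos y) ≤ x * Real.sin y := mul_le_mul_of_nonneg_left hc hx.le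
    have e2 : y * Real.cos y * (1 - x) < y * Real.exp (-x) := by
      rcases le_or_gt 1 x with h2 | h2
      · have : y * Real.cos y * (1 - x) ≤ 0 :=
          mul_nonpos_of_nonneg_of_nonpos (mul_nonneg h0.le h.le) (by linarith)
        have e3 : 0 < y * Real.exp (-x) := mul_pos h0 hE0
        linarith
      · have e4 : y * Real.cos y * (1 - x) ≤ y * (1 - x) := by
          have : y * Real.cos y ≤ y * 1 := mul_le_mul_of_nonneg_left hc1 h0.le
          nlinarith
        have e5 : y * (1 - x) < y * Real.exp (-x) := mul_lt_mul_of_pos_left (by linarith) h0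
        linarith
    linarith

lemma normSq_mul_psi (z : ℂ) : (normSq z : ℂ) * psi z = (1 - exp (-z)) * (starRingEnd ℂ) z := by
  rw [← mul_psi, ← Complex.mul_conj]
  ring

lemma psi_im_nonneg {z : ℂ} (h0 : 0 < z.re) (h2 : z.im ≤ 0) : 0 ≤ (psi z).im := by
  have hz : 0 < normSq z := by
    rw [Complex.normSq_pos]
    intro h
    rw [h] at h0
    simp at h0
  have h := congrArg Complex.im (normSq_mul_psi z)
  rw [Complex.im_ofReal_mul, Complex.mul_im, Complex.sub_re, Complex.sub_im, Complex.one_re,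
    Complex.one_im, Complex.exp_re, Complex.exp_im, Complex.neg_re, Complex.neg_im,
    Complex.conj_re, Complex.conj_im] at h
  set u := z.re
  set φ := -z.im with hφ
  have hφ0 : 0 ≤ φ := by rw [hφ]; linarith
  have h3 : 0 ≤ (1 - Real.exp (-u) * Real.cos φ) * φ + (0 - Real.exp (-u) * Real.sin φ) * u := by
    have e1 : Real.exp (-u) * (1 + u) ≤ 1 := by
      have := Real.add_one_le_exp u
      have h5 : Real.exp (-u) * Real.exp u = 1 := by rw [← Real.exp_add]; simp
      rw [← h5]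
      exact mul_le_mul_of_nonneg_left (by linarith) (Real.exp_pos _).le
    have e2 : φ * Real.cos φ + u * Real.sin φ ≤ φ * (1 + u) := by
      have a1 : φ * Real.cos φ ≤ φ * 1 := mul_le_mul_of_nonneg_left (Real.cos_le_one φ) hφ0
      have a2 : u * Real.sin φ ≤ u * φ := mul_le_mul_of_nonneg_left (Real.sin_le hφ0) h0.le
      linarith
    have e3 := mul_le_mul_of_nonneg_left e2 (Real.exp_pos (-u)).le
    have e4 : φ * (Real.exp (-u) * (1 + u)) ≤ φ * 1 := mul_le_mul_of_nonneg_left e1 hφ0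
    nlinarith
  rw [← h] at h3
  exact nonneg_of_mul_nonneg_right h3 hz |>.trans_eq rfl

lemma arg_psi_nonneg {z : ℂ} (h0 : 0 < z.re) (h2 : z.im ≤ 0) : 0 ≤ (psi z).arg :=
  Complex.arg_nonneg_iff.2 (psi_im_nonneg h0 h2)

lemma arg_lt_pi {w : ℂ} (h : w ∈ slitPlane) : w.arg < Real.pi :=
  lt_of_le_of_ne (Complex.arg_le_pi w) (Complex.mem_slitPlane_iff_arg.1 h).1

/-- the imaginary part of `ψ e^{-iφ}` -/
lemma psi_rot {z : ℂ} (h0 : 0 < z.re) : ∃ m : ℝ, 0 < m ∧
    m * (psi z * exp (z.im * I)).im =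
      -z.im * Real.cos (-z.im) - z.re * Real.sin (-z.im) - (-z.im) * Real.exp (-z.re) := by
  have hz : 0 < normSq z := by
    rw [Complex.normSq_pos]
    intro h
    rw [h] at h0
    simp at h0
  refine ⟨normSq z, hz, ?_⟩
  have h1 : (normSq z : ℂ) * (psi z * exp (z.im * I)) =
      Real.exp (-z.re) * ((exp z - 1) * (starRingEnd ℂ) z) := by
    have e1 : (Real.exp (-z.re) : ℂ) * exp z = exp (z.im * I) := by
      rw [Complex.ofReal_exp, ← Complex.exp_add]
      congr 1
      push_cast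
      linear_combination -(Complex.re_add_im z)
    have e2 : exp (-z) * exp z = 1 := by rw [← Complex.exp_add]; simp
    rw [← mul_assoc, normSq_mul_psi, ← e1]
    linear_combination (-(Real.exp (-z.re) : ℂ) * (starRingEnd ℂ) z) * e2
  have h := congrArg Complex.im h1
  rw [Complex.im_ofReal_mul, Complex.im_ofReal_mul] at h
  rw [h, Complex.mul_im, Complex.sub_re, Complex.sub_im, Complex.one_re, Complex.one_im,
    Complex.exp_re, Complex.exp_im, Complex.conj_re, Complex.conj_im, Real.cos_neg, Real.sin_neg]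
  have h5 : Real.exp (-z.re) * Real.exp z.re = 1 := by rw [← Real.exp_add]; simp
  linear_combination (-z.im * Real.cos z.im + z.re * Real.sin z.im) * h5

lemma arg_psi_le {z : ℂ} (h0 : 0 < z.re) (h2 : z.im ≤ 0) : (psi z).arg ≤ -z.im := by
  rcases le_or_gt Real.pi (-z.im) with h | h
  · exact (Complex.arg_le_pi _).trans h
  by_contra hcon
  push Not at hcon
  obtain ⟨m, hm, he⟩ := psi_rot h0
  have hk := key_ineq z.re (y := -z.im) (by linarith) h.le
  have h3 : (psi z * exp (z.im * I)).im ≤ 0 := by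
    by_contra h4
    push Not at h4
    have := mul_pos hm h4
    linarith
  have h4 : psi z * exp (z.im * I) = ‖psi z‖ * exp (((psi z).arg - (-z.im) : ℝ) * I) := by
    conv_lhs => rw [← Complex.norm_mul_exp_arg_mul_I (psi z)]
    rw [mul_assoc, ← Complex.exp_add]
    congr 2
    push_cast
    ring
  rw [h4, Complex.im_ofReal_mul, Complex.exp_ofReal_mul_I_im] at h3
  have hp : psi z ∈ slitPlane := psi_mem (Or.inl h0)
  have h5 : 0 < ‖psi z‖ := norm_pos_iff.2 (Complex.slitPlane_ne_zero hp)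
  have h6 : 0 < Real.sin ((psi z).arg - (-z.im)) :=
    Real.sin_pos_of_pos_of_lt_pi (by linarith) (by linarith [arg_lt_pi hp])
  have := mul_pos h5 h6
  linarith

lemma arg_psi_lt {z : ℂ} (h0 : 0 < z.re) (h1 : -Real.pi ≤ z.im) (h2 : z.im < 0) :
    (psi z).arg < -z.im := by
  have hp : psi z ∈ slitPlane := psi_mem (Or.inl h0)
  rcases eq_or_lt_of_le (show -z.im ≤ Real.pi by linarith) with h | h
  · rw [h]
    exact arg_lt_pi hp
  refine lt_of_le_of_ne (arg_psi_le h0 h2.le) fun heq => ?_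
  obtain ⟨m, hm, he⟩ := psi_rot h0
  have hk := key_ineq_strict h0 (y := -z.im) (by linarith) h.le
  have h3 : (psi z * exp (z.im * I)).im < 0 := by
    by_contra h4
    push Not at h4
    have := mul_nonneg hm.le h4
    linarith
  have h4 : psi z * exp (z.im * I) = ‖psi z‖ * exp (((psi z).arg - (-z.im) : ℝ) * I) := by
    conv_lhs => rw [← Complex.norm_mul_exp_arg_mul_I (psi z)]
    rw [mul_assoc, ← Complex.exp_add]
    congr 2
    push_cast
    ring
  rw [h4, Complex.im_ofReal_mul, Complex.exp_ofReal_mul_I_im, heq, sub_self, Real.sin_zero,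
    mul_zero] at h3
  exact lt_irrefl _ h3

lemma rt_polar {w : ℂ} (hw : w ≠ 0) : ∃ R : ℝ, 0 < R ∧ rt w = R * exp ((w.arg / 2 : ℝ) * I) := by
  refine ⟨Real.exp (Real.log ‖w‖ / 2), Real.exp_pos _, ?_⟩
  unfold rt
  rw [Complex.cpow_def_of_ne_zero hw, Complex.ofReal_exp, ← Complex.exp_add]
  congr 1
  have : Complex.log w = Real.log ‖w‖ + w.arg * I := rfl
  rw [this]
  push_cast
  ring

/-- the sector of `kp` -/
lemma kp_sector {z : ℂ} (h0 : 0 < z.re) (h2 : z.im ≤ 0) :
    ∃ R θ : ℝ, 0 < R ∧ 0 ≤ θ ∧ θ ≤ -z.im / 2 ∧ (-Real.pi ≤ z.im → z.im < 0 → 0 < θ) ∧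
      kp z = R * exp (θ * I) := by
  have hp : psi z ∈ slitPlane := psi_mem (Or.inl h0)
  obtain ⟨R, hR, he⟩ := rt_polar (Complex.slitPlane_ne_zero hp)
  have a1 := arg_psi_nonneg h0 h2
  have a2 := arg_psi_le h0 h2
  refine ⟨Real.exp (-z.re / 2) / R, (-z.im - (psi z).arg) / 2, div_pos (Real.exp_pos _) hR,
    by linarith, by linarith, fun h3 h4 => by linarith [arg_psi_lt h0 h3 h4], ?_⟩
  have hR' : (R : ℂ) ≠ 0 := by exact_mod_cast hR.ne'
  unfold kp
  rw [he, div_eq_iff (mul_ne_zero hR' (Complex.exp_ne_zero _))]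
  have e1 : -z / 2 = ((-z.re / 2 : ℝ) : ℂ) + (((-z.im - (psi z).arg) / 2 : ℝ) : ℂ) * I +
      (((psi z).arg / 2 : ℝ) : ℂ) * I := by
    conv_lhs => rw [← Complex.re_add_im z]
    push_cast
    ring
  rw [e1, Complex.exp_add, Complex.exp_add, ← Complex.ofReal_exp,
    Complex.ofReal_div (Real.exp (-z.re / 2)) R]
  field_simp

end Pool.Agent.Helper11.K3H
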