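import Mathlib
import Pool.Agent.Helper11.K3H.Hgen
import Pool.Agent.Helper11.K3H.Sec

/-!
The sign of the regulator.
-/

namespace Pool.Agent.Helper11.K3H

open Complex Set Filter Topology MeasureTheory Pool.Agent.Helper11 Pool.Agent.Helper12.K3
open scoped Interval

/-- the sector property of a kernel -/
def Sect (K : ℂ → ℂ) (N : ℝ) : Prop :=
  ∀ η ∈ Dm, (η ^ 2).im ≤ 0 → -(2 * Real.pi * N) ≤ (η ^ 2).im →
    ∃ R θ : ℝ, 0 < R ∧ 0 ≤ θ ∧ θ ≤ -(η ^ 2).im / (2 * N) ∧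
      (-(Real.pi * N) ≤ (η ^ 2).im → (η ^ 2).im < 0 → 0 < θ) ∧ Kev K η = R * exp (θ * I)

/-- the decay of a kernel -/
def Dec (K : ℂ → ℂ) : Prop :=
  ∃ C δ : ℝ, 0 ≤ C ∧ 0 < δ ∧ ∀ (F : ℂ) (c : ℝ), 0 < F.re → |c| ≤ 1 →
    ‖Kev K (rt F * (c : ℂ))‖ ≤ C * Real.exp (-(δ * c ^ 2 * F.re)) *
      Real.sqrt (‖F‖ * (1 + F.re) / F.re)

lemma eta_sq (F : ℂ) (c : ℝ) : (rt F * (c : ℂ)) ^ 2 = ((c ^ 2 : ℝ) : ℂ) * F := by
  rw [mul_pow, rt_sq]
  push_cast
  ring

lemma eta_sq_im (F : ℂ) (c : ℝ) : ((rt F * (c : ℂ)) ^ 2).im = c ^ 2 * F.im := by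
  rw [eta_sq, Complex.im_ofReal_mul]

section

variable {K1 K2 : ℂ → ℂ} {N1 N2 e : ℝ} (s1 : Sect K1 N1) (s2 : Sect K2 N2) (he : 0 < e)
  (he1 : e ≤ N1) (he2 : e ≤ N2)

include s1 s2 he he1 he2

lemma ff_polar {F : ℂ} (hF : 0 < F.re) (hi : F.im ≤ 0) (hi' : -(2 * Real.pi * e) ≤ F.im) (t : ℝ) :
    ∃ R θ : ℝ, 0 < R ∧ 0 ≤ θ ∧ θ ≤ -F.im / (2 * e) ∧
      (t = 0 → -(Real.pi * e) ≤ F.im → F.im < 0 → 0 < θ) ∧ ff K1 K2 F t = R * exp (θ * I) := by
  have hpi := Real.pi_pos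
  have hcs := Real.cos_sq_add_sin_sq t
  have hc0 : 0 ≤ Real.cos t ^ 2 := sq_nonneg _
  have hs0 : 0 ≤ Real.sin t ^ 2 := sq_nonneg _
  have hN1 : 0 < N1 := he.trans_le he1
  have hN2 : 0 < N2 := he.trans_le he2
  obtain ⟨R1, θ1, hR1, h1a, h1b, h1c, h1d⟩ := s1 (rt F * (Real.cos t : ℂ)) (rt_mem_Dm hF _)
    (by rw [eta_sq_im]; exact mul_nonpos_of_nonneg_of_nonpos hc0 hi)
    (by
      rw [eta_sq_im]
      have e1 : Real.cos t ^ 2 * (-(2 * Real.pi * e)) ≤ Real.cos t ^ 2 * F.im :=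
        mul_le_mul_of_nonneg_left hi' hc0
      have e2 : Real.cos t ^ 2 * (2 * Real.pi * e) ≤ 1 * (2 * Real.pi * e) :=
        mul_le_mul_of_nonneg_right (by linarith) (by positivity)
      have e3 : 2 * Real.pi * e ≤ 2 * Real.pi * N1 := mul_le_mul_of_nonneg_left he1 (by positivity)
      linarith)
  obtain ⟨R2, θ2, hR2, h2a, h2b, h2c, h2d⟩ := s2 (rt F * (Real.sin t : ℂ)) (rt_mem_Dm hF _)
    (by rw [eta_sq_im]; exact mul_nonpos_of_nonneg_of_nonpos hs0 hi)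
    (by
      rw [eta_sq_im]
      have e1 : Real.sin t ^ 2 * (-(2 * Real.pi * e)) ≤ Real.sin t ^ 2 * F.im :=
        mul_le_mul_of_nonneg_left hi' hs0
      have e2 : Real.sin t ^ 2 * (2 * Real.pi * e) ≤ 1 * (2 * Real.pi * e) :=
        mul_le_mul_of_nonneg_right (by linarith) (by positivity)
      have e3 : 2 * Real.pi * e ≤ 2 * Real.pi * N2 := mul_le_mul_of_nonneg_left he2 (by positivity)
      linarith)
  rw [eta_sq_im] at h1b h1c h2b h2c
  refine ⟨2 * (R1 * R2), θ1 + θ2, by positivity, by linarith, ?_, ?_, ?_⟩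
  · have b1 : -(Real.cos t ^ 2 * F.im) / (2 * N1) ≤ Real.cos t ^ 2 * (-F.im / (2 * e)) := by
      have e1 : Real.cos t ^ 2 * (-F.im / (2 * e)) = -(Real.cos t ^ 2 * F.im) / (2 * e) := by ring
      rw [e1]
      apply div_le_div_of_nonneg_left
      · have := mul_nonneg hc0 (by linarith : (0 : ℝ) ≤ -F.im)
        linarith
      · linarith
      · linarith
    have b2 : -(Real.sin t ^ 2 * F.im) / (2 * N2) ≤ Real.sin t ^ 2 * (-F.im / (2 * e)) := by
      have e1 : Real.sin t ^ 2 * (-F.im / (2 * e)) = -(Real.sin t ^ 2 * F.im) / (2 * e) := by ring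
      rw [e1]
      apply div_le_div_of_nonneg_left
      · have := mul_nonneg hs0 (by linarith : (0 : ℝ) ≤ -F.im)
        linarith
      · linarith
      · linarith
    calc θ1 + θ2 ≤ Real.cos t ^ 2 * (-F.im / (2 * e)) + Real.sin t ^ 2 * (-F.im / (2 * e)) :=
          add_le_add (h1b.trans b1) (h2b.trans b2)
      _ = (Real.cos t ^ 2 + Real.sin t ^ 2) * (-F.im / (2 * e)) := by ring
      _ = -F.im / (2 * e) := by rw [hcs, one_mul]
  · intro ht h3 h4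
    rw [ht, Real.cos_zero, one_pow, one_mul] at h1c
    have := h1c (by
      have e3 : Real.pi * e ≤ Real.pi * N1 := mul_le_mul_of_nonneg_left he1 hpi.le
      linarith) h4
    linarith
  · unfold ff
    rw [h1d, h2d]
    push_cast
    rw [add_mul, Complex.exp_add]
    ring

lemma ff_im_nonneg {F : ℂ} (hF : 0 < F.re) (hi : F.im ≤ 0) (hi' : -(2 * Real.pi * e) ≤ F.im)
    (t : ℝ) : 0 ≤ (ff K1 K2 F t).im := by
  obtain ⟨R, θ, hR, h1, h2, -, h3⟩ := ff_polar s1 s2 he he1 he2 hF hi hi' t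
  rw [h3, Complex.im_ofReal_mul, Complex.exp_ofReal_mul_I_im]
  refine mul_nonneg hR.le (Real.sin_nonneg_of_nonneg_of_le_pi h1 (h2.trans ?_))
  rw [div_le_iff₀ (by positivity)]
  linarith

lemma ff_im_zero {F : ℂ} (hF : 0 < F.re) (hi : F.im = 0) (t : ℝ) : (ff K1 K2 F t).im = 0 := by
  have hpi := Real.pi_pos
  obtain ⟨R, θ, hR, h1, h2, -, h3⟩ := ff_polar s1 s2 he he1 he2 hF hi.le
    (by rw [hi]; have : 0 ≤ 2 * Real.pi * e := by positivity
        linarith) t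
  rw [hi, neg_zero, zero_div] at h2
  have h4 : θ = 0 := le_antisymm h2 h1
  rw [h3, h4]
  simp

lemma ff_im_pos {F : ℂ} (hF : 0 < F.re) (hi : F.im < 0) (hi' : -(Real.pi * e) ≤ F.im) :
    0 < (ff K1 K2 F 0).im := by
  have hpi := Real.pi_pos
  have hpe : 0 < Real.pi * e := by positivity
  obtain ⟨R, θ, hR, h1, h2, h4, h3⟩ := ff_polar s1 s2 he he1 he2 hF hi.le (by linarith) 0
  rw [h3, Complex.im_ofReal_mul, Complex.exp_ofReal_mul_I_im]
  refine mul_pos hR (Real.sin_pos_of_pos_of_lt_pi (h4 rfl hi' hi) ?_)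
  have h5 : -F.im / (2 * e) ≤ Real.pi / 2 := by
    rw [div_le_iff₀ (by positivity)]
    linarith
  linarith

end

section decay

variable {K1 K2 : ℂ → ℂ}

lemma ff_decay (d1 : Dec K1) (d2 : Dec K2) : ∃ C δ : ℝ, 0 ≤ C ∧ 0 < δ ∧ ∀ (F : ℂ) (t : ℝ),
    0 < F.re → ‖ff K1 K2 F t‖ ≤ C * Real.exp (-(δ * F.re)) * (‖F‖ * (1 + F.re) / F.re) := by
  obtain ⟨C1, δ1, hC1, hδ1, h1⟩ := d1
  obtain ⟨C2, δ2, hC2, hδ2, h2⟩ := d2
  refine ⟨2 * (C1 * C2), min δ1 δ2, by positivity, lt_min hδ1 hδ2, fun F t hF => ?_⟩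
  have a1 := h1 F (Real.cos t) hF (Real.abs_cos_le_one t)
  have a2 := h2 F (Real.sin t) hF (Real.abs_sin_le_one t)
  set Q := ‖F‖ * (1 + F.re) / F.re with hQ
  have hQ0 : 0 ≤ Q := by positivity
  have hcs := Real.cos_sq_add_sin_sq t
  have hc0 : 0 ≤ Real.cos t ^ 2 := sq_nonneg _
  have hs0 : 0 ≤ Real.sin t ^ 2 := sq_nonneg _
  unfold ff
  rw [norm_mul, norm_mul]
  have e0 : ‖(2 : ℂ)‖ = 2 := by norm_num
  rw [e0]
  have e1 := mul_le_mul a1 a2 (norm_nonneg _) (by positivity)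
  have e2 : Real.exp (-(δ1 * Real.cos t ^ 2 * F.re)) * Real.exp (-(δ2 * Real.sin t ^ 2 * F.re)) ≤
      Real.exp (-(min δ1 δ2 * F.re)) := by
    rw [← Real.exp_add]
    apply Real.exp_le_exp.2
    have f1 : min δ1 δ2 * (Real.cos t ^ 2 * F.re) ≤ δ1 * (Real.cos t ^ 2 * F.re) :=
      mul_le_mul_of_nonneg_right (min_le_left _ _) (mul_nonneg hc0 hF.le)
    have f2 : min δ1 δ2 * (Real.sin t ^ 2 * F.re) ≤ δ2 * (Real.sin t ^ 2 * F.re) :=
      mul_le_mul_of_nonneg_right (min_le_right _ _) (mul_nonneg hs0 hF.le)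
    have f3 : min δ1 δ2 * (Real.cos t ^ 2 * F.re) + min δ1 δ2 * (Real.sin t ^ 2 * F.re) =
        min δ1 δ2 * F.re := by
      rw [← mul_add, ← add_mul, hcs, one_mul]
    linarith
  have e3 : C1 * Real.exp (-(δ1 * Real.cos t ^ 2 * F.re)) * Real.sqrt Q *
      (C2 * Real.exp (-(δ2 * Real.sin t ^ 2 * F.re)) * Real.sqrt Q) =
      C1 * C2 * (Real.exp (-(δ1 * Real.cos t ^ 2 * F.re)) *
        Real.exp (-(δ2 * Real.sin t ^ 2 * F.re))) * Q := by
    have : Real.sqrt Q * Real.sqrt Q = Q := Real.mul_self_sqrt hQ0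
    linear_combination (C1 * C2 * (Real.exp (-(δ1 * Real.cos t ^ 2 * F.re)) *
        Real.exp (-(δ2 * Real.sin t ^ 2 * F.re)))) * this
  rw [e3] at e1
  have e4 : C1 * C2 * (Real.exp (-(δ1 * Real.cos t ^ 2 * F.re)) *
        Real.exp (-(δ2 * Real.sin t ^ 2 * F.re))) * Q ≤
      C1 * C2 * Real.exp (-(min δ1 δ2 * F.re)) * Q := by gcongr
  linarith

lemma tendsto_bound (A δ : ℝ) (hδ : 0 < δ) :
    Tendsto (fun X : ℝ => A * ((1 + X) * Real.exp (-(δ * X)))) atTop (𝓝 0) := by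
  have h1 := tendsto_rpow_mul_exp_neg_mul_atTop_nhds_zero 1 δ hδ
  have h0 := tendsto_rpow_mul_exp_neg_mul_atTop_nhds_zero 0 δ hδ
  have h2 := (h0.add h1).const_mul A
  simp only [Real.rpow_zero, Real.rpow_one, add_zero, mul_zero] at h2
  refine h2.congr fun X => ?_
  rw [neg_mul]
  ring

lemma cont_ff_line (h1 : ∀ η ∈ Dm, AnalyticAt ℂ K1 η) (h2 : ∀ η ∈ Dm, AnalyticAt ℂ K2 η) (t : ℝ)
    {g : ℝ → ℂ} (hg : Continuous g) {a b : ℝ} (hre : ∀ x ∈ uIcc a b, 0 < (g x).re) :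
    IntervalIntegrable (fun x => ff K1 K2 (g x) t) volume a b := by
  apply ContinuousOn.intervalIntegrable
  intro x hx
  exact (ContinuousAt.comp (g := fun F => ff K1 K2 F t) (f := g)
    (ff_differentiableAt h1 h2 (hre x hx) t).continuousAt hg.continuousAt).continuousWithinAt

end decay

section half

variable {K1 K2 : ℂ → ℂ} {N1 N2 e Λ : ℝ} (h1 : ∀ η ∈ Dm, AnalyticAt ℂ K1 η)
  (h2 : ∀ η ∈ Dm, AnalyticAt ℂ K2 η) (s1 : Sect K1 N1) (s2 : Sect K2 N2) (d1 : Dec K1)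
  (d2 : Dec K2) (he : 0 < e) (he1 : e ≤ N1) (he2 : e ≤ N2) (hΛ : 0 < Λ)

include h1 h2 s1 s2 d1 d2 he he1 he2 hΛ

/-- the half line -/
lemma half (t : ℝ) {A : ℝ} (hA0 : 0 ≤ A) (hA : A ≤ 2 * Real.pi * e) :
    0 ≤ ∫ y in (-A)..0, (ff K1 K2 ((Λ : ℂ) + y * I) t).re := by
  have hpi := Real.pi_pos
  obtain ⟨C, δ, hC, hδ, hd⟩ := ff_decay d1 d2
  have hlim := tendsto_bound (-(C * (1 + 2 * Real.pi * e) * A)) δ hδ
  refine le_of_tendsto hlim ?_
  filter_upwards [eventually_ge_atTop (max 1 Λ)] with X hX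
  have hX1 : 1 ≤ X := (le_max_left _ _).trans hX
  have hXΛ : Λ ≤ X := (le_max_right _ _).trans hX
  have H : DifferentiableOn ℂ (fun F => ff K1 K2 F t)
      ([[(⟨Λ, -A⟩ : ℂ).re, (⟨X, 0⟩ : ℂ).re]] ×ℂ [[(⟨Λ, -A⟩ : ℂ).im, (⟨X, 0⟩ : ℂ).im]]) := by
    intro F hF
    rw [Complex.mem_reProdIm] at hF
    have h3 := hF.1
    simp only [uIcc_of_le hXΛ, mem_Icc] at h3
    exact (ff_differentiableAt h1 h2 (by linarith [h3.1]) t).differentiableWithinAt
  have key := Complex.integral_boundary_rect_eq_zero_of_differentiableOn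
    (fun F => ff K1 K2 F t) ⟨Λ, -A⟩ ⟨X, 0⟩ H
  simp only [smul_eq_mul] at key
  have i1 : IntervalIntegrable (fun x : ℝ => ff K1 K2 ((x : ℂ) + ((-A : ℝ) : ℂ) * I) t) volume
      Λ X := by
    refine cont_ff_line h1 h2 t (by fun_prop) fun x hx => ?_
    rw [uIcc_of_le hXΛ, mem_Icc] at hx
    simp only [Complex.add_re, Complex.ofReal_re, Complex.re_ofReal_mul, Complex.I_re, mul_zero,
      add_zero]
    linarith [hx.1]
  have i2 : IntervalIntegrable (fun x : ℝ => ff K1 K2 ((x : ℂ) + ((0 : ℝ) : ℂ) * I) t) volume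
      Λ X := by
    refine cont_ff_line h1 h2 t (by fun_prop) fun x hx => ?_
    rw [uIcc_of_le hXΛ, mem_Icc] at hx
    simp only [Complex.add_re, Complex.ofReal_re, Complex.re_ofReal_mul, Complex.I_re, mul_zero,
      add_zero]
    linarith [hx.1]
  have i3 : IntervalIntegrable (fun y : ℝ => ff K1 K2 ((X : ℂ) + (y : ℂ) * I) t) volume
      (-A) 0 := by
    refine cont_ff_line h1 h2 t (by fun_prop) fun x hx => ?_
    simp only [Complex.add_re, Complex.ofReal_re, Complex.re_ofReal_mul, Complex.I_re, mul_zero,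
      add_zero]
    linarith
  have i4 : IntervalIntegrable (fun y : ℝ => ff K1 K2 ((Λ : ℂ) + (y : ℂ) * I) t) volume
      (-A) 0 := by
    refine cont_ff_line h1 h2 t (by fun_prop) fun x hx => ?_
    simp only [Complex.add_re, Complex.ofReal_re, Complex.re_ofReal_mul, Complex.I_re, mul_zero,
      add_zero]
    exact hΛ
  have key2 := congrArg Complex.im key
  rw [Complex.sub_im, Complex.add_im, Complex.sub_im, Complex.mul_im, Complex.mul_im,
    Complex.I_re, Complex.I_im, Complex.zero_im] at key2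
  have j1 : 0 ≤ (∫ x : ℝ in Λ..X, ff K1 K2 ((x : ℂ) + ((-A : ℝ) : ℂ) * I) t).im := by
    have hh : (∫ x : ℝ in Λ..X, ff K1 K2 ((x : ℂ) + ((-A : ℝ) : ℂ) * I) t).im =
        ∫ x : ℝ in Λ..X, (ff K1 K2 ((x : ℂ) + ((-A : ℝ) : ℂ) * I) t).im :=
      (Complex.imCLM.intervalIntegral_comp_comm i1).symm
    rw [hh]
    refine intervalIntegral.integral_nonneg hXΛ fun x hx => ?_
    refine ff_im_nonneg s1 s2 he he1 he2 ?_ ?_ ?_ t
    · simp only [Complex.add_re, Complex.ofReal_re, Complex.re_ofReal_mul, Complex.I_re, mul_zero,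
        add_zero]
      linarith [hx.1]
    · simp only [Complex.add_im, Complex.ofReal_im, Complex.im_ofReal_mul, Complex.I_im, mul_one,
        zero_add]
      linarith
    · simp only [Complex.add_im, Complex.ofReal_im, Complex.im_ofReal_mul, Complex.I_im, mul_one,
        zero_add]
      linarith
  have j2 : (∫ x : ℝ in Λ..X, ff K1 K2 ((x : ℂ) + ((0 : ℝ) : ℂ) * I) t).im = 0 := by
    have hh : (∫ x : ℝ in Λ..X, ff K1 K2 ((x : ℂ) + ((0 : ℝ) : ℂ) * I) t).im =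
        ∫ x : ℝ in Λ..X, (ff K1 K2 ((x : ℂ) + ((0 : ℝ) : ℂ) * I) t).im :=
      (Complex.imCLM.intervalIntegral_comp_comm i2).symm
    rw [hh]
    have h0 : ∫ x : ℝ in Λ..X, (ff K1 K2 ((x : ℂ) + ((0 : ℝ) : ℂ) * I) t).im =
        ∫ x : ℝ in Λ..X, (0 : ℝ) := by
      refine intervalIntegral.integral_congr fun x hx => ?_
      rw [uIcc_of_le hXΛ, mem_Icc] at hx
      refine ff_im_zero s1 s2 he he1 he2 ?_ ?_ t
      · simp only [Complex.add_re, Complex.ofReal_re, Complex.re_ofReal_mul, Complex.I_re, mul_zero,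
          add_zero]
        linarith [hx.1]
      · simp
    rw [h0, intervalIntegral.integral_const, smul_zero]
  have j3 : -(C * (1 + 2 * Real.pi * e) * A * ((1 + X) * Real.exp (-(δ * X)))) ≤
      (∫ y : ℝ in (-A)..0, ff K1 K2 ((X : ℂ) + (y : ℂ) * I) t).re := by
    have hb : ∀ y ∈ uIoc (-A) 0, ‖ff K1 K2 ((X : ℂ) + (y : ℂ) * I) t‖ ≤
        C * Real.exp (-(δ * X)) * ((1 + 2 * Real.pi * e) * (1 + X)) := by
      intro y hy
      rw [uIoc_of_le (by linarith), mem_Ioc] at hy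
      have hre : ((X : ℂ) + (y : ℂ) * I).re = X := by simp
      have h3 := hd ((X : ℂ) + (y : ℂ) * I) t (by rw [hre]; linarith)
      rw [hre] at h3
      refine h3.trans ?_
      have hn : ‖(X : ℂ) + (y : ℂ) * I‖ ≤ X + 2 * Real.pi * e := by
        refine (norm_add_le _ _).trans ?_
        rw [norm_mul, Complex.norm_I, mul_one, Complex.norm_real, Complex.norm_real,
          Real.norm_of_nonneg (by linarith), Real.norm_of_nonpos hy.2]
        linarith [hy.1]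
      have hn2 : ‖(X : ℂ) + (y : ℂ) * I‖ * (1 + X) / X ≤ (1 + 2 * Real.pi * e) * (1 + X) := by
        rw [div_le_iff₀ (by linarith)]
        have h4 : ‖(X : ℂ) + (y : ℂ) * I‖ ≤ (1 + 2 * Real.pi * e) * X := by
          have : 0 ≤ 2 * Real.pi * e := by positivity
          nlinarith
        nlinarith
      have : 0 ≤ C * Real.exp (-(δ * X)) := by positivity
      exact mul_le_mul_of_nonneg_left hn2 this
    have h5 := intervalIntegral.norm_integral_le_of_norm_le_const hb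
    rw [sub_neg_eq_add, zero_add, abs_of_nonneg hA0] at h5
    have h6 := (abs_le.1 (Complex.abs_re_le_norm
      (∫ y : ℝ in (-A)..0, ff K1 K2 ((X : ℂ) + (y : ℂ) * I) t))).1
    nlinarith
  have j4 : (∫ y : ℝ in (-A)..0, ff K1 K2 ((Λ : ℂ) + (y : ℂ) * I) t).re =
      ∫ y : ℝ in (-A)..0, (ff K1 K2 ((Λ : ℂ) + (y : ℂ) * I) t).re :=
    (Complex.reCLM.intervalIntegral_comp_comm i4).symm
  rw [← j4]
  linarith

end half

end Pool.Agent.Helper11.K3H
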