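import Mathlib
import Pool.Agent.Helper11.K3H.Sign

/-!
The sign of the regulator, second part.
-/

namespace Pool.Agent.Helper11.K3H

open Complex Set Filter Topology MeasureTheory Pool.Agent.Helper11 Pool.Agent.Helper12.K3
open scoped Interval

section

variable {K1 K2 : ℂ → ℂ} {N1 N2 e Λ : ℝ} (h1 : ∀ η ∈ Dm, AnalyticAt ℂ K1 η)
  (h2 : ∀ η ∈ Dm, AnalyticAt ℂ K2 η) (s1 : Sect K1 N1) (s2 : Sect K2 N2) (d1 : Dec K1)
  (d2 : Dec K2) (he : 0 < e) (he1 : e ≤ N1) (he2 : e ≤ N2) (hΛ : 0 < Λ)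

include h1 h2

lemma hL_im {F : ℂ} (hF : 0 < F.re) :
    (hL K1 K2 F).im = ∫ t in (0 : ℝ)..(2 * Real.pi), (ff K1 K2 F t).im :=
  (Complex.imCLM.intervalIntegral_comp_comm
    ((continuous_ff' h1 h2 hF).intervalIntegrable _ _)).symm

lemma hL_re {F : ℂ} (hF : 0 < F.re) :
    (hL K1 K2 F).re = ∫ t in (0 : ℝ)..(2 * Real.pi), (ff K1 K2 F t).re :=
  (Complex.reCLM.intervalIntegral_comp_comm
    ((continuous_ff' h1 h2 hF).intervalIntegrable _ _)).symm

include s1 s2 he he1 he2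

lemma hL_im_nonneg {F : ℂ} (hF : 0 < F.re) (hi : F.im ≤ 0) (hi' : -(2 * Real.pi * e) ≤ F.im) :
    0 ≤ (hL K1 K2 F).im := by
  rw [hL_im h1 h2 hF]
  exact intervalIntegral.integral_nonneg (by positivity)
    fun t _ => ff_im_nonneg s1 s2 he he1 he2 hF hi hi' t

lemma hL_im_pos {F : ℂ} (hF : 0 < F.re) (hi : F.im < 0) (hi' : -(Real.pi * e) ≤ F.im) :
    0 < (hL K1 K2 F).im := by
  have hpi := Real.pi_pos
  have hpe : 0 < Real.pi * e := by positivity
  rw [hL_im h1 h2 hF]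
  refine intervalIntegral.integral_pos (by positivity)
    (Complex.continuous_im.comp (continuous_ff' h1 h2 hF)).continuousOn
    (fun t _ => ff_im_nonneg s1 s2 he he1 he2 hF hi.le (by linarith) t)
    ⟨0, ⟨le_rfl, by positivity⟩, ff_im_pos s1 s2 he he1 he2 hF hi hi'⟩

include d1 d2 hΛ

lemma half_hL {A : ℝ} (hA0 : 0 ≤ A) (hA : A ≤ 2 * Real.pi * e) :
    0 ≤ ∫ y in (-A)..0, (hL K1 K2 ((Λ : ℂ) + y * I)).re := by
  have hre : ∀ y : ℝ, 0 < ((Λ : ℂ) + y * I).re := by
    intro y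
    simp only [Complex.add_re, Complex.ofReal_re, Complex.re_ofReal_mul, Complex.I_re, mul_zero,
      add_zero]
    exact hΛ
  have e1 : ∫ y in (-A)..0, (hL K1 K2 ((Λ : ℂ) + y * I)).re =
      ∫ y in (-A)..0, ∫ t in (0 : ℝ)..(2 * Real.pi), (ff K1 K2 ((Λ : ℂ) + y * I) t).re :=
    intervalIntegral.integral_congr fun y _ => hL_re h1 h2 (hre y)
  have hc : Continuous fun p : ℝ × ℝ => (ff K1 K2 ((Λ : ℂ) + p.1 * I) p.2).re :=
    Complex.continuous_re.comp (continuous_ff h1 h2 (F := fun y : ℝ => (Λ : ℂ) + y * I)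
      (by fun_prop) hre)
  have hint : IntegrableOn (Function.uncurry fun (y t : ℝ) => (ff K1 K2 ((Λ : ℂ) + y * I) t).re)
      (uIoc (-A) 0 ×ˢ uIoc (0 : ℝ) (2 * Real.pi)) := by
    have hc' : Continuous (Function.uncurry fun (y t : ℝ) =>
      (ff K1 K2 ((Λ : ℂ) + y * I) t).re) := hc
    refine (hc'.continuousOn.integrableOn_compact (isCompact_uIcc.prod isCompact_uIcc)).mono_set
      (Set.prod_mono uIoc_subset_uIcc uIoc_subset_uIcc)
  rw [e1, intervalIntegral_intervalIntegral_swap hint]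
  exact intervalIntegral.integral_nonneg (by positivity)
    fun t _ => half h1 h2 s1 s2 d1 d2 he he1 he2 hΛ t hA0 hA

end

section main

variable {z1 K1 z2 K2 : ℂ → ℂ} {N1 N2 e Λ : ℝ} (h1 : Ker z1 K1) (h2 : Ker z2 K2)
  (s1 : Sect K1 N1) (s2 : Sect K2 N2) (d1 : Dec K1)
  (d2 : Dec K2) (he : 0 < e) (he1 : e ≤ N1) (he2 : e ≤ N2) (hΛ : 0 < Λ)

include h1 h2 hΛ

lemma Gp_im (s : ℝ) : (Gp K1 K2 Λ e s).im =
    -∫ y in (-(e * aL s))..0, (hL K1 K2 ((Λ : ℂ) + y * I)).re := by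
  have e1 : (Gp K1 K2 Λ e s).im =
      ∫ σ in (0 : ℝ)..s, (dFL e σ * hL K1 K2 (FL Λ e σ)).im :=
    (Complex.imCLM.intervalIntegral_comp_comm
      ((gL_continuous h1 h2 hΛ e).intervalIntegrable _ _)).symm
  have hre : ∀ y : ℝ, 0 < ((Λ : ℂ) + y * I).re := by
    intro y
    simp only [Complex.add_re, Complex.ofReal_re, Complex.re_ofReal_mul, Complex.I_re, mul_zero,
      add_zero]
    exact hΛ
  have hc : Continuous fun y : ℝ => (hL K1 K2 ((Λ : ℂ) + y * I)).re :=
    Complex.continuous_re.comp (continuous_hL h1.anK h2.anK (by fun_prop) hre)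
  have hd : ∀ σ ∈ uIcc 0 s, HasDerivAt (fun σ => -(e * aL σ)) (-(e * daL σ)) σ :=
    fun σ _ => ((aL_deriv σ).const_mul e).neg
  have e2 := intervalIntegral.integral_comp_mul_deriv (a := 0) (b := s)
    (f := fun σ => -(e * aL σ)) (f' := fun σ => -(e * daL σ))
    (g := fun y : ℝ => (hL K1 K2 ((Λ : ℂ) + y * I)).re) hd
    ((continuous_const.mul daL_continuous).neg.continuousOn) hc
  rw [aL_zero, mul_zero, neg_zero] at e2
  rw [e1, intervalIntegral.integral_symm 0 (-(e * aL s)), neg_neg, ← e2]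
  refine intervalIntegral.integral_congr fun σ _ => ?_
  have e3 : FL Λ e σ = (Λ : ℂ) + ((-(e * aL σ) : ℝ) : ℂ) * I := by
    unfold FL
    push_cast
    ring
  simp only [Function.comp]
  rw [e3]
  unfold dFL
  simp only [Complex.mul_im, Complex.mul_re, Complex.neg_re, Complex.neg_im, Complex.ofReal_re,
    Complex.ofReal_im, Complex.I_re, Complex.I_im]
  ring

include s1 s2 d1 d2 he he1 he2

lemma Gp_im_nonpos (s : ℝ) : (Gp K1 K2 Λ e s).im ≤ 0 := by
  rw [Gp_im h1 h2 hΛ]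
  have h3 := aL_nonneg s
  have h4 := aL_le s
  have := half_hL h1.anK h2.anK s1 s2 d1 d2 he he1 he2 hΛ (A := e * aL s) (by positivity)
    (by nlinarith)
  linarith

/-- the regulator is not zero -/
theorem reg_pos : 0 < (∫ s in (0 : ℝ)..(2 * Real.pi), wL s * Gp K1 K2 Λ e s).re := by
  have hpi := Real.pi_pos
  have D := dataL h1 h2 hΛ e
  have cg := gL_continuous h1 h2 hΛ e
  have cG : Continuous (Gp K1 K2 Λ e) :=
    continuous_iff_continuousAt.2 fun s => (Gp_deriv h1 h2 hΛ e s).continuousAt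
  have cL := D.cL0
  have hL0 : ∀ s, HasDerivAt (fun s => Real.log ‖V0 s‖) (wL s).re s := by
    intro s
    have h := hasDerivAt_log_norm (D.d0 s) (D.ne0 s)
    rwa [mul_div_cancel_right₀ _ (D.ne0 s)] at h
  have hGr : ∀ s, HasDerivAt (fun s => (Gp K1 K2 Λ e s).re)
      (dFL e s * hL K1 K2 (FL Λ e s)).re s := fun s =>
    (Complex.reCLM.hasFDerivAt.comp_hasDerivAt s (Gp_deriv h1 h2 hΛ e s))
  have hΦ : ∀ s, HasDerivAt (fun s => Real.log ‖V0 s‖ * (Gp K1 K2 Λ e s).re)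
      ((wL s).re * (Gp K1 K2 Λ e s).re + Real.log ‖V0 s‖ *
        (dFL e s * hL K1 K2 (FL Λ e s)).re) s := fun s => (hL0 s).mul (hGr s)
  have cΦ : Continuous fun s => (wL s).re * (Gp K1 K2 Λ e s).re + Real.log ‖V0 s‖ *
      (dFL e s * hL K1 K2 (FL Λ e s)).re :=
    ((Complex.continuous_re.comp wL_continuous).mul (Complex.continuous_re.comp cG)).add
      (cL.mul (Complex.continuous_re.comp cg))
  have hint := intervalIntegral.integral_eq_sub_of_hasDerivAt (a := 0) (b := 2 * Real.pi)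
    (fun s _ => hΦ s) (cΦ.intervalIntegrable _ _)
  have hV0 : Real.log ‖V0 0‖ = 0 := by
    unfold V0
    rw [XL_zero]
    simp [qq]
  have hV1 : Real.log ‖V0 (2 * Real.pi)‖ = 0 := by
    unfold V0
    rw [XL_two_pi]
    simp [qq]
  rw [hV0, hV1, zero_mul, zero_mul, sub_zero] at hint
  have cwG : Continuous fun s => wL s * Gp K1 K2 Λ e s := wL_continuous.mul cG
  have e1 : (∫ s in (0 : ℝ)..(2 * Real.pi), wL s * Gp K1 K2 Λ e s).re =
      ∫ s in (0 : ℝ)..(2 * Real.pi), (wL s * Gp K1 K2 Λ e s).re :=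
    (Complex.reCLM.intervalIntegral_comp_comm (cwG.intervalIntegrable _ _)).symm
  have e2 : ∫ s in (0 : ℝ)..(2 * Real.pi), (wL s * Gp K1 K2 Λ e s).re =
      ∫ s in (0 : ℝ)..(2 * Real.pi), ((wL s * Gp K1 K2 Λ e s).re -
        ((wL s).re * (Gp K1 K2 Λ e s).re + Real.log ‖V0 s‖ *
        (dFL e s * hL K1 K2 (FL Λ e s)).re)) := by
    have i1 : IntervalIntegrable (fun s => (wL s * Gp K1 K2 Λ e s).re) volume 0 (2 * Real.pi) :=
      (Complex.continuous_re.comp cwG).intervalIntegrable _ _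
    rw [intervalIntegral.integral_sub i1 (cΦ.intervalIntegrable _ _), hint, sub_zero]
  have e3 : ∀ s, (wL s * Gp K1 K2 Λ e s).re -
        ((wL s).re * (Gp K1 K2 Λ e s).re + Real.log ‖V0 s‖ *
        (dFL e s * hL K1 K2 (FL Λ e s)).re) =
      -(Real.log ‖V0 s‖ * daL s) * (e * (hL K1 K2 (FL Λ e s)).im) +
        (wL s).im * (-(Gp K1 K2 Λ e s).im) := by
    intro s
    unfold dFL
    simp only [Complex.mul_re, Complex.mul_im, Complex.neg_re, Complex.neg_im, Complex.ofReal_re,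
      Complex.ofReal_im, Complex.I_re, Complex.I_im]
    ring
  have hF : ∀ s, 0 < (FL Λ e s).re := fun s => by rw [FL_re]; exact hΛ
  have ha : ∀ s, 0 ≤ -(Real.log ‖V0 s‖ * daL s) := fun s => by
    have := log_qq_sign s
    unfold V0 daL
    linarith
  have hb : ∀ s, 0 ≤ (hL K1 K2 (FL Λ e s)).im := fun s => by
    refine hL_im_nonneg h1.anK h2.anK s1 s2 he he1 he2 (hF s) ?_ ?_
    · rw [FL_im]
      have := aL_nonneg s
      have := mul_nonneg he.le this
      linarith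
    · rw [FL_im]
      have := mul_le_mul_of_nonneg_left (aL_le s) he.le
      linarith
  have hc : ∀ s, 0 ≤ (wL s).im * (-(Gp K1 K2 Λ e s).im) := fun s =>
    mul_nonneg (wL_im_pos s).le
      (by have := Gp_im_nonpos h1 h2 s1 s2 d1 d2 he he1 he2 hΛ s; linarith)
  rw [e1, e2]
  simp only [e3]
  refine intervalIntegral.integral_pos (by positivity) ?_ (fun s _ => ?_)
    ⟨Real.pi / 2, ⟨by positivity, by linarith⟩, ?_⟩
  · refine Continuous.continuousOn ?_
    refine ((cL.mul daL_continuous).neg.mul (continuous_const.mul (Complex.continuous_im.comp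
      (continuous_hL h1.anK h2.anK (FL_contDiff Λ e 0).continuous hF)))).add
      ((Complex.continuous_im.comp wL_continuous).mul (Complex.continuous_im.comp cG).neg)
  · exact add_nonneg (mul_nonneg (ha s) (mul_nonneg he.le (hb s))) (hc s)
  · refine add_pos_of_pos_of_nonneg (mul_pos ?_ (mul_pos he ?_)) (hc _)
    · have h3 := log_qq_half
      have h4 : daL (Real.pi / 2) = 4 := by
        unfold daL
        rw [Real.sin_pi_div_two, Real.cos_pi_div_two]
        norm_num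
      rw [h4]
      unfold V0
      linarith
    · have hpe : 0 < e * Real.pi := by positivity
      refine hL_im_pos h1.anK h2.anK s1 s2 he he1 he2 (hF _) ?_ ?_
      · rw [FL_im, aL_half]
        linarith
      · rw [FL_im, aL_half]
        linarith

/-- the regulator is negative -/
theorem reg_neg : regTorus (tri V0 (V1 z1 Λ e) (V2 z2 Λ e)) < 0 := by
  rw [regL h1 h2 hΛ]
  have := reg_pos h1 h2 s1 s2 d1 d2 he he1 he2 hΛ
  linarith

end main

end Pool.Agent.Helper11.K3H
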