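import Mathlib
import Pool.Agent.Helper11.K3H.Sign2

/-!
Scaling of kernels; the kernel of `4 z (1 - z)`.
-/

namespace Pool.Agent.Helper11.K3H

open Complex Set Filter Topology MeasureTheory Pool.Agent.Helper11 Pool.Agent.Helper12.K3

/-! ### scaling -/

/-- the scaled coordinate -/
noncomputable def scz (κ : ℝ) (zf : ℂ → ℂ) (η : ℂ) : ℂ := zf ((κ : ℂ) * η)

/-- the scaled kernel -/
noncomputable def scK (κ : ℝ) (K : ℂ → ℂ) (η : ℂ) : ℂ := (κ : ℂ) * K ((κ : ℂ) * η)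

lemma an_scale {f : ℂ → ℂ} (h : ∀ η ∈ Dm, AnalyticAt ℂ f η) (κ : ℝ) :
    ∀ η ∈ Dm, AnalyticAt ℂ (fun η => f ((κ : ℂ) * η)) η := by
  intro η hη
  exact AnalyticAt.comp (g := f) (f := fun η : ℂ => (κ : ℂ) * η) (h _ (smul_mem_Dm hη κ))
    (analyticAt_const.mul analyticAt_id)

lemma Ker.scale {zf K : ℂ → ℂ} (h : Ker zf K) (κ : ℝ) : Ker (scz κ zf) (scK κ K) where
  an := an_scale h.an κ
  anK := fun η hη => analyticAt_const.mul (an_scale h.anK κ η hη)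
  ne0 := fun η hη => h.ne0 _ (smul_mem_Dm hη κ)
  ne1 := fun η hη => h.ne1 _ (smul_mem_Dm hη κ)
  der := fun η hη => by
    have h1 : HasDerivAt (fun η : ℂ => (κ : ℂ) * η) ((κ : ℂ) * 1) η :=
      (hasDerivAt_id η).const_mul (κ : ℂ)
    have h2 := HasDerivAt.comp (h₂ := zf) η (h.der _ (smul_mem_Dm hη κ)) h1
    refine h2.congr_deriv ?_
    unfold scz scK
    ring
  ev := fun x => by
    have h1 := h.ev (κ * x)
    push_cast at h1
    unfold scz
    rw [mul_neg]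
    exact h1

lemma Kev_scK (κ : ℝ) (K : ℂ → ℂ) (η : ℂ) :
    Kev (scK κ K) η = (κ : ℂ) * Kev K ((κ : ℂ) * η) := by
  unfold Kev scK
  rw [mul_neg]
  ring

lemma sq_im_scale (κ : ℝ) (η : ℂ) : (((κ : ℂ) * η) ^ 2).im = κ ^ 2 * (η ^ 2).im := by
  rw [mul_pow, ← Complex.ofReal_pow, Complex.im_ofReal_mul]

lemma Sect.scale {K : ℂ → ℂ} {M : ℝ} (h : Sect K M) (hM : 0 < M) {κ N : ℝ} (hκ : 0 < κ)
    (hN : κ ^ 2 * N = 1) : Sect (scK κ K) (N * M) := by
  intro η hη h1 h2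
  have hκ2 : 0 < κ ^ 2 := by positivity
  have hN0 : 0 < N := by
    by_contra hcon
    push Not at hcon
    nlinarith
  have e1 : κ ^ 2 * (2 * Real.pi * (N * M)) = 2 * Real.pi * M := by
    linear_combination (2 * Real.pi * M) * hN
  have e2 : κ ^ 2 * (Real.pi * (N * M)) = Real.pi * M := by
    linear_combination (Real.pi * M) * hN
  obtain ⟨R, θ, hR, h3, h4, h5, h6⟩ := h _ (smul_mem_Dm hη κ)
    (by rw [sq_im_scale]; exact mul_nonpos_of_nonneg_of_nonpos hκ2.le h1)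
    (by
      rw [sq_im_scale]
      have := mul_le_mul_of_nonneg_left h2 hκ2.le
      linarith)
  rw [sq_im_scale] at h4 h5
  refine ⟨κ * R, θ, by positivity, h3, h4.trans_eq ?_, ?_, ?_⟩
  · have hk : κ ^ 2 = 1 / N := by
      rw [eq_div_iff hN0.ne']
      exact hN
    rw [hk]
    field_simp
  · intro h7 h8
    refine h5 ?_ (mul_neg_of_pos_of_neg hκ2 h8)
    have := mul_le_mul_of_nonneg_left h7 hκ2.le
    linarith
  · rw [Kev_scK, h6]
    push_cast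
    ring

lemma Dec.scale {K : ℂ → ℂ} (h : Dec K) {κ : ℝ} (hκ : 0 < κ) (hκ1 : κ ≤ 1) : Dec (scK κ K) := by
  obtain ⟨C, δ, hC, hδ, hd⟩ := h
  refine ⟨κ * C, δ * κ ^ 2, by positivity, by positivity, fun F c hF hc => ?_⟩
  have h1 := hd F (κ * c) hF (by
    rw [abs_mul, abs_of_pos hκ]
    exact mul_le_one₀ hκ1 (abs_nonneg c) hc)
  rw [Kev_scK, norm_mul, Complex.norm_real, Real.norm_of_nonneg hκ.le]
  have e1 : (κ : ℂ) * (rt F * (c : ℂ)) = rt F * ((κ * c : ℝ) : ℂ) := by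
    push_cast
    ring
  have e2 : δ * κ ^ 2 * c ^ 2 * F.re = δ * (κ * c) ^ 2 * F.re := by ring
  rw [e1, e2, mul_assoc κ C, mul_assoc κ (C * _)]
  exact mul_le_mul_of_nonneg_left h1 hκ.le

/-! ### the first kernel -/

/-- the coordinate -/
noncomputable def zs (η : ℂ) : ℂ := (1 + I * S η) / 2

/-- the kernel -/
noncomputable def Ks (η : ℂ) : ℂ := kp (η ^ 2)

lemma psi_Dm {η : ℂ} (h : η ∈ Dm) : psi (η ^ 2) ∈ slitPlane := by
  apply psi_mem
  rcases h with h | h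
  · exact Or.inl h
  · right
    rw [h]
    ring

lemma Ks_an {η : ℂ} (h : η ∈ Dm) : AnalyticAt ℂ Ks η :=
  AnalyticAt.comp (g := kp) (f := fun η : ℂ => η ^ 2) (kp_analyticAt (psi_Dm h))
    (analyticAt_id.pow 2)

lemma zs_rel (η : ℂ) : 4 * (zs η * (1 - zs η)) = exp (η ^ 2) := by
  have h := S_sq η
  have hI := I_sq
  unfold zs
  linear_combination h - (S η) ^ 2 * hI

lemma uq_zs (η : ℂ) (h : zs η ≠ 0) : uq (zs η) = qq (I * S η) := by
  unfold uq qq zs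
  unfold zs at h
  have h1 : 1 + I * S η ≠ 0 := by
    intro h2
    apply h
    rw [h2]
    ring
  have h2 : I * S η + 1 ≠ 0 := by rwa [add_comm] at h1
  field_simp
  ring

lemma zs_ne (η : ℂ) : zs η ≠ 0 ∧ zs η ≠ 1 := by
  have h := zs_rel η
  have h1 := Complex.exp_ne_zero (η ^ 2)
  constructor
  · intro h2
    rw [h2] at h
    apply h1
    rw [← h]
    ring
  · intro h2
    rw [h2] at h
    apply h1
    rw [← h]
    ring

lemma norm_qq_I' (y : ℝ) : ‖qq (I * (y : ℂ))‖ = 1 := by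
  unfold qq
  have h1 : ‖I * (y : ℂ) - 1‖ = ‖I * (y : ℂ) + 1‖ := by
    rw [Complex.norm_def, Complex.norm_def]
    congr 1
    simp [Complex.normSq_apply]
  have h2 : ‖I * (y : ℂ) + 1‖ ≠ 0 := by
    intro h
    rw [norm_eq_zero] at h
    have := congrArg Complex.re h
    simp at this
  rw [norm_div, h1, div_self h2]

theorem kers : Ker zs Ks where
  an := fun η hη => ((analyticAt_const.add (analyticAt_const.mul (S_analyticAt (psi_Dm hη))))).div_const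
  anK := fun η hη => Ks_an hη
  ne0 := fun η _ => (zs_ne η).1
  ne1 := fun η _ => (zs_ne η).2
  der := fun η hη => by
    have h1 := (((hasDerivAt_S (psi_Dm hη)).const_mul I).const_add 1).div_const 2
    refine h1.congr_deriv ?_
    have h := zs_rel η
    unfold Ks
    linear_combination (-(I * kp (η ^ 2)) / 2) * h
  ev := fun x => by
    have h1 : ∀ x : ℝ, ‖uq (zs x)‖ = 1 := by
      intro x
      rw [uq_zs _ (zs_ne _).1]
      obtain ⟨y, hy⟩ := S_real x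
      rw [hy]
      exact norm_qq_I' y
    have h2 := h1 (-x)
    push_cast at h2
    rw [h1, h2]

lemma Kev_Ks (η : ℂ) : Kev Ks η = kp (η ^ 2) := by
  unfold Kev Ks
  rw [neg_sq]
  ring

lemma kp_zero : kp 0 = 1 := by
  unfold kp
  rw [psi_zero]
  have : rt (1 : ℂ) = 1 := by
    have := rt_ofReal (x := 1) (by norm_num)
    simpa using this
  rw [this]
  simp

lemma kp_sector' {η : ℂ} (h : η ∈ Dm) (h2 : (η ^ 2).im ≤ 0) :
    ∃ R θ : ℝ, 0 < R ∧ 0 ≤ θ ∧ θ ≤ -(η ^ 2).im / 2 ∧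
      (-Real.pi ≤ (η ^ 2).im → (η ^ 2).im < 0 → 0 < θ) ∧ kp (η ^ 2) = R * exp (θ * I) := by
  rcases h with h | h
  · exact kp_sector h h2
  · refine ⟨1, 0, one_pos, le_rfl, ?_, ?_, ?_⟩
    · rw [h]
      simp
    · intro _ h3
      rw [h] at h3
      simp at h3
    · rw [h]
      simp [kp_zero]

theorem sects : Sect Ks 1 := by
  intro η hη h1 _
  obtain ⟨R, θ, hR, h3, h4, h5, h6⟩ := kp_sector' hη h1
  refine ⟨R, θ, hR, h3, by simpa using h4, by simpa using h5, ?_⟩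
  rw [Kev_Ks, h6]

/-- the decay of `kp` -/
lemma kp_decay {F : ℂ} {c : ℝ} (hF : 0 < F.re) (hc : |c| ≤ 1) :
    ‖kp ((rt F * (c : ℂ)) ^ 2)‖ ≤ Real.exp (-(c ^ 2 * F.re / 2)) *
      Real.sqrt (‖F‖ * (1 + F.re) / F.re) := by
  have hc2 : c ^ 2 ≤ 1 := by
    rw [← sq_abs]
    exact pow_le_one₀ (abs_nonneg c) hc
  have h1 := norm_psi_ge hF (sq_nonneg c) hc2
  rw [eta_sq]
  unfold kp
  have hn : 0 < ‖F‖ := lt_of_lt_of_le hF (Complex.re_le_norm F)
  have hQ : 0 < F.re / (‖F‖ * (1 + F.re)) := by positivity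
  have h2 : Real.sqrt (F.re / (‖F‖ * (1 + F.re))) ≤ ‖rt (psi (((c ^ 2 : ℝ) : ℂ) * F))‖ := by
    rw [← Real.sqrt_sq (norm_nonneg (rt (psi (((c ^ 2 : ℝ) : ℂ) * F)))), norm_rt_sq]
    exact Real.sqrt_le_sqrt h1
  have h3 : 0 < Real.sqrt (F.re / (‖F‖ * (1 + F.re))) := Real.sqrt_pos.2 hQ
  rw [norm_div, Complex.norm_exp]
  have e1 : (-(((c ^ 2 : ℝ) : ℂ) * F) / 2).re = -(c ^ 2 * F.re / 2) := by
    have : -(((c ^ 2 : ℝ) : ℂ) * F) / 2 = ((-(c ^ 2) / 2 : ℝ) : ℂ) * F := by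
      push_cast
      ring
    rw [this, Complex.re_ofReal_mul]
    ring
  rw [e1]
  have e2 : Real.sqrt (‖F‖ * (1 + F.re) / F.re) = 1 / Real.sqrt (F.re / (‖F‖ * (1 + F.re))) := by
    rw [← Real.sqrt_one, ← Real.sqrt_div (by norm_num), one_div_div]
  rw [e2, mul_one_div]
  exact div_le_div_of_nonneg_left (Real.exp_pos _).le h3 h2

theorem decs : Dec Ks := by
  refine ⟨1, 1 / 2, by norm_num, by norm_num, fun F c hF hc => ?_⟩
  rw [Kev_Ks, one_mul]
  have h := kp_decay hF hc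
  have e1 : -(1 / 2 * c ^ 2 * F.re) = -(c ^ 2 * F.re / 2) := by ring
  rw [e1]
  exact h

end Pool.Agent.Helper11.K3H
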