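import Mathlib
import Pool.Agent.Helper11.K3H.Kern1

/-!
The kernel of `27/4 z (1 - z)²`: definitions.
-/

namespace Pool.Agent.Helper11.K3H

open Complex Set Filter Topology MeasureTheory Pool.Agent.Helper11 Pool.Agent.Helper12.K3

/-- a square root of `1 - exp (-η²)` -/
noncomputable def vv (η : ℂ) : ℂ := η * rt (psi (η ^ 2))

lemma vv_sq (η : ℂ) : vv η ^ 2 = 1 - exp (-(η ^ 2)) := by
  unfold vv
  rw [mul_pow, rt_sq, mul_psi]

lemma vv_neg (η : ℂ) : vv (-η) = -vv η := by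
  unfold vv
  rw [neg_sq]
  ring

lemma vv_zero : vv 0 = 0 := by
  unfold vv
  rw [zero_mul]

lemma S_eq (η : ℂ) : S η = exp (η ^ 2 / 2) * vv η := by
  unfold S vv
  ring

lemma vv_eq (η : ℂ) : vv η = S η * exp (-(η ^ 2 / 2)) := by
  rw [S_eq]
  have : exp (η ^ 2 / 2) * exp (-(η ^ 2 / 2)) = 1 := by
    rw [← Complex.exp_add]
    simp
  linear_combination (-(vv η)) * this

lemma rt_self {η : ℂ} (h' : 0 < η.re) (h : 0 < (η ^ 2).re) : rt (η ^ 2) = η :=
  eq_of_sq_eq_of_re_pos (rt_sq _) (rt_re_pos (mem_slit_of_re h)) h'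

lemma vv_rt {η : ℂ} (h' : 0 < η.re) (h : 0 < (η ^ 2).re) : vv η = rt (1 - exp (-(η ^ 2))) := by
  unfold vv
  rw [rt_psi_eq h, rt_self h' h]
  have h0 : η ≠ 0 := by
    intro h0
    rw [h0] at h'
    simp at h'
  field_simp

lemma vv_re {η : ℂ} (h' : 0 < η.re) (h : 0 < (η ^ 2).re) : 0 < (vv η).re := by
  rw [vv_rt h' h]
  exact rt_re_pos (mem_slit_of_re (re_one_sub_exp_neg h))

lemma re_ne {η : ℂ} (h : 0 < (η ^ 2).re) : η.re ≠ 0 := by
  intro h0
  have h1 : (η ^ 2).re = η.re ^ 2 - η.im ^ 2 := by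
    rw [sq, Complex.mul_re]
    ring
  rw [h1, h0] at h
  nlinarith [sq_nonneg η.im]

lemma one_vv_re {η : ℂ} (h : η ∈ Dm) (h' : 0 ≤ η.re) : 0 < (1 + vv η).re := by
  rw [Complex.add_re, Complex.one_re]
  rcases h with h | h
  · have := vv_re (lt_of_le_of_ne h' (re_ne h).symm) h
    linarith
  · rw [h, vv_zero]
    norm_num

/-- the logarithm of `exp (η²/2) + S η` -/
noncomputable def LL (η : ℂ) : ℂ := η ^ 2 / 2 + log (1 + vv η)

lemma exp_LL {η : ℂ} (h : 1 + vv η ≠ 0) : exp (LL η) = exp (η ^ 2 / 2) + S η := by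
  unfold LL
  rw [Complex.exp_add, Complex.exp_log h, S_eq]
  ring

/-- the function with `sinh (AA η) = S η`, `cosh (AA η) = exp (η²/2)` -/
noncomputable def AA (η : ℂ) : ℂ := if 0 ≤ η.re then LL η else -LL (-η)

lemma S_neg (η : ℂ) : S (-η) = -S η := by
  unfold S
  rw [neg_sq]
  ring

lemma e_sq_sub (η : ℂ) : (exp (η ^ 2 / 2) + S η) * (exp (η ^ 2 / 2) - S η) = 1 := by
  have h := S_sq η
  have hE : exp (η ^ 2) = exp (η ^ 2 / 2) * exp (η ^ 2 / 2) := by
    rw [← Complex.exp_add]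
    ring_nf
  linear_combination -h - hE

lemma exp_AA {η : ℂ} (h : η ∈ Dm) : exp (AA η) = exp (η ^ 2 / 2) + S η := by
  unfold AA
  split_ifs with h0
  · refine exp_LL fun h1 => ?_
    have := one_vv_re h h0
    rw [h1] at this
    simp at this
  · push Not at h0
    have h1 : exp (LL (-η)) = exp (η ^ 2 / 2) - S η := by
      have h2 := one_vv_re (neg_mem_Dm h) (by rw [Complex.neg_re]; linarith)
      rw [exp_LL (by
        intro h3
        rw [h3] at h2
        simp at h2), S_neg, neg_sq]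
      ring
    have h2 := e_sq_sub η
    have h3 : exp (η ^ 2 / 2) - S η ≠ 0 := right_ne_zero_of_mul_eq_one h2
    rw [Complex.exp_neg, h1]
    rw [inv_eq_one_div, div_eq_iff h3]
    exact h2.symm

lemma exp_neg_AA {η : ℂ} (h : η ∈ Dm) : exp (-AA η) = exp (η ^ 2 / 2) - S η := by
  have h2 := e_sq_sub η
  have h3 := exp_AA h
  have h4 : exp (η ^ 2 / 2) + S η ≠ 0 := left_ne_zero_of_mul_eq_one h2
  rw [Complex.exp_neg, h3, inv_eq_one_div, div_eq_iff h4, mul_comm]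
  exact h2.symm

lemma cosh_AA {η : ℂ} (h : η ∈ Dm) : cosh (AA η) = exp (η ^ 2 / 2) := by
  rw [Complex.cosh, exp_AA h, exp_neg_AA h]
  ring

lemma LL_zero : LL 0 = 0 := by
  unfold LL
  rw [vv_zero]
  simp

lemma AA_zero : AA 0 = 0 := by
  unfold AA
  rw [if_pos (by simp), LL_zero]

lemma AA_neg {η : ℂ} (h : η ∈ Dm) : AA (-η) = -AA η := by
  rcases lt_trichotomy η.re 0 with h0 | h0 | h0
  · unfold AA
    rw [if_pos (by rw [Complex.neg_re]; linarith), if_neg (by linarith), neg_neg]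
  · have h1 : η = 0 := by
      rcases h with h | h
      · exact absurd h0 (re_ne h)
      · exact h
    rw [h1, neg_zero, AA_zero, neg_zero]
  · unfold AA
    rw [if_neg (by rw [Complex.neg_re]; linarith), if_pos h0.le, neg_neg]

lemma vv_an {η : ℂ} (h : psi (η ^ 2) ∈ slitPlane) : AnalyticAt ℂ vv η := by
  have h1 : AnalyticAt ℂ (fun z : ℂ => z ^ 2) η := analyticAt_id.pow 2
  have h2 : AnalyticAt ℂ (fun z : ℂ => psi (z ^ 2)) η := (psi_analyticAt _).comp h1
  have h3 : AnalyticAt ℂ (fun z : ℂ => rt (psi (z ^ 2))) η :=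
    AnalyticAt.comp (g := rt) (f := fun z : ℂ => psi (z ^ 2)) (rt_analyticAt h) h2
  exact analyticAt_id.mul h3

lemma vv_deriv {η : ℂ} (h : psi (η ^ 2) ∈ slitPlane) :
    HasDerivAt vv (1 / rt (psi (η ^ 2)) - η * vv η) η := by
  have h0 : HasDerivAt (fun z : ℂ => z ^ 2) (2 * η) η := by
    simpa using hasDerivAt_pow 2 η
  have h1 : HasDerivAt (fun z : ℂ => exp (-(z ^ 2 / 2))) (exp (-(η ^ 2 / 2)) * -(2 * η / 2)) η :=
    ((h0.div_const 2).neg).cexp
  have h2 := (hasDerivAt_S h).mul h1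
  have h3 : vv = fun η => S η * exp (-(η ^ 2 / 2)) := funext vv_eq
  rw [h3]
  refine h2.congr_deriv ?_
  have hr := rt_ne h
  have e1 : exp (η ^ 2) = exp (η ^ 2 / 2) * exp (η ^ 2 / 2) := by
    rw [← Complex.exp_add]
    ring_nf
  have e2 : exp (η ^ 2 / 2) * exp (-(η ^ 2 / 2)) = 1 := by
    rw [← Complex.exp_add]
    simp
  have e3 : exp (-η ^ 2 / 2) = exp (-(η ^ 2 / 2)) := by
    congr 1
    ring
  unfold kp
  rw [e3, e1]
  field_simp
  linear_combination (exp (η ^ 2 / 2) * exp (-(η ^ 2 / 2)) + 1) * e2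

lemma LL_deriv {η : ℂ} (h : psi (η ^ 2) ∈ slitPlane) (h' : 1 + vv η ∈ slitPlane) :
    HasDerivAt LL (1 / rt (psi (η ^ 2))) η := by
  have h0 : HasDerivAt (fun z : ℂ => z ^ 2 / 2) (2 * η / 2) η := by
    have := (hasDerivAt_pow 2 η).div_const 2
    simpa using this
  have h1 := h0.add (((vv_deriv h).const_add 1).clog h')
  refine h1.congr_deriv ?_
  have hr := rt_ne h
  have hv := Complex.slitPlane_ne_zero h'
  have e1 : vv η = η * rt (psi (η ^ 2)) := rfl
  field_simp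
  linear_combination -e1

lemma LL_an {η : ℂ} (h : psi (η ^ 2) ∈ slitPlane) (h' : 1 + vv η ∈ slitPlane) :
    AnalyticAt ℂ LL η := by
  have h1 : AnalyticAt ℂ (fun z : ℂ => z ^ 2 / 2) η := (analyticAt_id.pow 2).div_const
  exact h1.add ((analyticAt_const.add (vv_an h)).clog h')

lemma AA_near_zero : AA =ᶠ[𝓝 0] LL := by
  have hp : psi ((0 : ℂ) ^ 2) ∈ slitPlane := psi_Dm zero_mem_Dm
  have hv : (1 : ℂ) + vv 0 ∈ slitPlane := by
    rw [vv_zero, add_zero]
    exact Complex.one_mem_slitPlane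
  have hc : ContinuousAt LL 0 := (LL_an hp hv).continuousAt
  have hcv : ContinuousAt (fun η => 1 + vv η) 0 :=
    (analyticAt_const.add (vv_an hp)).continuousAt
  have hneg : Tendsto (fun η : ℂ => -η) (𝓝 0) (𝓝 0) := by
    have : Continuous fun η : ℂ => -η := continuous_neg
    simpa using this.tendsto 0
  have h1 : ∀ᶠ η in 𝓝 (0 : ℂ), ‖LL η‖ < 1 := by
    have := hc.tendsto.norm
    rw [LL_zero, norm_zero] at this
    exact this.eventually (gt_mem_nhds one_pos)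
  have h2 : ∀ᶠ η in 𝓝 (0 : ℂ), ‖LL (-η)‖ < 1 := hneg.eventually h1
  have h3 : ∀ᶠ η in 𝓝 (0 : ℂ), 1 + vv η ≠ 0 := by
    have := hcv.eventually_ne (y := 0) (by rw [vv_zero]; simp)
    exact this
  have h4 : ∀ᶠ η in 𝓝 (0 : ℂ), 1 + vv (-η) ≠ 0 := hneg.eventually h3
  filter_upwards [h1, h2, h3, h4] with η a1 a2 a3 a4
  unfold AA
  split_ifs with h0
  · rfl
  · have e1 : exp (LL η + LL (-η)) = 1 := by
      rw [Complex.exp_add, exp_LL a3, exp_LL a4, S_neg, neg_sq]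
      exact e_sq_sub η
    rw [Complex.exp_eq_one_iff] at e1
    obtain ⟨n, hn⟩ := e1
    have e2 : ‖LL η + LL (-η)‖ < 2 := (norm_add_le _ _).trans_lt (by linarith)
    rw [hn] at e2
    have e3 : ‖(n : ℂ) * (2 * Real.pi * I)‖ = |(n : ℝ)| * (2 * Real.pi) := by
      rw [norm_mul, norm_mul, norm_mul, Complex.norm_I, Complex.norm_real,
        Real.norm_of_nonneg Real.pi_pos.le, Complex.norm_intCast]
      norm_num
    rw [e3] at e2
    have hn0 : n = 0 := by
      by_contra hcon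
      have h5 : (1 : ℝ) ≤ |(n : ℝ)| := by
        have := Int.one_le_abs hcon
        exact_mod_cast this
      have := Real.pi_gt_three
      nlinarith
    rw [hn0, Int.cast_zero, zero_mul] at hn
    linear_combination -hn

lemma AA_nhds {η : ℂ} (h : η ∈ Dm) :
    (AA =ᶠ[𝓝 η] LL ∧ 1 + vv η ∈ slitPlane) ∨
    ((AA =ᶠ[𝓝 η] fun ξ => -LL (-ξ)) ∧ 1 + vv (-η) ∈ slitPlane) := by
  rcases lt_trichotomy η.re 0 with h0 | h0 | h0
  · right
    refine ⟨?_, mem_slit_of_re (one_vv_re (neg_mem_Dm h) (by rw [Complex.neg_re]; linarith))⟩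
    have : ∀ᶠ ξ in 𝓝 η, ξ.re < 0 :=
      (Complex.continuous_re.continuousAt (x := η)).eventually (gt_mem_nhds h0)
    filter_upwards [this] with ξ hξ
    unfold AA
    rw [if_neg (by linarith)]
  · left
    refine ⟨?_, mem_slit_of_re (one_vv_re h h0.ge)⟩
    have h1 : η = 0 := by
      rcases h with h | h
      · exact absurd h0 (re_ne h)
      · exact h
    rw [h1]
    exact AA_near_zero
  · left
    refine ⟨?_, mem_slit_of_re (one_vv_re h h0.le)⟩
    have : ∀ᶠ ξ in 𝓝 η, 0 < ξ.re :=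
      (Complex.continuous_re.continuousAt (x := η)).eventually (lt_mem_nhds h0)
    filter_upwards [this] with ξ hξ
    unfold AA
    rw [if_pos hξ.le]

lemma AA_deriv {η : ℂ} (h : η ∈ Dm) : HasDerivAt AA (1 / rt (psi (η ^ 2))) η := by
  rcases AA_nhds h with ⟨h1, h2⟩ | ⟨h1, h2⟩
  · exact (LL_deriv (psi_Dm h) h2).congr_of_eventuallyEq h1
  · refine HasDerivAt.congr_of_eventuallyEq ?_ h1
    have h3 := LL_deriv (psi_Dm (neg_mem_Dm h)) h2
    have h4 := (HasDerivAt.comp (h₂ := LL) (h := fun ξ : ℂ => -ξ) η h3 (hasDerivAt_neg η)).neg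
    refine h4.congr_deriv ?_
    rw [neg_sq]
    ring

lemma AA_an {η : ℂ} (h : η ∈ Dm) : AnalyticAt ℂ AA η := by
  rcases AA_nhds h with ⟨h1, h2⟩ | ⟨h1, h2⟩
  · exact (LL_an (psi_Dm h) h2).congr h1.symm
  · refine AnalyticAt.congr ?_ h1.symm
    exact (AnalyticAt.comp (g := LL) (f := fun ξ : ℂ => -ξ) (LL_an (psi_Dm (neg_mem_Dm h)) h2)
      analyticAt_id.neg).neg

end Pool.Agent.Helper11.K3H
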