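import Mathlib
import Pool.Agent.Helper11.K3H.Kern2

/-!
The kernel of `27/4 z (1 - z)²`: the structure.
-/

namespace Pool.Agent.Helper11.K3H

open Complex Set Filter Topology MeasureTheory Pool.Agent.Helper11 Pool.Agent.Helper12.K3

/-- `√3` -/
noncomputable def r3 : ℝ := Real.sqrt 3

lemma r3_sq : r3 ^ 2 = 3 := Real.sq_sqrt (by norm_num)

lemma r3_pos : 0 < r3 := Real.sqrt_pos.2 (by norm_num)

lemma r3_sq' : (r3 : ℂ) ^ 2 = 3 := by
  have := r3_sq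
  exact_mod_cast congrArg (fun x : ℝ => (x : ℂ)) this

/-- `cosh (AA / 3)` -/
noncomputable def Cc (η : ℂ) : ℂ := cosh (AA η / 3)

/-- `sinh (AA / 3)` -/
noncomputable def Sc (η : ℂ) : ℂ := sinh (AA η / 3)

lemma Cc_sq (η : ℂ) : Cc η ^ 2 - Sc η ^ 2 = 1 := Complex.cosh_sq_sub_sinh_sq _

lemma Cc_neg {η : ℂ} (h : η ∈ Dm) : Cc (-η) = Cc η := by
  unfold Cc
  rw [AA_neg h, neg_div, Complex.cosh_neg]

lemma Sc_neg {η : ℂ} (h : η ∈ Dm) : Sc (-η) = -Sc η := by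
  unfold Sc
  rw [AA_neg h, neg_div, Complex.sinh_neg]

/-- the triplication formula -/
lemma Cc_three {η : ℂ} (h : η ∈ Dm) : 4 * Cc η ^ 3 - 3 * Cc η = exp (η ^ 2 / 2) := by
  rw [← cosh_AA h]
  unfold Cc
  rw [← Complex.cosh_three_mul]
  congr 1
  ring

/-- the coordinate -/
noncomputable def zc (η : ℂ) : ℂ := (Cc η + (r3 : ℂ) * I * Sc η) ^ 2 / 3

/-- the kernel -/
noncomputable def Kc (η : ℂ) : ℂ := ((r3 : ℂ) / 2 * Cc η - I / 2 * Sc η) * kp (η ^ 2)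

lemma one_sub_zc (η : ℂ) : 1 - zc η = 2 * Cc η / 3 * (Cc η - (r3 : ℂ) * I * Sc η) := by
  have h1 := Cc_sq η
  have h2 := r3_sq'
  have h3 := I_sq
  unfold zc
  linear_combination -h1 + (Sc η ^ 2 / 3) * (-1) * (I ^ 2) * h2 - Sc η ^ 2 * h3

lemma zc_rel {η : ℂ} (h : η ∈ Dm) : 27 / 4 * (zc η * (1 - zc η) ^ 2) = exp (η ^ 2) := by
  have h1 := Cc_sq η
  have h2 := r3_sq'
  have h3 := I_sq
  have h4 := Cc_three h
  have hE : exp (η ^ 2) = exp (η ^ 2 / 2) ^ 2 := by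
    rw [← Complex.exp_nat_mul]
    congr 1
    push_cast
    ring
  rw [hE, ← h4, one_sub_zc]
  unfold zc
  have e1 : (Cc η + (r3 : ℂ) * I * Sc η) * (Cc η - (r3 : ℂ) * I * Sc η) = 4 * Cc η ^ 2 - 3 := by
    linear_combination -3 * h1 - (Sc η ^ 2 * I ^ 2) * h2 - 3 * Sc η ^ 2 * h3
  have e2 : 27 / 4 * ((Cc η + (r3 : ℂ) * I * Sc η) ^ 2 / 3 *
      (2 * Cc η / 3 * (Cc η - (r3 : ℂ) * I * Sc η)) ^ 2) =
      Cc η ^ 2 * ((Cc η + (r3 : ℂ) * I * Sc η) * (Cc η - (r3 : ℂ) * I * Sc η)) ^ 2 := by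
    ring
  rw [e2, e1]
  ring

lemma zc_ne {η : ℂ} (h : η ∈ Dm) : zc η ≠ 0 ∧ zc η ≠ 1 := by
  have h1 := zc_rel h
  have h2 := Complex.exp_ne_zero (η ^ 2)
  constructor
  · intro h3
    rw [h3] at h1
    apply h2
    rw [← h1]
    ring
  · intro h3
    rw [h3] at h1
    apply h2
    rw [← h1]
    ring

lemma Cc_an {η : ℂ} (h : η ∈ Dm) : AnalyticAt ℂ Cc η := by
  have h1 : AnalyticAt ℂ (fun η => AA η / 3) η := (AA_an h).div_const
  exact AnalyticAt.comp (g := cosh) (f := fun η => AA η / 3)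
    (Complex.differentiable_cosh.analyticAt _) h1

lemma Sc_an {η : ℂ} (h : η ∈ Dm) : AnalyticAt ℂ Sc η := by
  have h1 : AnalyticAt ℂ (fun η => AA η / 3) η := (AA_an h).div_const
  exact AnalyticAt.comp (g := sinh) (f := fun η => AA η / 3)
    (Complex.differentiable_sinh.analyticAt _) h1

lemma Cc_deriv {η : ℂ} (h : η ∈ Dm) :
    HasDerivAt Cc (Sc η * (1 / rt (psi (η ^ 2)) / 3)) η :=
  ((AA_deriv h).div_const 3).ccosh

lemma Sc_deriv {η : ℂ} (h : η ∈ Dm) :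
    HasDerivAt Sc (Cc η * (1 / rt (psi (η ^ 2)) / 3)) η :=
  ((AA_deriv h).div_const 3).csinh

lemma kp_sq_eq {η : ℂ} (h : η ∈ Dm) : kp (η ^ 2) * (4 * Cc η ^ 3 - 3 * Cc η) =
    1 / rt (psi (η ^ 2)) := by
  rw [Cc_three h]
  unfold kp
  have hr := rt_ne (psi_Dm h)
  have e1 : exp (-(η ^ 2 / 2)) * exp (η ^ 2 / 2) = 1 := by
    rw [← Complex.exp_add]
    simp
  have e2 : -η ^ 2 / 2 = -(η ^ 2 / 2) := by ring
  rw [e2]
  field_simp
  exact e1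

lemma zc_deriv {η : ℂ} (h : η ∈ Dm) :
    HasDerivAt zc (2 * I * Kc η * (zc η * (1 - zc η))) η := by
  have h1 := (((Cc_deriv h).add ((Sc_deriv h).const_mul ((r3 : ℂ) * I))).pow 2).div_const 3
  refine h1.congr_deriv ?_
  have h2 := r3_sq'
  have h3 := I_sq
  have h4 := kp_sq_eq h
  have h5 := Cc_sq η
  rw [one_sub_zc]
  unfold Kc zc
  rw [← h4]
  simp only [Pi.add_apply, Nat.cast_ofNat, Nat.add_one_sub_one, pow_one]
  have e1 : (Cc η + (r3 : ℂ) * I * Sc η) * (Cc η - (r3 : ℂ) * I * Sc η) = 4 * Cc η ^ 2 - 3 := by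
    linear_combination -3 * h5 - (Sc η ^ 2 * I ^ 2) * h2 - 3 * Sc η ^ 2 * h3
  have e2 : 2 * I * (((r3 : ℂ) / 2 * Cc η - I / 2 * Sc η) * kp (η ^ 2)) *
      ((Cc η + (r3 : ℂ) * I * Sc η) ^ 2 / 3 *
        (2 * Cc η / 3 * (Cc η - (r3 : ℂ) * I * Sc η))) =
      2 * I * (((r3 : ℂ) / 2 * Cc η - I / 2 * Sc η) * kp (η ^ 2)) *
      ((Cc η + (r3 : ℂ) * I * Sc η) / 3 * (2 * Cc η / 3 *
        ((Cc η + (r3 : ℂ) * I * Sc η) * (Cc η - (r3 : ℂ) * I * Sc η)))) := by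
    ring
  rw [e2, e1]
  linear_combination (2 / 9 * Sc η * Cc η * (Cc η + (r3 : ℂ) * I * Sc η) *
    (4 * Cc η ^ 2 - 3) * kp (η ^ 2)) * h3

/-! ### real arguments -/

lemma AA_real_nonneg {x : ℝ} (hx : 0 ≤ x) : ∃ a : ℝ, AA (x : ℂ) = (a : ℂ) := by
  obtain ⟨y, hy0, -, -, hy⟩ := psi_real (sq_nonneg x)
  unfold AA
  rw [if_pos (by simpa using hx)]
  refine ⟨x ^ 2 / 2 + Real.log (1 + x * Real.sqrt y), ?_⟩
  unfold LL vv
  have h1 : psi ((x : ℂ) ^ 2) = (y : ℂ) := by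
    rw [← hy]
    push_cast
    rfl
  rw [h1, rt_ofReal hy0.le]
  push_cast
  rw [Complex.ofReal_log (by positivity)]
  push_cast
  rfl

lemma real_mem (x : ℝ) : (x : ℂ) ∈ Dm := by
  rcases eq_or_ne x 0 with h | h
  · right
    rw [h]
    simp
  · left
    rw [← Complex.ofReal_pow, Complex.ofReal_re]
    positivity

lemma AA_real (x : ℝ) : ∃ a : ℝ, AA (x : ℂ) = (a : ℂ) := by
  rcases le_total 0 x with h | h
  · exact AA_real_nonneg h
  · obtain ⟨a, ha⟩ := AA_real_nonneg (x := -x) (by linarith)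
    refine ⟨-a, ?_⟩
    have h1 := AA_neg (real_mem (-x))
    rw [ha] at h1
    push_cast at h1 ⊢
    rw [neg_neg] at h1
    exact h1

lemma zc_real (x : ℝ) : zc (-(x : ℂ)) = (starRingEnd ℂ) (zc x) := by
  obtain ⟨a, ha⟩ := AA_real x
  have hm := real_mem x
  have e1 : Cc (x : ℂ) = ((Real.cosh (a / 3) : ℝ) : ℂ) := by
    unfold Cc
    rw [ha]
    push_cast
    rfl
  have e2 : Sc (x : ℂ) = ((Real.sinh (a / 3) : ℝ) : ℂ) := by
    unfold Sc
    rw [ha]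
    push_cast
    rfl
  unfold zc
  rw [Cc_neg hm, Sc_neg hm, e1, e2, map_div₀, map_pow, map_add, map_mul, map_mul,
    Complex.conj_ofReal, Complex.conj_ofReal, Complex.conj_ofReal, Complex.conj_I]
  have : (starRingEnd ℂ) (3 : ℂ) = 3 := by
    have := Complex.conj_ofReal (3 : ℝ)
    simpa using this
  rw [this]
  ring

theorem kerc : Ker zc Kc where
  an := fun η hη => (((Cc_an hη).add (analyticAt_const.mul (Sc_an hη))).pow 2).div_const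
  anK := fun η hη => ((analyticAt_const.mul (Cc_an hη)).sub (analyticAt_const.mul (Sc_an hη))).mul
    (Ks_an hη)
  ne0 := fun η hη => (zc_ne hη).1
  ne1 := fun η hη => (zc_ne hη).2
  der := fun η hη => zc_deriv hη
  ev := fun x => by
    rw [zc_real]
    have : uq ((starRingEnd ℂ) (zc x)) = (starRingEnd ℂ) (uq (zc x)) := by
      unfold uq
      rw [map_div₀, map_sub, map_one]
    rw [this, Complex.norm_conj]

lemma Kev_Kc {η : ℂ} (h : η ∈ Dm) : Kev Kc η = (r3 : ℂ) / 2 * Cc η * kp (η ^ 2) := by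
  unfold Kev Kc
  rw [Cc_neg h, Sc_neg h, neg_sq]
  ring

end Pool.Agent.Helper11.K3H
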