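import Mathlib
import Pool.Agent.Helper11.K3H.Kern3

/-!
The kernel of `27/4 z (1 - z)²`: sector and decay.
-/

namespace Pool.Agent.Helper11.K3H

open Complex Set Filter Topology MeasureTheory Pool.Agent.Helper11 Pool.Agent.Helper12.K3

lemma cosh_re (w : ℂ) : (cosh w).re = Real.cosh w.re * Real.cos w.im := by
  conv_lhs => rw [← Complex.re_add_im w]
  rw [Complex.cosh_add, Complex.cosh_mul_I, Complex.sinh_mul_I, ← Complex.ofReal_cosh,
    ← Complex.ofReal_sinh, ← Complex.ofReal_cos, ← Complex.ofReal_sin]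
  simp only [Complex.add_re, Complex.add_im, Complex.mul_re, Complex.mul_im, Complex.ofReal_re,
    Complex.ofReal_im, Complex.I_re, Complex.I_im]
  ring

lemma cosh_im (w : ℂ) : (cosh w).im = Real.sinh w.re * Real.sin w.im := by
  conv_lhs => rw [← Complex.re_add_im w]
  rw [Complex.cosh_add, Complex.cosh_mul_I, Complex.sinh_mul_I, ← Complex.ofReal_cosh,
    ← Complex.ofReal_sinh, ← Complex.ofReal_cos, ← Complex.ofReal_sin]
  simp only [Complex.add_re, Complex.add_im, Complex.mul_re, Complex.mul_im, Complex.ofReal_re,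
    Complex.ofReal_im, Complex.I_re, Complex.I_im]
  ring

lemma sinh_re (w : ℂ) : (sinh w).re = Real.sinh w.re * Real.cos w.im := by
  conv_lhs => rw [← Complex.re_add_im w]
  rw [Complex.sinh_add, Complex.cosh_mul_I, Complex.sinh_mul_I, ← Complex.ofReal_cosh,
    ← Complex.ofReal_sinh, ← Complex.ofReal_cos, ← Complex.ofReal_sin]
  simp only [Complex.add_re, Complex.add_im, Complex.mul_re, Complex.mul_im, Complex.ofReal_re,
    Complex.ofReal_im, Complex.I_re, Complex.I_im]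
  ring

lemma sinh_im (w : ℂ) : (sinh w).im = Real.cosh w.re * Real.sin w.im := by
  conv_lhs => rw [← Complex.re_add_im w]
  rw [Complex.sinh_add, Complex.cosh_mul_I, Complex.sinh_mul_I, ← Complex.ofReal_cosh,
    ← Complex.ofReal_sinh, ← Complex.ofReal_cos, ← Complex.ofReal_sin]
  simp only [Complex.add_re, Complex.add_im, Complex.mul_re, Complex.mul_im, Complex.ofReal_re,
    Complex.ofReal_im, Complex.I_re, Complex.I_im]
  ring

/-- the basic inequality -/
lemma im_conj_exp {l : ℂ} (h0 : l.im ≤ 0) (h1 : -Real.pi ≤ l.im) :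
    0 ≤ ((starRingEnd ℂ) (exp l - 1) * l).im := by
  have hk := key_ineq l.re (y := -l.im) (by linarith) (by linarith)
  rw [Complex.mul_im, Complex.conj_re, Complex.conj_im, Complex.sub_re, Complex.sub_im,
    Complex.one_re, Complex.one_im, Complex.exp_re, Complex.exp_im]
  rw [Real.cos_neg, Real.sin_neg] at hk
  have h2 := mul_le_mul_of_nonneg_left hk (Real.exp_pos l.re).le
  have h3 : Real.exp l.re * Real.exp (-l.re) = 1 := by rw [← Real.exp_add]; simp
  have h4 : Real.exp l.re * (-l.im * Real.exp (-l.re)) = -l.im := by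
    linear_combination (-l.im) * h3
  rw [h4] at h2
  nlinarith

section main

variable {η : ℂ} (h : 0 < (η ^ 2).re) (h' : 0 < η.re)

include h h'

lemma AA_eq : AA η = LL η := by
  unfold AA
  rw [if_pos h'.le]

lemma one_vv_norm : 1 < ‖1 + vv η‖ := by
  have h1 := vv_re h' h
  have h2 := Complex.re_le_norm (1 + vv η)
  rw [Complex.add_re, Complex.one_re] at h2
  linarith

lemma AA_re : (AA η).re = (η ^ 2).re / 2 + Real.log ‖1 + vv η‖ := by
  rw [AA_eq h h']
  unfold LL
  rw [Complex.add_re, Complex.log_re]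
  congr 1
  have : η ^ 2 / 2 = ((1 / 2 : ℝ) : ℂ) * η ^ 2 := by
    push_cast
    ring
  rw [this, Complex.re_ofReal_mul]
  ring

lemma AA_im : (AA η).im = (η ^ 2).im / 2 + (1 + vv η).arg := by
  rw [AA_eq h h']
  unfold LL
  rw [Complex.add_im, Complex.log_im]
  congr 1
  have : η ^ 2 / 2 = ((1 / 2 : ℝ) : ℂ) * η ^ 2 := by
    push_cast
    ring
  rw [this, Complex.im_ofReal_mul]
  ring

lemma AA_re_pos : 0 < (AA η).re := by
  rw [AA_re h h']
  have := Real.log_pos (one_vv_norm h h')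
  linarith

lemma half_exp_re : (exp (η ^ 2 / 2)).re = Real.exp ((η ^ 2).re / 2) * Real.cos ((η ^ 2).im / 2) := by
  have : η ^ 2 / 2 = ((1 / 2 : ℝ) : ℂ) * η ^ 2 := by
    push_cast
    ring
  rw [this, Complex.exp_re, Complex.re_ofReal_mul, Complex.im_ofReal_mul]
  ring_nf

lemma half_exp_im : (exp (η ^ 2 / 2)).im = Real.exp ((η ^ 2).re / 2) * Real.sin ((η ^ 2).im / 2) := by
  have : η ^ 2 / 2 = ((1 / 2 : ℝ) : ℂ) * η ^ 2 := by
    push_cast
    ring
  rw [this, Complex.exp_im, Complex.re_ofReal_mul, Complex.im_ofReal_mul]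
  ring_nf

lemma arg_one_vv : |(1 + vv η).arg| < Real.pi / 2 := by
  rw [Complex.abs_arg_lt_pi_div_two_iff]
  left
  have h1 := vv_re h' h
  rw [Complex.add_re, Complex.one_re]
  linarith

variable (hi : (η ^ 2).im ≤ 0) (hi' : -(2 * Real.pi) ≤ (η ^ 2).im)

include hi hi'

lemma AA_im_bounds : -Real.pi ≤ (AA η).im ∧ (AA η).im ≤ 0 ∧ ((η ^ 2).im < 0 → (AA η).im < 0) := by
  have hpi := Real.pi_pos
  have ha := AA_re_pos h h'
  have hb := AA_im h h'
  have harg := abs_lt.1 (arg_one_vv h h')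
  have hc := cosh_AA (Or.inl h : η ∈ Dm)
  have hs : 0 < Real.sinh (AA η).re := Real.sinh_pos_iff.2 ha
  have e1 : Real.sinh (AA η).re * Real.sin (AA η).im =
      Real.exp ((η ^ 2).re / 2) * Real.sin ((η ^ 2).im / 2) := by
    rw [← cosh_im, hc, half_exp_im h h']
  have e2 : Real.cosh (AA η).re * Real.cos (AA η).im =
      Real.exp ((η ^ 2).re / 2) * Real.cos ((η ^ 2).im / 2) := by
    rw [← cosh_re, hc, half_exp_re h h']
  have hE := Real.exp_pos ((η ^ 2).re / 2)
  have h3 : Real.sin ((η ^ 2).im / 2) ≤ 0 :=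
    Real.sin_nonpos_of_nonpos_of_neg_pi_le (by linarith) (by linarith)
  have h4 : Real.sin (AA η).im ≤ 0 := by
    by_contra hcon
    push Not at hcon
    have := mul_pos hs hcon
    rw [e1] at this
    have := mul_nonpos_of_nonneg_of_nonpos hE.le h3
    linarith
  have h5 : (AA η).im ≤ 0 := by
    by_contra hcon
    push Not at hcon
    have := Real.sin_pos_of_pos_of_lt_pi hcon (by linarith)
    linarith
  refine ⟨?_, h5, ?_⟩
  · by_contra hcon
    push Not at hcon
    have h6 : 0 < Real.sin ((AA η).im + 2 * Real.pi) :=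
      Real.sin_pos_of_pos_of_lt_pi (by linarith) (by linarith)
    rw [Real.sin_add_two_pi] at h6
    linarith
  · intro h6
    refine lt_of_le_of_ne h5 fun h7 => ?_
    rw [h7, Real.sin_zero, mul_zero] at e1
    rw [h7, Real.cos_zero, mul_one] at e2
    have h8 : Real.sin ((η ^ 2).im / 2) = 0 := by
      rcases mul_eq_zero.1 e1.symm with h9 | h9
      · exact absurd h9 hE.ne'
      · exact h9
    have h9 : (η ^ 2).im = -(2 * Real.pi) := by
      by_contra hcon
      have h10 : -(2 * Real.pi) < (η ^ 2).im := lt_of_le_of_ne hi' (Ne.symm hcon)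
      have := Real.sin_neg_of_neg_of_neg_pi_lt (x := (η ^ 2).im / 2) (by linarith) (by linarith)
      linarith
    have h10 : Real.cos ((η ^ 2).im / 2) = -1 := by
      rw [h9]
      have : -(2 * Real.pi) / 2 = -Real.pi := by ring
      rw [this, Real.cos_neg, Real.cos_pi]
    rw [h10] at e2
    have := Real.cosh_pos (AA η).re
    nlinarith

omit h h' hi hi' in
lemma div3_re (w : ℂ) : (w / 3).re = w.re / 3 := by
  have : w / 3 = ((1 / 3 : ℝ) : ℂ) * w := by
    push_cast
    ring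
  rw [this, Complex.re_ofReal_mul]
  ring

omit h h' hi hi' in
lemma div3_im (w : ℂ) : (w / 3).im = w.im / 3 := by
  have : w / 3 = ((1 / 3 : ℝ) : ℂ) * w := by
    push_cast
    ring
  rw [this, Complex.im_ofReal_mul]
  ring

lemma CS_facts : 0 < (Cc η).re ∧ (Cc η).im ≤ 0 ∧ ((η ^ 2).im < 0 → (Cc η).im < 0) ∧
    0 < (Sc η).re ∧ (Sc η).im ≤ 0 ∧ 1 / 4 ≤ normSq (Cc η) := by
  have hpi := Real.pi_pos
  have ha := AA_re_pos h h'
  obtain ⟨hb1, hb2, hb3⟩ := AA_im_bounds h h' hi hi'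
  have hcos : 1 / 2 ≤ Real.cos ((AA η).im / 3) := by
    rw [← Real.cos_pi_div_three, ← Real.cos_neg ((AA η).im / 3)]
    exact Real.cos_le_cos_of_nonneg_of_le_pi (by linarith) (by linarith) (by linarith)
  have hsin : Real.sin ((AA η).im / 3) ≤ 0 :=
    Real.sin_nonpos_of_nonpos_of_neg_pi_le (by linarith) (by linarith)
  have hsh : 0 < Real.sinh ((AA η).re / 3) := Real.sinh_pos_iff.2 (by linarith)
  have hch : 0 < Real.cosh ((AA η).re / 3) := Real.cosh_pos _
  unfold Cc Sc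
  refine ⟨?_, ?_, ?_, ?_, ?_, ?_⟩
  · rw [cosh_re, div3_re, div3_im]
    exact mul_pos hch (by linarith)
  · rw [cosh_im, div3_re, div3_im]
    exact mul_nonpos_of_nonneg_of_nonpos hsh.le hsin
  · intro h6
    rw [cosh_im, div3_re, div3_im]
    have h7 := hb3 h6
    exact mul_neg_of_pos_of_neg hsh
      (Real.sin_neg_of_neg_of_neg_pi_lt (by linarith) (by linarith))
  · rw [sinh_re, div3_re, div3_im]
    exact mul_pos hsh (by linarith)
  · rw [sinh_im, div3_re, div3_im]
    exact mul_nonpos_of_nonneg_of_nonpos hch.le hsin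
  · rw [Complex.normSq_apply, cosh_re, cosh_im, div3_re, div3_im]
    have h1 := Real.cosh_sq ((AA η).re / 3)
    have h2 := Real.sin_sq_add_cos_sq ((AA η).im / 3)
    have h3 : Real.cosh ((AA η).re / 3) * Real.cos ((AA η).im / 3) *
        (Real.cosh ((AA η).re / 3) * Real.cos ((AA η).im / 3)) +
        Real.sinh ((AA η).re / 3) * Real.sin ((AA η).im / 3) *
        (Real.sinh ((AA η).re / 3) * Real.sin ((AA η).im / 3)) =
        Real.sinh ((AA η).re / 3) ^ 2 + Real.cos ((AA η).im / 3) ^ 2 := by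
      linear_combination (Real.cos ((AA η).im / 3) ^ 2) * h1 +
        (Real.sinh ((AA η).re / 3) ^ 2) * h2
    rw [h3]
    nlinarith [sq_nonneg (Real.sinh ((AA η).re / 3))]

/-- the sign of `Im (η² conj (Sc η)²)` -/
lemma im_eta_S : 0 ≤ (η ^ 2 * (starRingEnd ℂ) (Sc η ^ 2)).im := by
  have hpi := Real.pi_pos
  obtain ⟨c1, c2, c3, c4, c5, c6⟩ := CS_facts h h' hi hi'
  have hC0 : Cc η ≠ 0 := by
    intro h0
    rw [h0] at c1
    simp at c1
  have hη : η ∈ Dm := Or.inl h
  have h3 := Cc_three hη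
  have h4 := Cc_sq η
  have hargC : (Cc η).arg ≤ 0 ∧ -(Real.pi / 2) < (Cc η).arg := by
    have h5 := (Complex.abs_arg_lt_pi_div_two_iff.2 (Or.inl c1) : |(Cc η).arg| < Real.pi / 2)
    refine ⟨?_, (abs_lt.1 h5).1⟩
    by_contra hcon
    push Not at hcon
    have h6 : 0 < Real.sin (Cc η).arg :=
      Real.sin_pos_of_pos_of_lt_pi hcon (by linarith [(abs_lt.1 h5).2])
    rw [Complex.sin_arg] at h6
    have h7 : 0 < ‖Cc η‖ := norm_pos_iff.2 hC0
    have h8 : (Cc η).im / ‖Cc η‖ ≤ 0 := div_nonpos_of_nonpos_of_nonneg c2 h7.le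
    linarith
  set l := log (Cc η) with hl
  have hexp : exp l = Cc η := Complex.exp_log hC0
  have hlim : l.im = (Cc η).arg := Complex.log_im _
  -- the two logarithms
  have k1 : exp (2 * l) - 1 = Sc η ^ 2 := by
    have : exp (2 * l) = exp l ^ 2 := by
      rw [← Complex.exp_nat_mul]
      norm_num
    rw [this, hexp]
    linear_combination h4
  have k2 : exp (η ^ 2 / 2 - l) - 1 = 4 * Sc η ^ 2 := by
    rw [Complex.exp_sub, hexp, ← h3]
    field_simp
    linear_combination 4 * h4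
  have m1 : (2 * l).im = 2 * (Cc η).arg := by
    rw [← hlim]
    simp
  have m2 : (η ^ 2 / 2 - l).im = (η ^ 2).im / 2 - (Cc η).arg := by
    rw [Complex.sub_im, hlim]
    congr 1
    have : η ^ 2 / 2 = ((1 / 2 : ℝ) : ℂ) * η ^ 2 := by
      push_cast
      ring
    rw [this, Complex.im_ofReal_mul]
    ring
  have j1 := im_conj_exp (l := 2 * l) (by rw [m1]; linarith [hargC.1]) (by
    rw [m1]
    linarith [hargC.2])
  have hS : (Sc η ^ 2).im ≤ 0 := by
    rw [sq, Complex.mul_im]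
    nlinarith
  have j2' : (η ^ 2 / 2 - l).im ≤ 0 := by
    by_contra hcon
    push Not at hcon
    have h6 := congrArg Complex.im k2
    rw [Complex.sub_im, Complex.exp_im, Complex.one_im] at h6
    have h7 : (4 * Sc η ^ 2).im = 4 * (Sc η ^ 2).im := by
      have : (4 : ℂ) * Sc η ^ 2 = ((4 : ℝ) : ℂ) * Sc η ^ 2 := by push_cast; rfl
      rw [this, Complex.im_ofReal_mul]
    rw [h7] at h6
    have h8 : 0 < Real.sin (η ^ 2 / 2 - l).im :=
      Real.sin_pos_of_pos_of_lt_pi hcon (by rw [m2]; linarith [hargC.2])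
    have := mul_pos (Real.exp_pos (η ^ 2 / 2 - l).re) h8
    linarith
  have j2 := im_conj_exp (l := η ^ 2 / 2 - l) j2' (by rw [m2]; linarith [hargC.1])
  rw [k1] at j1
  rw [k2] at j2
  have e1 : η ^ 2 * (starRingEnd ℂ) (Sc η ^ 2) = (starRingEnd ℂ) (Sc η ^ 2) * (2 * l) +
      ((1 / 2 : ℝ) : ℂ) * ((starRingEnd ℂ) (4 * Sc η ^ 2) * (η ^ 2 / 2 - l)) := by
    rw [map_mul]
    have : (starRingEnd ℂ) (4 : ℂ) = 4 := by
      have := Complex.conj_ofReal (4 : ℝ)
      simpa using this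
    rw [this]
    push_cast
    ring
  rw [e1, Complex.add_im, Complex.im_ofReal_mul]
  linarith

lemma eta_im : η.im ≤ 0 := by
  have h1 : (η ^ 2).im = 2 * (η.re * η.im) := by
    rw [sq, Complex.mul_im]
    ring
  rw [h1] at hi
  by_contra hcon
  push Not at hcon
  have := mul_pos h' hcon
  linarith

lemma w_facts : 0 < (η * (starRingEnd ℂ) (Sc η)).re ∧ 0 ≤ (η * (starRingEnd ℂ) (Sc η)).im := by
  obtain ⟨c1, c2, c3, c4, c5, c6⟩ := CS_facts h h' hi hi'
  have h1 := eta_im h h' hi hi'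
  have h2 : 0 < (η * (starRingEnd ℂ) (Sc η)).re := by
    rw [Complex.mul_re, Complex.conj_re, Complex.conj_im]
    nlinarith [mul_pos h' c4, mul_nonneg_of_nonpos_of_nonpos h1 c5]
  refine ⟨h2, ?_⟩
  have h3 := im_eta_S h h' hi hi'
  have h4 : η ^ 2 * (starRingEnd ℂ) (Sc η ^ 2) = (η * (starRingEnd ℂ) (Sc η)) ^ 2 := by
    rw [map_pow]
    ring
  rw [h4, sq, Complex.mul_im] at h3
  by_contra hcon
  push Not at hcon
  nlinarith

lemma kp_mul_S : kp (η ^ 2) * S η = η := by
  have hr := rt_ne (psi_Dm (Or.inl h : η ∈ Dm))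
  have e1 : exp (-(η ^ 2 / 2)) * exp (η ^ 2 / 2) = 1 := by
    rw [← Complex.exp_add]
    simp
  have e2 : -η ^ 2 / 2 = -(η ^ 2 / 2) := by ring
  unfold kp S
  rw [e2]
  field_simp
  linear_combination η * e1

lemma sinh_AA : sinh (AA η) = S η := by
  rw [Complex.sinh, exp_AA (Or.inl h), exp_neg_AA (Or.inl h)]
  ring

lemma S_three : S η = Sc η * (4 * Cc η ^ 2 - 1) := by
  rw [← sinh_AA h h' hi hi']
  have h1 : sinh (AA η) = sinh (3 * (AA η / 3)) := by
    congr 1
    ring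
  rw [h1, Complex.sinh_three_mul]
  have h2 := Cc_sq η
  unfold Cc Sc at h2 ⊢
  linear_combination (-4 * sinh (AA η / 3)) * h2

lemma S_ne : S η ≠ 0 := by
  intro h0
  have h1 := kp_mul_S h h' hi hi'
  rw [h0, mul_zero] at h1
  rw [← h1] at h'
  simp at h'

/-- the imaginary part of the even part of the kernel -/
lemma Kev_im : 0 ≤ (Kev Kc η).im ∧ ((η ^ 2).im < 0 → 0 < (Kev Kc η).im) := by
  obtain ⟨c1, c2, c3, c4, c5, c6⟩ := CS_facts h h' hi hi'
  obtain ⟨w1, w2⟩ := w_facts h h' hi hi'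
  have hC0 : Cc η ≠ 0 := by
    intro h0
    rw [h0] at c1
    simp at c1
  have hS := S_ne h h' hi hi'
  have hS3 := S_three h h' hi hi'
  have hk := kp_mul_S h h' hi hi'
  set g := 4 * Cc η - (Cc η)⁻¹ with hg
  have hg1 : Cc η * g = 4 * Cc η ^ 2 - 1 := by
    rw [hg]
    field_simp
  have hg0 : g ≠ 0 := by
    intro h0
    rw [h0, mul_zero] at hg1
    rw [← hg1, mul_zero] at hS3
    exact hS hS3
  have hSc0 : Sc η ≠ 0 := by
    intro h0
    rw [h0, zero_mul] at hS3
    exact hS hS3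
  have h1 : Kev Kc η * (Sc η * g) = ((r3 / 2 : ℝ) : ℂ) * η := by
    rw [Kev_Kc (Or.inl h)]
    have : kp (η ^ 2) * (Sc η * (Cc η * g)) = η := by
      rw [hg1, ← hS3]
      exact hk
    push_cast
    linear_combination ((r3 : ℂ) / 2) * this
  have h2 : Kev Kc η * (((normSq (Sc η) * normSq g : ℝ)) : ℂ) =
      ((r3 / 2 : ℝ) : ℂ) * ((η * (starRingEnd ℂ) (Sc η)) * (starRingEnd ℂ) g) := by
    push_cast
    rw [← Complex.mul_conj, ← Complex.mul_conj]
    push_cast at h1
    linear_combination ((starRingEnd ℂ) (Sc η) * (starRingEnd ℂ) g) * h1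
  have h3 := congrArg Complex.im h2
  rw [Complex.im_mul_ofReal, Complex.im_ofReal_mul, Complex.mul_im, Complex.conj_re,
    Complex.conj_im] at h3
  have hn : 0 < normSq (Cc η) := Complex.normSq_pos.2 hC0
  have g1 : 0 ≤ g.re := by
    rw [hg, Complex.sub_re, Complex.inv_re]
    have : (4 * Cc η).re = 4 * (Cc η).re := by
      have : (4 : ℂ) * Cc η = ((4 : ℝ) : ℂ) * Cc η := by push_cast; rfl
      rw [this, Complex.re_ofReal_mul]
    rw [this]
    have h5 : (Cc η).re / normSq (Cc η) ≤ 4 * (Cc η).re := by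
      rw [div_le_iff₀ hn]
      nlinarith
    linarith
  have g2 : g.im = (Cc η).im * (4 + 1 / normSq (Cc η)) := by
    rw [hg, Complex.sub_im, Complex.inv_im]
    have : (4 * Cc η).im = 4 * (Cc η).im := by
      have : (4 : ℂ) * Cc η = ((4 : ℝ) : ℂ) * Cc η := by push_cast; rfl
      rw [this, Complex.im_ofReal_mul]
    rw [this]
    ring
  have g3 : 0 < 4 + 1 / normSq (Cc η) := by positivity
  have hD : 0 < normSq (Sc η) * normSq g :=
    mul_pos (Complex.normSq_pos.2 hSc0) (Complex.normSq_pos.2 hg0)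
  have hr := r3_pos
  constructor
  · have h6 : 0 ≤ -g.im := by
      rw [g2]
      have := mul_nonneg (by linarith : (0 : ℝ) ≤ -(Cc η).im) g3.le
      linarith
    have h7 : 0 ≤ (Kev Kc η).im * (normSq (Sc η) * normSq g) := by
      rw [h3]
      exact mul_nonneg (by positivity) (add_nonneg (mul_nonneg w1.le h6) (mul_nonneg w2 g1))
    exact nonneg_of_mul_nonneg_left h7 hD
  · intro h5
    have h6 : 0 < -g.im := by
      rw [g2]
      have := mul_pos (by linarith [c3 h5] : (0 : ℝ) < -(Cc η).im) g3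
      linarith
    have h7 : 0 < (Kev Kc η).im * (normSq (Sc η) * normSq g) := by
      rw [h3]
      exact mul_pos (by positivity) (add_pos_of_pos_of_nonneg (mul_pos w1 h6) (mul_nonneg w2 g1))
    exact pos_of_mul_pos_left h7 hD.le

lemma sect_pos : ∃ R θ : ℝ, 0 < R ∧ 0 ≤ θ ∧ θ ≤ -(η ^ 2).im / 2 ∧
    ((η ^ 2).im < 0 → 0 < θ) ∧ Kev Kc η = R * exp (θ * I) := by
  have hpi := Real.pi_pos
  obtain ⟨c1, c2, c3, c4, c5, c6⟩ := CS_facts h h' hi hi'
  obtain ⟨R, θ, hR, t1, t2, t3, t4⟩ := kp_sector' (Or.inl h : η ∈ Dm) hi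
  obtain ⟨k1, k2⟩ := Kev_im h h' hi hi'
  have hC0 : Cc η ≠ 0 := by
    intro h0
    rw [h0] at c1
    simp at c1
  have hCn : 0 < ‖Cc η‖ := norm_pos_iff.2 hC0
  have h5 := (Complex.abs_arg_lt_pi_div_two_iff.2 (Or.inl c1) : |(Cc η).arg| < Real.pi / 2)
  have harg : (Cc η).arg ≤ 0 := by
    by_contra hcon
    push Not at hcon
    have h6 : 0 < Real.sin (Cc η).arg :=
      Real.sin_pos_of_pos_of_lt_pi hcon (by linarith [(abs_lt.1 h5).2])
    rw [Complex.sin_arg] at h6
    have h8 : (Cc η).im / ‖Cc η‖ ≤ 0 := div_nonpos_of_nonpos_of_nonneg c2 hCn.le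
    linarith
  have hr := r3_pos
  have hK : Kev Kc η = ((r3 / 2 * ‖Cc η‖ * R : ℝ) : ℂ) * exp (((θ + (Cc η).arg : ℝ) : ℂ) * I) := by
    rw [Kev_Kc (Or.inl h), t4]
    conv_lhs => rw [← Complex.norm_mul_exp_arg_mul_I (Cc η)]
    push_cast
    rw [add_mul, Complex.exp_add]
    ring
  have hR' : 0 < r3 / 2 * ‖Cc η‖ * R := by positivity
  rw [hK, Complex.im_ofReal_mul, Complex.exp_ofReal_mul_I_im] at k1 k2
  have hs : 0 ≤ Real.sin (θ + (Cc η).arg) := nonneg_of_mul_nonneg_right k1 hR'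
  refine ⟨r3 / 2 * ‖Cc η‖ * R, θ + (Cc η).arg, hR', ?_, by linarith, ?_, hK⟩
  · by_contra hcon
    push Not at hcon
    have := Real.sin_neg_of_neg_of_neg_pi_lt hcon (by linarith [(abs_lt.1 h5).1])
    linarith
  · intro h6
    have h7 : 0 < Real.sin (θ + (Cc η).arg) := pos_of_mul_pos_right (k2 h6) hR'.le
    by_contra hcon
    push Not at hcon
    have := Real.sin_nonpos_of_nonpos_of_neg_pi_le hcon (by linarith [(abs_lt.1 h5).1])
    linarith

end main

end Pool.Agent.Helper11.K3H
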