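import Mathlib
import Pool.Agent.Helper11.K3H.Kern4

/-!
The kernel of `27/4 z (1 - z)²`: sector and decay, conclusion.
-/

namespace Pool.Agent.Helper11.K3H

open Complex Set Filter Topology MeasureTheory Pool.Agent.Helper11 Pool.Agent.Helper12.K3

lemma Kc_zero : Kev Kc 0 = (r3 : ℂ) / 2 := by
  rw [Kev_Kc zero_mem_Dm]
  unfold Cc
  rw [AA_zero, zero_div, Complex.cosh_zero]
  have : ((0 : ℂ) ^ 2) = 0 := by norm_num
  rw [this, kp_zero]
  ring

theorem sectc : Sect Kc 1 := by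
  have key : ∀ η ∈ Dm, 0 ≤ η.re → (η ^ 2).im ≤ 0 → -(2 * Real.pi) ≤ (η ^ 2).im →
      ∃ R θ : ℝ, 0 < R ∧ 0 ≤ θ ∧ θ ≤ -(η ^ 2).im / 2 ∧
        ((η ^ 2).im < 0 → 0 < θ) ∧ Kev Kc η = R * exp (θ * I) := by
    intro η hη hre hi hi'
    rcases hη with h | h
    · exact sect_pos h (lt_of_le_of_ne hre (re_ne h).symm) hi hi'
    · refine ⟨r3 / 2, 0, by have := r3_pos; positivity, le_rfl, ?_, ?_, ?_⟩
      · rw [h]
        simp
      · intro h3
        rw [h] at h3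
        simp at h3
      · rw [h, Kc_zero]
        simp
  intro η hη hi hi'
  rw [mul_one] at hi'
  rcases le_total 0 η.re with h | h
  · obtain ⟨R, θ, hR, t1, t2, t3, t4⟩ := key η hη h hi hi'
    exact ⟨R, θ, hR, t1, by simpa using t2, fun _ h6 => t3 h6, t4⟩
  · have e : (-η) ^ 2 = η ^ 2 := neg_sq η
    obtain ⟨R, θ, hR, t1, t2, t3, t4⟩ := key (-η) (neg_mem_Dm hη)
      (by rw [Complex.neg_re]; linarith) (by rw [e]; exact hi) (by rw [e]; exact hi')
    rw [e] at t2 t3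
    rw [Kev_neg] at t4
    exact ⟨R, θ, hR, t1, by simpa using t2, fun _ h6 => t3 h6, t4⟩

lemma norm_cosh_le (w : ℂ) (h : 0 ≤ w.re) : ‖cosh w‖ ≤ Real.exp w.re := by
  rw [Complex.cosh, norm_div]
  have h1 := norm_add_le (exp w) (exp (-w))
  rw [Complex.norm_exp, Complex.norm_exp, Complex.neg_re] at h1
  have h2 : Real.exp (-w.re) ≤ Real.exp w.re := Real.exp_le_exp.2 (by linarith)
  have h3 : ‖(2 : ℂ)‖ = 2 := by norm_num
  rw [h3, div_le_iff₀ (by norm_num)]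
  linarith

lemma norm_vv_le {η : ℂ} (h : 0 < (η ^ 2).re) : ‖vv η‖ ≤ 2 := by
  have h1 : ‖vv η‖ ^ 2 ≤ 2 := by
    rw [← norm_pow, vv_sq]
    have h2 := norm_sub_le (1 : ℂ) (exp (-(η ^ 2)))
    rw [norm_one, Complex.norm_exp, Complex.neg_re] at h2
    have h3 : Real.exp (-(η ^ 2).re) ≤ 1 := by
      rw [Real.exp_le_one_iff]
      linarith
    linarith
  by_contra hcon
  push Not at hcon
  nlinarith

lemma Cc_bound_pos {η : ℂ} (h : 0 < (η ^ 2).re) (h' : 0 < η.re) :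
    ‖Cc η‖ ≤ 3 * Real.exp ((η ^ 2).re / 6) := by
  have h1 := AA_re_pos h h'
  have h2 := AA_re h h'
  have h3 := one_vv_norm h h'
  have h4 : ‖1 + vv η‖ ≤ 3 := by
    have := norm_add_le (1 : ℂ) (vv η)
    rw [norm_one] at this
    linarith [norm_vv_le h]
  have h5 : Real.log ‖1 + vv η‖ ≤ Real.log 3 := Real.log_le_log (by linarith) h4
  have h6 : 0 ≤ Real.log 3 := Real.log_nonneg (by norm_num)
  unfold Cc
  refine (norm_cosh_le _ (by rw [div3_re]; linarith)).trans ?_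
  rw [div3_re]
  have h7 : (AA η).re / 3 ≤ Real.log 3 + (η ^ 2).re / 6 := by linarith
  refine (Real.exp_le_exp.2 h7).trans_eq ?_
  rw [Real.exp_add, Real.exp_log (by norm_num)]

lemma Cc_bound {η : ℂ} (h : η ∈ Dm) : ‖Cc η‖ ≤ 3 * Real.exp ((η ^ 2).re / 6) := by
  rcases h with h | h
  · rcases lt_or_gt_of_ne (re_ne h) with h' | h'
    · have h1 := Cc_bound_pos (η := -η) (by rw [neg_sq]; exact h) (by rw [Complex.neg_re]; linarith)
      rw [neg_sq, Cc_neg (Or.inl h)] at h1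
      exact h1
    · exact Cc_bound_pos h h'
  · rw [h]
    unfold Cc
    rw [AA_zero, zero_div, Complex.cosh_zero]
    norm_num

theorem decc : Dec Kc := by
  have hr := r3_pos
  refine ⟨3 * r3 / 2, 1 / 3, by positivity, by norm_num, fun F c hF hc => ?_⟩
  have hm := rt_mem_Dm hF c
  rw [Kev_Kc hm]
  have h1 := Cc_bound hm
  have h2 := kp_decay hF hc
  have h3 : ((rt F * (c : ℂ)) ^ 2).re = c ^ 2 * F.re := by
    rw [eta_sq, Complex.re_ofReal_mul]
  rw [h3] at h1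
  rw [norm_mul, norm_mul]
  have h4 : ‖(r3 : ℂ) / 2‖ = r3 / 2 := by
    rw [norm_div, Complex.norm_real, Real.norm_of_nonneg hr.le]
    norm_num
  rw [h4]
  have h5 : r3 / 2 * ‖Cc (rt F * (c : ℂ))‖ ≤ r3 / 2 * (3 * Real.exp (c ^ 2 * F.re / 6)) :=
    mul_le_mul_of_nonneg_left h1 (by positivity)
  refine (mul_le_mul h5 h2 (norm_nonneg _) (by positivity)).trans_eq ?_
  have h6 : Real.exp (-(1 / 3 * c ^ 2 * F.re)) =
      Real.exp (c ^ 2 * F.re / 6) * Real.exp (-(c ^ 2 * F.re / 2)) := by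
    rw [← Real.exp_add]
    congr 1
    ring
  rw [h6]
  ring

end Pool.Agent.Helper11.K3H
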