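import Mathlib

/-! The affine surface `c ∏ₘ xₘ^(pₘ) (1 - xₘ)^(qₘ) = 1`, `m = 0, 1, 2`. -/

namespace Pool.Agent.Helper11.K3H

/-- The polynomial `c ∏ₘ xₘ^(pₘ) (1 - xₘ)^(qₘ) - 1`. -/
noncomputable def powPoly (p q : Fin 3 → ℕ) (c : ℤ) : MvPolynomial (Fin 3) ℤ :=
  MvPolynomial.C c * ∏ m, (MvPolynomial.X m ^ p m * (1 - MvPolynomial.X m) ^ q m) - 1

/-- The ring `ℤ[x₀, x₁, x₂] / (c ∏ₘ xₘ^(pₘ) (1 - xₘ)^(qₘ) - 1)`. -/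
def PowRing (p q : Fin 3 → ℕ) (c : ℤ) : Type :=
  MvPolynomial (Fin 3) ℤ ⧸ Ideal.span {powPoly p q c}

noncomputable instance (p q : Fin 3 → ℕ) (c : ℤ) : CommRing (PowRing p q c) :=
  inferInstanceAs (CommRing (MvPolynomial (Fin 3) ℤ ⧸ Ideal.span {powPoly p q c}))

/-- The coordinate function `xₘ`. -/
noncomputable def powX (p q : Fin 3 → ℕ) (c : ℤ) (m : Fin 3) : PowRing p q c :=
  Ideal.Quotient.mk (Ideal.span {powPoly p q c}) (MvPolynomial.X m)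

/-- The critical value `∏ⱼ (pⱼ + qⱼ)^(pⱼ + qⱼ) / (pⱼ^pⱼ qⱼ^qⱼ)`. -/
noncomputable def powCrit (p q : Fin 3 → ℕ) : ℝ :=
  ∏ j, (((p j + q j : ℕ) : ℝ) ^ (p j + q j) / ((p j : ℝ) ^ p j * (q j : ℝ) ^ q j))

end Pool.Agent.Helper11.K3H
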