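import Mathlib
import Pool.Agent.Helper11.K3H.PowDefs
import Pool.Agent.Helper11.GridMain

/-! The surfaces `c ∏ₘ xₘ^(pₘ) (1 - xₘ)^(qₘ) = 1`: units, integrality, homomorphisms. -/

namespace Pool.Agent.Helper11.K3H

open Pool.Agent.Helper11

variable {p q : Fin 3 → ℕ} {c : ℤ}

lemma pow_rel : (c : PowRing p q c) *
    ∏ m, (powX p q c m ^ p m * (1 - powX p q c m) ^ q m) = 1 := by
  set π : MvPolynomial (Fin 3) ℤ →+* PowRing p q c :=
    Ideal.Quotient.mk (Ideal.span {powPoly p q c}) with hπ
  have h : π (powPoly p q c) = 0 :=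
    Ideal.Quotient.eq_zero_iff_mem.2 (Ideal.mem_span_singleton_self _)
  have hC : π (MvPolynomial.C c) = (c : PowRing p q c) := by
    have h2 := map_intCast (MvPolynomial.C : ℤ →+* MvPolynomial (Fin 3) ℤ) c
    rw [Int.cast_id] at h2
    rw [h2, map_intCast]
  unfold powPoly at h
  rw [map_sub, map_one, map_mul, map_prod, sub_eq_zero, hC] at h
  simp only [map_mul, map_pow, map_sub, map_one] at h
  exact h

lemma pow_dvd (m : Fin 3) : powX p q c m ^ p m * (1 - powX p q c m) ^ q m ∣ 1 :=
  (Dvd.dvd.mul_left (Finset.dvd_prod_of_mem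
    (fun m => powX p q c m ^ p m * (1 - powX p q c m) ^ q m) (Finset.mem_univ m))
    (c : PowRing p q c)).trans (dvd_of_eq pow_rel)

lemma powX_isUnit (hp : ∀ m, p m ≠ 0) (m : Fin 3) : IsUnit (powX p q c m) := by
  refine isUnit_of_dvd_one ((dvd_pow_self _ (hp m)).trans ?_)
  exact (Dvd.intro _ rfl).trans (pow_dvd m)

lemma powX_sub_isUnit (hq : ∀ m, q m ≠ 0) (m : Fin 3) : IsUnit (powX p q c m - 1) := by
  have h : IsUnit (1 - powX p q c m) := by
    refine isUnit_of_dvd_one ((dvd_pow_self _ (hq m)).trans ?_)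
    exact (Dvd.intro_left _ rfl).trans (pow_dvd m)
  have h2 : powX p q c m - 1 = -(1 - powX p q c m) := by ring
  rw [h2]
  exact h.neg

/-- homomorphisms from the ring -/
lemma exists_powHom {S : Type*} [CommRing S] (s : Fin 3 → S)
    (hs : (c : S) * ∏ m, (s m ^ p m * (1 - s m) ^ q m) = 1) :
    ∃ φ : PowRing p q c →+* S, ∀ m, φ (powX p q c m) = s m := by
  have hker : ∀ x : MvPolynomial (Fin 3) ℤ, x ∈ Ideal.span {powPoly p q c} →
      MvPolynomial.eval₂Hom (Int.castRingHom S) s x = 0 := by
    intro x hx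
    obtain ⟨y, rfl⟩ := Ideal.mem_span_singleton'.1 hx
    unfold powPoly
    rw [map_mul, map_sub, map_one, map_mul, map_prod]
    simp only [map_mul, map_pow, map_sub, map_one, MvPolynomial.eval₂Hom_X',
      MvPolynomial.eval₂Hom_C, Int.coe_castRingHom, hs, sub_self, mul_zero]
  refine ⟨Ideal.Quotient.lift (Ideal.span {powPoly p q c})
    (MvPolynomial.eval₂Hom (Int.castRingHom S) s) hker, ?_⟩
  intro m
  change Ideal.Quotient.lift (Ideal.span {powPoly p q c})
    (MvPolynomial.eval₂Hom (Int.castRingHom S) s) hker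
      (Ideal.Quotient.mk (Ideal.span {powPoly p q c}) (MvPolynomial.X m)) = s m
  rw [Ideal.Quotient.lift_mk]
  simp

/-- The symbols are unramified everywhere. -/
theorem pow_unramified (hp : ∀ m, p m ≠ 0) (hq : ∀ m, q m ≠ 0)
    (u v : Fin 3 → (PowRing p q c)ˣ) (hu : ∀ m, (u m : PowRing p q c) = powX p q c m)
    (hv : ∀ m, (v m : PowRing p q c) = powX p q c m - 1) :
    Unramified (symM fun m => v m / u m) := by
  intro K _ φ O hO
  rw [KMQ.map_symM]
  set x : Fin 3 → K := fun m => φ (powX p q c m) with hx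
  have hrel : (c : K) * ∏ m, (x m ^ p m * (1 - x m) ^ q m) = 1 := by
    have := congrArg φ (pow_rel (p := p) (q := q) (c := c))
    simpa [map_mul, map_prod, map_sub] using this
  have hval : ∀ m, ((Units.map (φ : PowRing p q c →* K) (v m / u m) : Kˣ) : K) =
      (x m - 1) / x m := by
    intro m
    rw [map_div, Units.val_div_eq_div_val]
    simp [hu, hv, hx]
  have hne : ∀ m, x m ^ p m * (1 - x m) ^ q m ≠ 0 := by
    intro m h0
    have h1 : ∏ m, (x m ^ p m * (1 - x m) ^ q m) = 0 :=
      Finset.prod_eq_zero (Finset.mem_univ m) h0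
    rw [h1, mul_zero] at hrel
    exact zero_ne_one hrel
  have hx0 : ∀ m, x m ≠ 0 := by
    intro m h0
    apply hne m
    rw [h0, zero_pow (hp m), zero_mul]
  by_cases hall : ∀ m, x m ∈ O
  · -- all entries are units
    refine Submodule.subset_span ⟨_, fun m => ?_, rfl⟩
    have hle0 : ∀ m, O.valuation (x m) ≤ 1 := fun m => (O.valuation_le_one_iff _).2 (hall m)
    have hle1 : ∀ m, O.valuation (1 - x m) ≤ 1 := fun m =>
      (O.valuation_le_one_iff _).2 (O.sub_mem O.one_mem (hall m))
    have hle : ∀ m, O.valuation (x m ^ p m * (1 - x m) ^ q m) ≤ 1 := by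
      intro m
      rw [map_mul, map_pow, map_pow]
      exact mul_le_one' (pow_le_one' (hle0 m) _) (pow_le_one' (hle1 m) _)
    have hfac : ∀ m, ¬ O.valuation (x m ^ p m * (1 - x m) ^ q m) < 1 := by
      intro m hlt
      have h2 : O.valuation (∏ m, (x m ^ p m * (1 - x m) ^ q m)) < 1 := by
        rw [← Finset.mul_prod_erase _ _ (Finset.mem_univ m), map_mul]
        refine mul_lt_one_of_nonneg_of_lt_one_left zero_le hlt ?_
        rw [map_prod]
        exact Finset.prod_le_one' fun k _ => hle k
      have h3 := congrArg O.valuation hrel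
      rw [map_mul, map_one, mul_comm] at h3
      have h4 : O.valuation (∏ m, (x m ^ p m * (1 - x m) ^ q m)) * O.valuation (c : K) < 1 :=
        mul_lt_one_of_nonneg_of_lt_one_left zero_le h2 (val_int_le O c)
      rw [h3] at h4
      exact lt_irrefl _ h4
    have h0 : ∀ m, O.valuation (x m) = 1 := by
      intro m
      by_contra hcon
      have hlt : O.valuation (x m) < 1 := lt_of_le_of_ne (hle0 m) hcon
      apply hfac m
      rw [map_mul, map_pow, map_pow]
      exact mul_lt_one_of_nonneg_of_lt_one_left zero_le (pow_lt_one' hlt (hp m))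
        (pow_le_one' (hle1 m) _)
    have h1 : ∀ m, O.valuation (1 - x m) = 1 := by
      intro m
      by_contra hcon
      have hlt : O.valuation (1 - x m) < 1 := lt_of_le_of_ne (hle1 m) hcon
      apply hfac m
      rw [map_mul, map_pow, map_pow, mul_comm]
      exact mul_lt_one_of_nonneg_of_lt_one_left zero_le (pow_lt_one' hlt (hq m))
        (pow_le_one' (hle0 m) _)
    rw [O.mem_unitGroup_iff, hval, map_div₀, h0, div_one]
    have : x m - 1 = -(1 - x m) := by ring
    rw [this, Valuation.map_neg, h1]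
  · push Not at hall
    obtain ⟨m, hm⟩ := hall
    refine symM_mem_of_sub_one O _ m ?_
    rw [hval]
    have hx1 : 1 < O.valuation (x m) := by
      rw [← O.valuation_le_one_iff, not_le] at hm
      exact hm
    have e : (x m - 1) / x m - 1 = -(1 / x m) := by
      have := hx0 m
      field_simp
      ring
    rw [e, Valuation.map_neg, map_div₀, map_one]
    exact (div_lt_one₀ (zero_lt_one.trans hx1)).2 hx1

end Pool.Agent.Helper11.K3H
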