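import Mathlib
import Pool.Agent.Helper11.K3H.PowUnr
import Pool.Agent.Helper11.K3H.Kern5
import Pool.Agent.Helper12.K3.Main

/-!
The theorem.
-/

namespace Pool.Agent.Helper11.K3H

open Complex Set Filter Topology MeasureTheory Pool.Agent.Helper11 Pool.Agent.Helper12.K3

/-- the critical constant `(b + 1)^(b + 1) / b^b` -/
noncomputable def kap (b : ℕ) : ℝ := ((b : ℝ) + 1) ^ (b + 1) / (b : ℝ) ^ b

/-- the coordinate of type `b` -/
noncomputable def zb (b : ℕ) : ℂ → ℂ := if b = 1 then zs else zc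

/-- the kernel of type `b` -/
noncomputable def Kb (b : ℕ) : ℂ → ℂ := if b = 1 then Ks else Kc

lemma kap_pos {b : ℕ} (h : 0 < b) : 0 < kap b := by
  unfold kap
  positivity

lemma kerb (b : ℕ) : Ker (zb b) (Kb b) := by
  unfold zb Kb
  split_ifs
  · exact kers
  · exact kerc

lemma sectb (b : ℕ) : Sect (Kb b) 1 := by
  unfold Kb
  split_ifs
  · exact sects
  · exact sectc

lemma decb (b : ℕ) : Dec (Kb b) := by
  unfold Kb
  split_ifs
  · exact decs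
  · exact decc

lemma relb {b : ℕ} (hb : b = 1 ∨ b = 2) {η : ℂ} (h : η ∈ Dm) :
    (kap b : ℂ) * (zb b η * (1 - zb b η) ^ b) = exp (η ^ 2) := by
  rcases hb with rfl | rfl
  · have h1 := zs_rel η
    have h2 : ((kap 1 : ℝ) : ℂ) = 4 := by
      unfold kap
      norm_num
    rw [h2, ← h1]
    unfold zb
    rw [if_pos rfl]
    ring
  · have h1 := zc_rel h
    have h2 : ((kap 2 : ℝ) : ℂ) = 27 / 4 := by
      unfold kap
      norm_num
    rw [h2, ← h1]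
    unfold zb
    rw [if_neg (by norm_num)]

/-- the scaling factor -/
noncomputable def ks (a : ℕ) : ℝ := 1 / Real.sqrt a

lemma ks_pos {a : ℕ} (h : 0 < a) : 0 < ks a := by
  unfold ks
  have : (0 : ℝ) < a := by exact_mod_cast h
  positivity

lemma ks_sq {a : ℕ} (h : 0 < a) : ks a ^ 2 * a = 1 := by
  unfold ks
  have h1 : (0 : ℝ) < a := by exact_mod_cast h
  rw [div_pow, Real.sq_sqrt h1.le, one_pow]
  field_simp

lemma ks_le {a : ℕ} (h : 0 < a) : ks a ≤ 1 := by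
  unfold ks
  have h1 : (1 : ℝ) ≤ a := by exact_mod_cast h
  rw [div_le_one (by positivity)]
  exact Real.one_le_sqrt.2 h1

/-- the relation for the scaled coordinate -/
lemma rel_sc {a b : ℕ} (ha : 0 < a) (hb : b = 1 ∨ b = 2) {η : ℂ} (h : η ∈ Dm) :
    (kap b : ℂ) ^ a * (scz (ks a) (zb b) η ^ a * (1 - scz (ks a) (zb b) η) ^ (b * a)) =
      exp (η ^ 2) := by
  have h1 := relb hb (smul_mem_Dm h (ks a))
  have h2 : ((kap b : ℂ) * (zb b ((ks a : ℂ) * η) * (1 - zb b ((ks a : ℂ) * η)) ^ b)) ^ a =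
      exp (η ^ 2) := by
    rw [h1, ← Complex.exp_nat_mul]
    congr 1
    have h3 : ((ks a : ℂ)) ^ 2 * (a : ℂ) = 1 := by
      have := ks_sq ha
      exact_mod_cast congrArg (fun x : ℝ => (x : ℂ)) this
    rw [mul_pow]
    linear_combination (η ^ 2) * h3
  rw [← h2, mul_pow, mul_pow, ← pow_mul]
  rfl

section main

variable {z1 K1 z2 K2 : ℂ → ℂ} (h1 : Ker z1 K1) (h2 : Ker z2 K2) {Λ : ℝ} (hΛ : 0 < Λ) (e : ℝ)

/-- the coordinates -/
noncomputable def coL (z1 z2 : ℂ → ℂ) (Λ e : ℝ) : Fin 3 → (Fin 2 → ℝ) → ℂ :=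
  ![fun θ => (1 + XL (θ 0)) * (1 / 2), fun θ => z1 (pL Λ e (θ 0) * (Real.cos (θ 1) : ℂ)),
    fun θ => z2 (pL Λ e (θ 0) * (Real.sin (θ 1) : ℂ))]

include h1 h2 hΛ

lemma coL_smooth : ∀ m, ContDiff ℝ 2 (coL z1 z2 Λ e m) := by
  intro m
  fin_cases m
  · exact (contDiff_const.add smXL).mul contDiff_const
  · exact smooth_comp h1.an (sm_cos hΛ e) (fun θ => good hΛ e _ _)
  · exact smooth_comp h2.an (sm_sin hΛ e) (fun θ => good hΛ e _ _)

omit h1 h2 hΛ in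
lemma coL_per (m : Fin 3) (l : Fin 2) (θ : Fin 2 → ℝ) :
    coL z1 z2 Λ e m (θ + Pi.single l (2 * Real.pi)) = coL z1 z2 Λ e m θ := by
  fin_cases m
  · exact perV (fun s _ => (1 + XL s) * (1 / 2)) (fun s _ => by rw [XL_per]) (fun _ _ => rfl) l θ
  · exact perV (fun s t => z1 (pL Λ e s * (Real.cos t : ℂ))) (fun s t => by rw [pL_per])
      (fun s t => by rw [Real.cos_add_two_pi]) l θ
  · exact perV (fun s t => z2 (pL Λ e s * (Real.sin t : ℂ))) (fun s t => by rw [pL_per])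
      (fun s t => by rw [Real.sin_add_two_pi]) l θ

omit h1 h2 hΛ in
lemma triL_eq (m : Fin 3) :
    tri V0 (V1 z1 Λ e) (V2 z2 Λ e) m = fun θ => uq (coL z1 z2 Λ e m θ) := by
  fin_cases m
  · funext θ
    change qq (XL (θ 0)) = uq ((1 + XL (θ 0)) * (1 / 2))
    unfold qq uq
    obtain ⟨n1, n2⟩ := qq_aux (XL_ne (θ 0))
    have n3 : (1 + XL (θ 0)) * (1 / 2) ≠ 0 := by
      intro h
      apply n2
      linear_combination 2 * h
    rw [div_eq_div_iff n2 n3]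
    ring
  · rfl
  · rfl

omit hΛ in
lemma coL_ne (hΛ : 0 < Λ) (m : Fin 3) (θ : Fin 2 → ℝ) : coL z1 z2 Λ e m θ ≠ 0 := by
  fin_cases m
  · change (1 + XL (θ 0)) * (1 / 2) ≠ 0
    obtain ⟨n1, n2⟩ := qq_aux (XL_ne (θ 0))
    intro h
    apply n2
    linear_combination 2 * h
  · exact h1.ne0 _ (good hΛ e _ _)
  · exact h2.ne0 _ (good hΛ e _ _)

/-- the coordinates as elements of the ring of the torus -/
noncomputable def xL (m : Fin 3) : TorusRing 2 :=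
  ⟨coL z1 z2 Λ e m, coL_smooth h1 h2 hΛ e m, fun l θ => coL_per e m l θ⟩

omit h1 h2 hΛ in
lemma xL_apply (h1 : Ker z1 K1) (h2 : Ker z2 K2) (hΛ : 0 < Λ) (m : Fin 3) (θ : Fin 2 → ℝ) :
    ((xL h1 h2 hΛ e m : TorusRing 2) : (Fin 2 → ℝ) → ℂ) θ = coL z1 z2 Λ e m θ := rfl

end main

/-- the product -/
lemma prodL {e a m b1 b2 : ℕ} (ha : 0 < a) (hm : 0 < m) (hb1 : b1 = 1 ∨ b1 = 2)
    (hb2 : b2 = 1 ∨ b2 = 2) {Λ : ℝ} (hΛ : 0 < Λ) (θ : Fin 2 → ℝ) :
    (4 : ℂ) ^ e * (kap b1 : ℂ) ^ a * (kap b2 : ℂ) ^ m *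
      ∏ j : Fin 3, (coL (scz (ks a) (zb b1)) (scz (ks m) (zb b2)) Λ e j θ ^
          (![e, a, m] : Fin 3 → ℕ) j *
        (1 - coL (scz (ks a) (zb b1)) (scz (ks m) (zb b2)) Λ e j θ) ^
          (![e, b1 * a, b2 * m] : Fin 3 → ℕ) j) = exp (Λ : ℂ) := by
  rw [Fin.prod_univ_three]
  have g1 := rel_sc ha hb1 (good hΛ (e : ℝ) (θ 0) (Real.cos (θ 1)))
  have g2 := rel_sc hm hb2 (good hΛ (e : ℝ) (θ 0) (Real.sin (θ 1)))
  have g0 : (4 : ℂ) ^ e * (((1 + XL (θ 0)) * (1 / 2)) ^ e *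
      (1 - (1 + XL (θ 0)) * (1 / 2)) ^ e) = exp (((e * aL (θ 0) : ℝ) : ℂ) * I) := by
    have h3 : (4 : ℂ) ^ e * (((1 + XL (θ 0)) * (1 / 2)) ^ e *
      (1 - (1 + XL (θ 0)) * (1 / 2)) ^ e) = (1 - XL (θ 0) ^ 2) ^ e := by
      rw [← mul_pow, ← mul_pow]
      congr 1
      ring
    rw [h3, ← exp_aL, ← Complex.exp_nat_mul]
    congr 1
    push_cast
    ring
  have g3 : exp (((e * aL (θ 0) : ℝ) : ℂ) * I) *
      exp ((pL Λ e (θ 0) * (Real.cos (θ 1) : ℂ)) ^ 2) *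
      exp ((pL Λ e (θ 0) * (Real.sin (θ 1) : ℂ)) ^ 2) = exp (Λ : ℂ) := by
    rw [← Complex.exp_add, ← Complex.exp_add]
    congr 1
    rw [mul_pow, mul_pow, pL_sq]
    have h4 := csq (θ 1)
    have h5 : FL Λ (e : ℝ) (θ 0) = (Λ : ℂ) - ((e * aL (θ 0) : ℝ) : ℂ) * I := rfl
    rw [h5]
    linear_combination ((Λ : ℂ) - ((e * aL (θ 0) : ℝ) : ℂ) * I) * h4
  change (4 : ℂ) ^ e * (kap b1 : ℂ) ^ a * (kap b2 : ℂ) ^ m *
    ((((1 + XL (θ 0)) * (1 / 2)) ^ e * (1 - (1 + XL (θ 0)) * (1 / 2)) ^ e) *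
    (scz (ks a) (zb b1) (pL Λ e (θ 0) * (Real.cos (θ 1) : ℂ)) ^ a *
      (1 - scz (ks a) (zb b1) (pL Λ e (θ 0) * (Real.cos (θ 1) : ℂ))) ^ (b1 * a)) *
    (scz (ks m) (zb b2) (pL Λ e (θ 0) * (Real.sin (θ 1) : ℂ)) ^ m *
      (1 - scz (ks m) (zb b2) (pL Λ e (θ 0) * (Real.sin (θ 1) : ℂ))) ^ (b2 * m))) = _
  rw [← g3, ← g0, ← g1, ← g2]
  ring

theorem pow_main (e a m b1 b2 : ℕ) (he : 1 ≤ e) (ha : e ≤ a) (hm : e ≤ m)
    (hb1 : b1 = 1 ∨ b1 = 2) (hb2 : b2 = 1 ∨ b2 = 2) (c : ℤ) (hc0 : 0 < c)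
    (hc1 : (c : ℝ) < 4 ^ e * kap b1 ^ a * kap b2 ^ m) :
    ∃ u v : Fin 3 → (PowRing ![e, a, m] ![e, b1 * a, b2 * m] c)ˣ,
      (∀ j, (u j : PowRing ![e, a, m] ![e, b1 * a, b2 * m] c) = powX _ _ c j) ∧
      (∀ j, (v j : PowRing ![e, a, m] ![e, b1 * a, b2 * m] c) = powX _ _ c j - 1) ∧
      Unramified (symM fun j => v j / u j) ∧
      ∃ R : KMQ (PowRing ![e, a, m] ![e, b1 * a, b2 * m] c) 3 →ₗ[ℚ] ℝ,
        IsTorusRegulator (n := 2) R ∧ R (symM fun j => v j / u j) ≠ 0 := by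
  have he0 : 0 < e := he
  have ha0 : 0 < a := he.trans ha
  have hm0 : 0 < m := he.trans hm
  have hb10 : 0 < b1 := by rcases hb1 with rfl | rfl <;> norm_num
  have hb20 : 0 < b2 := by rcases hb2 with rfl | rfl <;> norm_num
  have hp : ∀ j, (![e, a, m] : Fin 3 → ℕ) j ≠ 0 := by
    intro j
    fin_cases j
    · exact he0.ne'
    · exact ha0.ne'
    · exact hm0.ne'
  have hq : ∀ j, (![e, b1 * a, b2 * m] : Fin 3 → ℕ) j ≠ 0 := by
    intro j
    fin_cases j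
    · exact he0.ne'
    · exact (Nat.mul_pos hb10 ha0).ne'
    · exact (Nat.mul_pos hb20 hm0).ne'
  set p : Fin 3 → ℕ := ![e, a, m] with hpdef
  set q : Fin 3 → ℕ := ![e, b1 * a, b2 * m] with hqdef
  set CC : ℝ := 4 ^ e * kap b1 ^ a * kap b2 ^ m with hCC
  have hCC0 : 0 < CC := by
    have := kap_pos hb10
    have := kap_pos hb20
    positivity
  have hcR : (0 : ℝ) < c := by exact_mod_cast hc0
  set Λ : ℝ := Real.log (CC / c) with hΛdef
  have hΛ : 0 < Λ := by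
    apply Real.log_pos
    rw [one_lt_div hcR]
    exact hc1
  have hce : Real.exp Λ * c = CC := by
    rw [hΛdef, Real.exp_log (by positivity)]
    field_simp
  -- the kernels
  have k1 : Ker (scz (ks a) (zb b1)) (scK (ks a) (Kb b1)) := (kerb b1).scale (ks a)
  have k2 : Ker (scz (ks m) (zb b2)) (scK (ks m) (Kb b2)) := (kerb b2).scale (ks m)
  have s1 : Sect (scK (ks a) (Kb b1)) ((a : ℝ) * 1) :=
    (sectb b1).scale one_pos (ks_pos ha0) (ks_sq ha0)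
  have s2 : Sect (scK (ks m) (Kb b2)) ((m : ℝ) * 1) :=
    (sectb b2).scale one_pos (ks_pos hm0) (ks_sq hm0)
  have d1 : Dec (scK (ks a) (Kb b1)) := (decb b1).scale (ks_pos ha0) (ks_le ha0)
  have d2 : Dec (scK (ks m) (Kb b2)) := (decb b2).scale (ks_pos hm0) (ks_le hm0)
  have hR := reg_neg k1 k2 s1 s2 d1 d2 (e := (e : ℝ)) (by exact_mod_cast he0)
    (by rw [mul_one]; exact_mod_cast ha) (by rw [mul_one]; exact_mod_cast hm) hΛ
  -- the homomorphism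
  have hrel : (c : TorusRing 2) * ∏ j : Fin 3, (xL k1 k2 hΛ (e : ℝ) j ^ p j *
      (1 - xL k1 k2 hΛ (e : ℝ) j) ^ q j) = 1 := by
    apply Subtype.ext
    funext θ
    have e1 : (((c : TorusRing 2) * ∏ j : Fin 3, (xL k1 k2 hΛ (e : ℝ) j ^ p j *
      (1 - xL k1 k2 hΛ (e : ℝ) j) ^ q j) : TorusRing 2) : (Fin 2 → ℝ) → ℂ) θ =
        (c : ℂ) * ∏ j : Fin 3, (coL (scz (ks a) (zb b1)) (scz (ks m) (zb b2)) Λ e j θ ^ p j *
          (1 - coL (scz (ks a) (zb b1)) (scz (ks m) (zb b2)) Λ e j θ) ^ q j) := by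
      rw [Subring.coe_mul, Pi.mul_apply, int_apply]
      congr 1
    rw [e1]
    have h3 := prodL (e := e) ha0 hm0 hb1 hb2 hΛ θ
    have h4 : (4 : ℂ) ^ e * (kap b1 : ℂ) ^ a * (kap b2 : ℂ) ^ m = (CC : ℂ) := by
      rw [hCC]
      push_cast
      ring
    rw [h4] at h3
    have h5 : exp (Λ : ℂ) * (c : ℂ) = (CC : ℂ) := by
      have := congrArg (fun x : ℝ => (x : ℂ)) hce
      push_cast at this
      exact this
    have h6 : (CC : ℂ) ≠ 0 := by exact_mod_cast hCC0.ne'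
    change (c : ℂ) * ∏ j : Fin 3, (coL (scz (ks a) (zb b1)) (scz (ks m) (zb b2)) Λ e j θ ^ p j *
          (1 - coL (scz (ks a) (zb b1)) (scz (ks m) (zb b2)) Λ e j θ) ^ q j) = 1
    refine mul_left_cancel₀ h6 ?_
    rw [mul_one]
    linear_combination (c : ℂ) * h3 + h5
  obtain ⟨γ, hγ⟩ := exists_powHom (p := p) (q := q) (c := c) (xL k1 k2 hΛ (e : ℝ)) hrel
  obtain ⟨T, hT⟩ := exists_regTorus 2
  have hFs : ∀ f : Fin 3 → (PowRing p q c)ˣ, (T.comp (KMQ.map γ 3)) (symM f) =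
      regTorus (fun j => ((γ (f j : PowRing p q c) : TorusRing 2) : (Fin 2 → ℝ) → ℂ)) := by
    intro f
    simp only [LinearMap.comp_apply]
    rw [KMQ.map_symM, hT]
    rfl
  have hu : ∀ j, ((powX_isUnit (q := q) (c := c) hp j).unit : PowRing p q c) = powX p q c j :=
    fun j => rfl
  have hv : ∀ j, ((powX_sub_isUnit (p := p) (c := c) hq j).unit : PowRing p q c) =
    powX p q c j - 1 :=
    fun j => rfl
  refine ⟨fun j => (powX_isUnit hp j).unit, fun j => (powX_sub_isUnit hq j).unit, hu, hv,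
    pow_unramified hp hq _ _ hu hv, T.comp (KMQ.map γ 3), ⟨γ, hFs⟩, ?_⟩
  rw [hFs]
  have hfun : (fun j : Fin 3 => ((γ ((((powX_sub_isUnit (p := p) (c := c) hq j).unit) /
      ((powX_isUnit (q := q) (c := c) hp j).unit) : (PowRing p q c)ˣ) : PowRing p q c) :
      TorusRing 2) : (Fin 2 → ℝ) → ℂ)) =
      tri V0 (V1 (scz (ks a) (zb b1)) Λ e) (V2 (scz (ks m) (zb b2)) Λ e) := by
    funext j θ
    rw [triL_eq]
    set u1 : (PowRing p q c)ˣ := (powX_sub_isUnit (p := p) (c := c) hq j).unit with hu1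
    set u0 : (PowRing p q c)ˣ := (powX_isUnit (q := q) (c := c) hp j).unit with hu0
    have e1 : ((u1 / u0 : (PowRing p q c)ˣ) : PowRing p q c) * (u0 : PowRing p q c) = u1 := by
      rw [← Units.val_mul, div_mul_cancel]
    have e2 := congrArg (fun x => ((γ x : TorusRing 2) : (Fin 2 → ℝ) → ℂ) θ) e1
    simp only [map_mul] at e2
    rw [hu0, hu j, hu1, hv j, map_sub, map_one, hγ] at e2
    rw [Subring.coe_mul, Pi.mul_apply, AddSubgroupClass.coe_sub, Pi.sub_apply, xL_apply] at e2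
    have e3 : (((1 : TorusRing 2) : TorusRing 2) : (Fin 2 → ℝ) → ℂ) θ = 1 := rfl
    rw [e3] at e2
    have n1 := coL_ne k1 k2 (e : ℝ) hΛ j θ
    unfold uq
    rw [eq_div_iff n1]
    exact e2
  rw [hfun]
  exact hR.ne

end Pool.Agent.Helper11.K3H
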