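import Mathlib
import Pool.Agent.Helper11.K3H.PowMain

/-!
The theorem in terms of the exponents.
-/

namespace Pool.Agent.Helper11.K3H

open Pool.Agent.Helper11

lemma crit_one {a b : ℕ} (ha : 0 < a) (hb : 0 < b) :
    ((a + b * a : ℕ) : ℝ) ^ (a + b * a) / ((a : ℝ) ^ a * ((b * a : ℕ) : ℝ) ^ (b * a)) =
      kap b ^ a := by
  have ha' : (a : ℝ) ≠ 0 := by exact_mod_cast ha.ne'
  have hb' : (b : ℝ) ≠ 0 := by exact_mod_cast hb.ne'
  unfold kap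
  have e1 : a + b * a = (b + 1) * a := by ring
  rw [e1, div_pow, ← pow_mul, ← pow_mul]
  push_cast
  rw [mul_pow, mul_pow]
  have e2 : (a : ℝ) ^ ((b + 1) * a) = (a : ℝ) ^ a * (a : ℝ) ^ (b * a) := by
    rw [← pow_add]
    congr 1
    ring
  rw [e2]
  have h1 : (a : ℝ) ^ a ≠ 0 := pow_ne_zero _ ha'
  have h2 : (a : ℝ) ^ (b * a) ≠ 0 := pow_ne_zero _ ha'
  have h3 : (b : ℝ) ^ (b * a) ≠ 0 := pow_ne_zero _ hb'
  field_simp

theorem pow_final (p q : Fin 3 → ℕ) (h0 : 1 ≤ p 0) (h1 : p 0 ≤ p 1) (h2 : p 0 ≤ p 2)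
    (k0 : q 0 = p 0) (k1 : q 1 = p 1 ∨ q 1 = 2 * p 1) (k2 : q 2 = p 2 ∨ q 2 = 2 * p 2)
    (c : ℤ) (hc0 : 0 < c) (hc1 : (c : ℝ) < powCrit p q) :
    ∃ u v : Fin 3 → (PowRing p q c)ˣ,
      (∀ j, (u j : PowRing p q c) = powX p q c j) ∧
      (∀ j, (v j : PowRing p q c) = powX p q c j - 1) ∧
      Unramified (symM fun j => v j / u j) ∧
      ∃ R : KMQ (PowRing p q c) 3 →ₗ[ℚ] ℝ,
        IsTorusRegulator (n := 2) R ∧ R (symM fun j => v j / u j) ≠ 0 := by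
  obtain ⟨b1, hb1, e1⟩ : ∃ b : ℕ, (b = 1 ∨ b = 2) ∧ q 1 = b * p 1 := by
    rcases k1 with h | h
    · exact ⟨1, Or.inl rfl, by rw [h, one_mul]⟩
    · exact ⟨2, Or.inr rfl, h⟩
  obtain ⟨b2, hb2, e2⟩ : ∃ b : ℕ, (b = 1 ∨ b = 2) ∧ q 2 = b * p 2 := by
    rcases k2 with h | h
    · exact ⟨1, Or.inl rfl, by rw [h, one_mul]⟩
    · exact ⟨2, Or.inr rfl, h⟩
  have hp : p = ![p 0, p 1, p 2] := by
    funext j
    fin_cases j <;> rfl
  have hq : q = ![p 0, b1 * p 1, b2 * p 2] := by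
    funext j
    fin_cases j
    · exact k0
    · exact e1
    · exact e2
  have hb10 : 0 < b1 := by rcases hb1 with rfl | rfl <;> norm_num
  have hb20 : 0 < b2 := by rcases hb2 with rfl | rfl <;> norm_num
  have hcrit : powCrit p q = 4 ^ p 0 * kap b1 ^ p 1 * kap b2 ^ p 2 := by
    unfold powCrit
    rw [Fin.prod_univ_three, e1, e2, k0, crit_one (by omega) hb10, crit_one (by omega) hb20]
    have h4 := crit_one (a := p 0) (b := 1) (by omega) one_pos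
    rw [one_mul] at h4
    rw [h4]
    congr 3
    unfold kap
    norm_num
  rw [hcrit] at hc1
  have hm := pow_main (p 0) (p 1) (p 2) b1 b2 h0 h1 h2 hb1 hb2 c hc0 hc1
  rw [← hp, ← hq] at hm
  exact hm

end Pool.Agent.Helper11.K3H
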